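import Mathlib
import Pool.Agent.TH881.RG.Eq
import Pool.Agent.TH494.J1511

set_option autoImplicit false

/-! Job 1816 (RG-K2): the example for `κ > 0`. -/

namespace Pool.Agent.TH986.J1816

open Finset Filter Topology
open Pool.Agent.TH881 Pool.Agent.TH881.RG
open Pool.Agent.H373R2.T7
open Pool.Agent.TH494.RG
open Pool.Agent.H560R3.GB (HL)

/-- an invariant subset of prescribed size -/
lemma exists_T {α : Type*} [DecidableEq α] (S : Finset α) (ι : α → α) (hι : ∀ a, ι (ι a) = a)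
    (hS : ∀ a ∈ S, ι a ∈ S) (r : ℝ) (hr0 : 0 ≤ r) (hr : r ≤ S.card) :
    ∃ T ⊆ S, (∀ a ∈ T, ι a ∈ T) ∧ r ≤ T.card ∧ (T.card : ℝ) ≤ r + 2 := by
  classical
  set P : Finset (Finset α) := S.powerset.filter
    (fun T => (∀ a ∈ T, ι a ∈ T) ∧ r ≤ (T.card : ℝ)) with hP
  have hne : P.Nonempty := ⟨S, by
    rw [hP, mem_filter, mem_powerset]
    exact ⟨Subset.rfl, hS, hr⟩⟩
  obtain ⟨T, hT, hmin⟩ := exists_min_image P (fun T => T.card) hne
  rw [hP, mem_filter, mem_powerset] at hT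
  obtain ⟨hTS, hTi, hTr⟩ := hT
  refine ⟨T, hTS, hTi, hTr, ?_⟩
  by_contra hcon
  push Not at hcon
  have hpos : 0 < T.card := by
    have : (0 : ℝ) < T.card := by linarith
    exact_mod_cast this
  obtain ⟨a, ha⟩ := card_pos.1 hpos
  set T' := T \ {a, ι a} with hT'
  have h1 : T.card ≤ T'.card + 2 := by
    have h2 : T ⊆ T' ∪ {a, ι a} := by
      intro x hx
      rw [mem_union, hT', Finset.mem_sdiff]
      by_cases h : x ∈ ({a, ι a} : Finset α)
      · exact Or.inr h
      · exact Or.inl ⟨hx, h⟩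
    refine (card_le_card h2).trans ((card_union_le _ _).trans ?_)
    have : ({a, ι a} : Finset α).card ≤ 2 := card_le_two
    omega
  have h2 : T'.card < T.card := by
    apply card_lt_card
    rw [ssubset_iff_of_subset sdiff_subset]
    exact ⟨a, ha, by simp [hT']⟩
  have h3 : T' ∈ P := by
    rw [hP, mem_filter, mem_powerset]
    refine ⟨sdiff_subset.trans hTS, ?_, ?_⟩
    · intro x hx
      rw [hT', Finset.mem_sdiff, mem_insert, mem_singleton] at hx ⊢
      push Not at hx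
      refine ⟨hTi x hx.1, ?_⟩
      push Not
      constructor
      · intro h
        apply hx.2.2
        rw [← h, hι]
      · intro h
        apply hx.2.1
        rw [← hι x, h, hι]
    · have : (T.card : ℝ) ≤ T'.card + 2 := by exact_mod_cast h1
      linarith
  have h4 := hmin T' h3
  omega

/-- the choice of the parameter -/
lemma choice_gen (F : ℕ → ℝ) (hF : ∀ y, 0 < F y) (c : ℝ)
    (hlog : Tendsto (fun y : ℕ => F y * Real.log y) atTop (𝓝 c)) (δ : ℝ) (hδ : 0 < δ) :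
    ∃ η0 : ℝ, 0 < η0 ∧ ∀ η : ℝ, 0 < η → η ≤ η0 →
    ∃ y : ℕ, 2 ≤ y ∧ F y ≤ η ∧ η * Real.log (Real.log (Wp y)) ≤ c + δ := by
  classical
  have hFlim : Tendsto F atTop (𝓝 0) := by
    have h2 : Tendsto (fun y : ℕ => (Real.log y)⁻¹) atTop (𝓝 0) :=
      (Real.tendsto_log_atTop.comp tendsto_natCast_atTop_atTop).inv_tendsto_atTop
    have h3 := hlog.mul h2
    rw [mul_zero] at h3
    refine h3.congr' ?_
    filter_upwards [eventually_ge_atTop 2] with y hy
    have h3 : (2 : ℝ) ≤ y := by exact_mod_cast hy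
    have h4 : 0 < Real.log y := Real.log_pos (by linarith)
    field_simp
  have h1 : ∀ᶠ y : ℕ in atTop, F y * Real.log y < c + δ / 2 :=
    hlog.eventually (gt_mem_nhds (by linarith))
  obtain ⟨Y, hY⟩ := eventually_atTop.1 h1
  obtain ⟨m, hm0, hm⟩ : ∃ m : ℝ, 0 < m ∧ ∀ y ∈ range (Y + 4), m ≤ F y := by
    obtain ⟨x, hx, hmin⟩ := exists_min_image (range (Y + 4)) F ⟨0, mem_range.2 (by omega)⟩
    exact ⟨F x, hF x, hmin⟩
  refine ⟨min (m / 2) (δ / 6), by positivity, fun η hη hη0 => ?_⟩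
  have hη1 : η ≤ m / 2 := hη0.trans (min_le_left _ _)
  have hη2 : η ≤ δ / 6 := hη0.trans (min_le_right _ _)
  have hex : ∃ y : ℕ, F y ≤ η := by
    obtain ⟨y, hy⟩ := (hFlim.eventually (gt_mem_nhds hη)).exists
    exact ⟨y, hy.le⟩
  set y := Nat.find hex with hyd
  have hy1 : F y ≤ η := Nat.find_spec hex
  have hyY : Y + 4 ≤ y := by
    by_contra h
    have := hm y (mem_range.2 (by omega))
    linarith
  have hy2 : η < F (y - 1) := by
    have := Nat.find_min hex (show y - 1 < Nat.find hex by omega)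
    push Not at this
    exact this
  refine ⟨y, by omega, hy1, ?_⟩
  have h2 := hY (y - 1) (by omega)
  have hyR : (4 : ℝ) ≤ y := by exact_mod_cast (by omega : 4 ≤ y)
  have hc1 : ((y - 1 : ℕ) : ℝ) = y - 1 := by
    rw [Nat.cast_sub (by omega)]; norm_num
  rw [hc1] at h2
  have hlog1 : 0 < Real.log ((y : ℝ) - 1) := Real.log_pos (by linarith)
  have h3 : η * Real.log ((y : ℝ) - 1) ≤ c + δ / 2 := by
    have : η * Real.log ((y : ℝ) - 1) ≤ F (y - 1) * Real.log ((y : ℝ) - 1) := by gcongr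
    linarith
  have hWle : (Wp y : ℝ) ≤ 4 ^ y := by exact_mod_cast Wp_le y
  have hW2 : 2 ≤ Wp y := Nat.le_of_dvd (Wp_pos y) ((prime_dvd_Wp Nat.prime_two).2 (by omega))
  have hW2R : (2 : ℝ) ≤ Wp y := by exact_mod_cast hW2
  have hlogW : 0 < Real.log (Wp y) := Real.log_pos (by linarith)
  have h4 : Real.log (Wp y) ≤ y * Real.log 4 := by
    have := Real.log_le_log (by linarith) hWle
    rwa [Real.log_pow] at this
  have hlog4 : Real.log 4 ≤ 2 := by
    have h5 : Real.log 4 = 2 * Real.log 2 := by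
      rw [show (4 : ℝ) = 2 ^ 2 by norm_num, Real.log_pow]
      norm_num
    have := Real.log_two_lt_d9
    linarith
  have h5 : Real.log (Real.log (Wp y)) ≤ Real.log ((y : ℝ) - 1) + 3 := by
    have h6 : Real.log (Wp y) ≤ ((y : ℝ) - 1) * Real.exp 3 := by
      have he : (4 : ℝ) ≤ Real.exp 3 := by
        have := Real.add_one_le_exp (3 : ℝ)
        linarith
      calc Real.log (Wp y) ≤ y * 2 := h4.trans (by gcongr)
        _ ≤ ((y : ℝ) - 1) * 4 := by linarith
        _ ≤ _ := by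
          apply mul_le_mul_of_nonneg_left he
          linarith
    have h7 := Real.log_le_log hlogW h6
    rwa [Real.log_mul (by linarith) (Real.exp_pos 3).ne', Real.log_exp] at h7
  calc η * Real.log (Real.log (Wp y)) ≤ η * (Real.log ((y : ℝ) - 1) + 3) := by gcongr
    _ = η * Real.log ((y : ℝ) - 1) + 3 * η := by ring
    _ ≤ _ := by linarith

/-- the loss for the parameter `y` -/
noncomputable def FF (θ : ℝ) (y : ℕ) : ℝ := θ * (om y / 2) + 2 / (Nat.totient (Wp y) : ℝ)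

lemma FF_pos (θ : ℝ) (hθ : 0 ≤ θ) (y : ℕ) : 0 < FF θ y := by
  unfold FF
  have h1 := om_pos y
  have h2 := totient_Wp_pos y
  positivity

lemma FF_log (θ : ℝ) : Tendsto (fun y : ℕ => FF θ y * Real.log y) atTop
    (𝓝 (θ * (C2 * Real.exp (-Real.eulerMascheroniConstant)))) := by
  have h1 := om_log.const_mul (1 / 2)
  have h2 := (DD_log.sub h1).const_mul 2
  have h3 := (h1.const_mul θ).add h2
  have e : θ * (1 / 2 * (2 * C2 * Real.exp (-Real.eulerMascheroniConstant))) +
      2 * (C2 * Real.exp (-Real.eulerMascheroniConstant) -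
        1 / 2 * (2 * C2 * Real.exp (-Real.eulerMascheroniConstant))) =
      θ * (C2 * Real.exp (-Real.eulerMascheroniConstant)) := by ring
  rw [e] at h3
  refine h3.congr fun y => ?_
  unfold DD FF
  ring

open Classical in
/-- the classes of the representations of `2` -/
noncomputable def S0 (y : ℕ) : Finset (ZMod (Wp y)) :=
  univ.filter (fun a : ZMod (Wp y) => IsUnit a ∧ IsUnit (2 - a))

lemma mem_S0 {y : ℕ} {a : ZMod (Wp y)} : a ∈ S0 y ↔ IsUnit a ∧ IsUnit (2 - a) := by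
  classical
  unfold S0
  rw [mem_filter]
  exact ⟨fun h => h.2, fun h => ⟨mem_univ _, h⟩⟩

lemma S0_pos (y : ℕ) : 0 < (S0 y).card := by
  apply card_pos.2
  refine ⟨1, ?_⟩
  rw [mem_S0]
  have : (2 : ZMod (Wp y)) - 1 = 1 := by norm_num
  rw [this]
  exact ⟨isUnit_one, isUnit_one⟩

lemma S0_card (y : ℕ) (hy : 2 ≤ y) : ((S0 y).card : ℝ) = om y * Nat.totient (Wp y) := by
  have hφ := totient_Wp_pos y
  have h : ((S0 y).card : ℝ) / Nat.totient (Wp y) = om y := by
    rw [← wt_two y hy]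
    unfold wt S0
    congr 3
  rw [← h]
  field_simp

/-- the representations in the classes of `S0` -/
lemma sum_rcl (y n : ℕ) (S : Finset (ZMod (Wp y))) :
    ∑ a ∈ S, rcl y a n ≤ rep Set.univ n := by
  classical
  set R := (antidiagonal n).filter (fun q : ℕ × ℕ => q.1.Prime ∧ q.2.Prime) with hR
  have h1 : ∀ a ∈ S, rcl y a n = (R.filter (fun q : ℕ × ℕ => (q.1 : ZMod (Wp y)) = a)).card := by
    intro a _
    unfold rcl
    rw [hR, filter_filter]
    congr 1
    ext q
    simp only [mem_filter]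
    tauto
  rw [sum_congr rfl h1, sum_card_fiberwise_eq_card_filter]
  refine (card_le_card (filter_subset _ _)).trans ?_
  rw [← g_eq]
  unfold Pool.Agent.H560R3.GB.g
  exact le_of_eq (by congr)

/-- the representations by primes of the complement of `C` -/
lemma rep_le (y : ℕ) (hy : 2 ≤ y) (T C : Finset (ZMod (Wp y)))
    (hC : ∀ a ∈ T, a ∈ C ∨ 2 - a ∈ C) (n : ℕ) (hn : (n : ZMod (Wp y)) = 2) :
    rep {p : ℕ | (p : ZMod (Wp y)) ∉ C} n ≤ ∑ a ∈ S0 y \ T, rcl y a n + 2 * (y + 1) := by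
  classical
  set A : Set ℕ := {p : ℕ | (p : ZMod (Wp y)) ∉ C} with hA
  set R : ZMod (Wp y) → Finset (ℕ × ℕ) := fun a => (antidiagonal n).filter
    (fun q : ℕ × ℕ => q.1.Prime ∧ q.2.Prime ∧ (q.1 : ZMod (Wp y)) = a) with hR
  have h1 : repS A n ⊆ (S0 y \ T).biUnion R ∪
      ((range (y + 1)).image (fun l => (l, n - l)) ∪ (range (y + 1)).image (fun l => (n - l, l))) := by
    rintro ⟨p, q⟩ hpq
    rw [mem_repS] at hpq
    obtain ⟨h0, ⟨hp1, hp2⟩, hq1, hq2⟩ := hpq
    simp only at h0 hp1 hp2 hq1 hq2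
    rw [mem_union, mem_union, mem_biUnion, mem_image, mem_image]
    by_cases hpw : p ≤ y
    · right; left
      refine ⟨p, mem_range.2 (by omega), ?_⟩
      have : n - p = q := by omega
      rw [this]
    by_cases hqw : q ≤ y
    · right; right
      refine ⟨q, mem_range.2 (by omega), ?_⟩
      have : n - q = p := by omega
      rw [this]
    left
    have hup : IsUnit (p : ZMod (Wp y)) := by
      rw [ZMod.isUnit_iff_coprime, Nat.Prime.coprime_iff_not_dvd hp1, prime_dvd_Wp hp1]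
      omega
    have huq : IsUnit (q : ZMod (Wp y)) := by
      rw [ZMod.isUnit_iff_coprime, Nat.Prime.coprime_iff_not_dvd hq1, prime_dvd_Wp hq1]
      omega
    have hq3 : (q : ZMod (Wp y)) = 2 - p := by
      rw [← hn, ← h0]
      push_cast
      ring
    have hp2' : (p : ZMod (Wp y)) ∉ C := hp2
    have hq2' : (q : ZMod (Wp y)) ∉ C := hq2
    rw [hq3] at huq hq2'
    refine ⟨(p : ZMod (Wp y)), ?_, ?_⟩
    · rw [Finset.mem_sdiff, mem_S0]
      refine ⟨⟨hup, huq⟩, fun hT => ?_⟩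
      rcases hC _ hT with h | h
      · exact hp2' h
      · exact hq2' h
    · rw [hR]
      simp only [mem_filter, HasAntidiagonal.mem_antidiagonal]
      exact ⟨h0, hp1, hq1, trivial⟩
  rw [rep_eq]
  refine (card_le_card h1).trans ((card_union_le _ _).trans ?_)
  have h2 : ((S0 y \ T).biUnion R).card ≤ ∑ a ∈ S0 y \ T, rcl y a n := by
    refine card_biUnion_le.trans (le_of_eq (sum_congr rfl fun a _ => ?_))
    rfl
  have h3 := (card_union_le ((range (y + 1)).image (fun l => (l, n - l)))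
    ((range (y + 1)).image (fun l => (n - l, l))))
  have h4 : ((range (y + 1)).image (fun l => (l, n - l))).card ≤ y + 1 :=
    card_image_le.trans (le_of_eq (card_range _))
  have h5 : ((range (y + 1)).image (fun l => (n - l, l))).card ≤ y + 1 :=
    card_image_le.trans (le_of_eq (card_range _))
  omega

lemma HL_ge (n : ℕ) : (n : ℝ) / Real.log n ^ 2 ≤ HL n := by
  unfold HL
  have h1 := Pool.Agent.W93.GB.one_le_sing n
  have h2 : (0 : ℝ) ≤ (n : ℝ) / Real.log n ^ 2 := by positivity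
  nlinarith

/-- the averaging over the classes -/
lemma average {β : Type*} (U S : Finset β) (f : β → ℝ) (X R : ℝ) (hS : 0 < S.card)
    (hf : ∀ a ∈ U, ∀ b ∈ S, f a ≤ f b + X) (hR : ∑ b ∈ S, f b ≤ R) :
    ∑ a ∈ U, f a ≤ (U.card : ℝ) / S.card * R + U.card * X := by
  have hs : (0 : ℝ) < S.card := by exact_mod_cast hS
  have h1 : ∀ a ∈ U, f a ≤ R / S.card + X := by
    intro a ha
    have h2 : ∑ b ∈ S, f a ≤ ∑ b ∈ S, (f b + X) := sum_le_sum fun b hb => hf a ha b hb
    rw [sum_const, sum_add_distrib, sum_const, nsmul_eq_mul, nsmul_eq_mul] at h2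
    have h3 : (S.card : ℝ) * f a ≤ R + S.card * X := by linarith
    have h4 : R / S.card + X = (R + S.card * X) / S.card := by field_simp
    rw [h4, le_div_iff₀ hs]
    linarith
  refine (sum_le_sum h1).trans ?_
  rw [sum_const, nsmul_eq_mul]
  apply le_of_eq
  field_simp

lemma dens_kappa (hPC : StPC) (hEq : StEq) (κ τ : ℝ) (hτ : 0 < τ) (hτκ : τ ≤ κ) (hκ1 : κ < 1)
    (y : ℕ) (hy : 2 ≤ y) (T C : Finset (ZMod (Wp y)))
    (hC : ∀ a ∈ T, a ∈ C ∨ 2 - a ∈ C)
    (hU : ((S0 y \ T).card : ℝ) ≤ (κ - τ) * (S0 y).card) :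
    1 / (Wp y : ℝ) ≤ lowerDensity
      {n | Even n ∧ (rep {p : ℕ | (p : ZMod (Wp y)) ∉ C} n : ℝ) ≤ κ * HL n} := by
  classical
  have hW2 : 2 ∣ Wp y := (prime_dvd_Wp Nat.prime_two).2 hy
  have hW : 2 ≤ Wp y := Nat.le_of_dvd (Wp_pos y) hW2
  set A : Set ℕ := {p : ℕ | (p : ZMod (Wp y)) ∉ C} with hA
  set G : Set ℕ := {n | Even n ∧ (rep A n : ℝ) ≤ κ * HL n} with hG
  set U := S0 y \ T with hUd
  set ε : ℝ := τ / (3 * (U.card + 1)) with hε
  have hε0 : 0 < ε := by positivity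
  -- the bad sets
  set Bd : ZMod (Wp y) × ZMod (Wp y) → Set ℕ := fun t => {n : ℕ | (n : ZMod (Wp y)) = 2 ∧
    ε * ((n : ℝ) / Real.log n ^ 2) < |(rcl y t.1 n : ℝ) - rcl y t.2 n|} with hBd
  set Bh : Set ℕ := {n : ℕ | Even n ∧
    ¬ |(rep Set.univ n : ℝ) - HL n| ≤ τ / 3 * HL n} with hBh
  obtain ⟨N1, hN1⟩ : ∃ N1 : ℕ, ∀ n : ℕ, N1 ≤ n →
      2 * ((y : ℝ) + 1) ≤ τ / 3 * ((n : ℝ) / Real.log n ^ 2) := by
    have h1 : Tendsto (fun x : ℝ => x / Real.log x ^ 2) atTop atTop := by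
      have h2 : Tendsto (fun x : ℝ => Real.log x ^ 2 / x) atTop (𝓝[>] 0) := by
        rw [tendsto_nhdsWithin_iff]
        refine ⟨?_, ?_⟩
        · have := (Real.isLittleO_pow_log_id_atTop (n := 2)).tendsto_div_nhds_zero
          exact this
        · filter_upwards [eventually_gt_atTop 1] with x hx
          have : 0 < Real.log x := Real.log_pos hx
          change 0 < Real.log x ^ 2 / x
          positivity
      have h3 := h2.inv_tendsto_nhdsGT_zero
      refine h3.congr fun x => ?_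
      rw [Pi.inv_apply, inv_div]
    have h2 := (h1.comp tendsto_natCast_atTop_atTop).const_mul_atTop (show 0 < τ / 3 by positivity)
    obtain ⟨N1, hN1⟩ := eventually_atTop.1 (h2.eventually_ge_atTop (2 * ((y : ℝ) + 1)))
    exact ⟨N1, hN1⟩
  -- the good numbers
  have hgood : ∀ n : ℕ, (n : ZMod (Wp y)) = 2 → N1 ≤ n → (∀ t ∈ S0 y ×ˢ S0 y, n ∉ Bd t) →
      n ∉ Bh → n ∈ G := by
    intro n hn hnN hnB hnH
    have heven : Even n := by
      have h1 : ((n : ℕ) : ZMod (Wp y)) = ((2 : ℕ) : ZMod (Wp y)) := by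
        rw [hn]; norm_num
      rw [ZMod.natCast_eq_natCast_iff] at h1
      have h2 : n ≡ 2 [MOD 2] := h1.of_dvd hW2
      rw [Nat.even_iff]
      exact h2
    refine ⟨heven, ?_⟩
    set X : ℝ := (n : ℝ) / Real.log n ^ 2 with hX
    have hX0 : 0 ≤ X := by positivity
    have hHL := HL_ge n
    rw [← hX] at hHL
    have hHL0 : 0 ≤ HL n := hX0.trans hHL
    have hR : (rep Set.univ n : ℝ) ≤ (1 + τ / 3) * HL n := by
      have h1 : |(rep Set.univ n : ℝ) - HL n| ≤ τ / 3 * HL n := by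
        by_contra h
        exact hnH ⟨heven, h⟩
      have h2 := (abs_le.1 h1).2
      linarith
    have h1 := rep_le y hy T C hC n hn
    have h2 : (rep A n : ℝ) ≤ ∑ a ∈ U, (rcl y a n : ℝ) + 2 * ((y : ℝ) + 1) := by exact_mod_cast h1
    have hSR : ∑ b ∈ S0 y, (rcl y b n : ℝ) ≤ (rep Set.univ n : ℝ) := by
      exact_mod_cast sum_rcl y n (S0 y)
    have hf : ∀ a ∈ U, ∀ b ∈ S0 y, (rcl y a n : ℝ) ≤ rcl y b n + ε * X := by
      intro a ha b hb
      have ha' : a ∈ S0 y := (Finset.mem_sdiff.1 ha).1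
      have h3 : ¬ ε * X < |(rcl y a n : ℝ) - rcl y b n| := by
        intro h
        exact hnB (a, b) (mem_product.2 ⟨ha', hb⟩) ⟨hn, h⟩
      push Not at h3
      have := (abs_le.1 h3).2
      linarith
    have h3 := average U (S0 y) (fun a => (rcl y a n : ℝ)) (ε * X) _ (S0_pos y) hf hSR
    have hs : (0 : ℝ) < (S0 y).card := by exact_mod_cast S0_pos y
    have h4 : (U.card : ℝ) / (S0 y).card ≤ κ - τ := by
      rw [div_le_iff₀ hs]; exact hU
    have h5 : (U.card : ℝ) / (S0 y).card * (rep Set.univ n : ℝ) ≤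
        (κ - τ) * ((1 + τ / 3) * HL n) :=
      mul_le_mul h4 hR (Nat.cast_nonneg _) (by linarith)
    have h6 : (U.card : ℝ) * (ε * X) ≤ τ / 3 * X := by
      have h7 : (U.card : ℝ) * ε ≤ τ / 3 := by
        rw [hε, mul_div_assoc', div_le_div_iff₀ (by positivity) (by norm_num)]
        nlinarith [Nat.cast_nonneg (α := ℝ) U.card]
      calc (U.card : ℝ) * (ε * X) = (U.card : ℝ) * ε * X := by ring
        _ ≤ _ := mul_le_mul_of_nonneg_right h7 hX0
    have h7 := hN1 n hnN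
    rw [← hX] at h7
    have h8 : (κ - τ) * ((1 + τ / 3) * HL n) ≤ (κ - τ) * HL n + τ / 3 * HL n := by
      have : (κ - τ) * (τ / 3 * HL n) ≤ 1 * (τ / 3 * HL n) :=
        mul_le_mul_of_nonneg_right (by linarith) (by positivity)
      nlinarith
    have h9 : τ / 3 * X ≤ τ / 3 * HL n := mul_le_mul_of_nonneg_left hHL (by positivity)
    calc (rep A n : ℝ) ≤ (κ - τ) * HL n + τ / 3 * HL n + τ / 3 * HL n + τ / 3 * HL n := by linarith
      _ = κ * HL n := by ring
  -- counting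
  have hcount : ∀ N : ℕ, (((Icc 1 N).filter (fun n : ℕ => (n : ZMod (Wp y)) = 2)).card : ℝ) ≤
      (cnt G N : ℝ) + (N1 + (∑ t ∈ S0 y ×ˢ S0 y, (cnt (Bd t) N : ℝ) + (cnt Bh N : ℝ))) := by
    intro N
    have h1 := card_le_cnt G N ((Icc 1 N).filter (fun n : ℕ => (n : ZMod (Wp y)) = 2))
      (range N1 ∪ ((S0 y ×ˢ S0 y).biUnion (fun t => cntS (Bd t) N) ∪ cntS Bh N))
      (filter_subset _ _) (by
        intro n hn
        rw [mem_filter, mem_Icc] at hn
        rw [mem_union, mem_union, mem_biUnion, mem_range, mem_cntS]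
        by_contra hcon
        push Not at hcon
        obtain ⟨h1, h2, h3, h4⟩ := hcon
        apply h1
        apply hgood n hn.2 h2
        · intro t ht hnt
          apply h3 t ht
          rw [mem_cntS]
          exact ⟨hn.1, hnt⟩
        · exact h4 hn.1)
    have h2 : (range N1 ∪ ((S0 y ×ˢ S0 y).biUnion (fun t => cntS (Bd t) N) ∪ cntS Bh N)).card ≤
        N1 + (∑ t ∈ S0 y ×ˢ S0 y, cnt (Bd t) N + cnt Bh N) := by
      refine (card_union_le _ _).trans ?_
      rw [card_range]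
      apply Nat.add_le_add_left
      refine (card_union_le _ _).trans ?_
      exact Nat.add_le_add card_biUnion_le le_rfl
    exact_mod_cast h1.trans (Nat.add_le_add_left h2 _)
  -- the error terms
  have herr : Tendsto (fun N : ℕ => ((N1 : ℝ) + (∑ t ∈ S0 y ×ˢ S0 y, (cnt (Bd t) N : ℝ) +
      (cnt Bh N : ℝ))) / N) atTop (𝓝 0) := by
    have h1 : Tendsto (fun N : ℕ => (N1 : ℝ) / N) atTop (𝓝 0) :=
      tendsto_const_div_atTop_nhds_zero_nat _
    have h2 : Tendsto (fun N : ℕ => ∑ t ∈ S0 y ×ˢ S0 y, (cnt (Bd t) N : ℝ) / N) atTop (𝓝 0) := by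
      have : (0 : ℝ) = ∑ t ∈ S0 y ×ˢ S0 y, (0 : ℝ) := by simp
      rw [this]
      apply tendsto_finsetSum
      intro t ht
      rw [mem_product, mem_S0, mem_S0] at ht
      exact hEq y 2 t.1 t.2 ht.1.1 ht.2.1 ht.1.2 ht.2.2 ε hε0
    have h3 := hl_almost (τ / 3) (by positivity)
    have h4 := h1.add (h2.add h3)
    rw [add_zero, add_zero] at h4
    refine h4.congr fun N => ?_
    rw [add_div, add_div, sum_div]
  have key : ∀ ε : ℝ, 0 < ε → 1 / (Wp y : ℝ) - ε ≤ lowerDensity G := by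
    intro ε hε
    apply le_of_eventually
    have hlin : ∀ᶠ N : ℕ in atTop, 1 ≤ ε / 2 * (N : ℝ) :=
      (tendsto_natCast_atTop_atTop.const_mul_atTop (by positivity)).eventually_ge_atTop _
    filter_upwards [herr.eventually (gt_mem_nhds (show 0 < ε / 2 by positivity)), hlin,
      eventually_ge_atTop 1] with N h1 h2 h3
    have hN : (0 : ℝ) < N := by exact_mod_cast h3
    rw [div_lt_iff₀ hN] at h1
    have h4 := hcount N
    have h5 := class_two (Wp y) N hW
    have h9 : (1 / (Wp y : ℝ) - ε) * N = (N : ℝ) / Wp y - ε * N := by ring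
    rw [h9]
    linarith
  apply le_of_forall_pos_le_add
  intro ε hε
  linarith [key ε hε]

theorem example_kappa (hPC : StPC) (hEq : StEq) (κ δ : ℝ) (hκ0 : 0 ≤ κ) (hκ1 : κ < 1) (hδ : 0 < δ) :
    ∃ η0 : ℝ, 0 < η0 ∧ ∀ η : ℝ, 0 < η → η ≤ η0 → ∃ A : Set ℕ, 1 - η ≤ relLower A ∧
      Real.exp (-Real.exp (((1 - κ) * (C2 * Real.exp (-Real.eulerMascheroniConstant)) + δ) / η)) ≤
        lowerDensity {n | Even n ∧ (rep A n : ℝ) ≤ κ * Pool.Agent.H560R3.GB.HL n} := by
  classical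
  rcases hκ0.eq_or_lt with h0 | hκ
  · subst h0
    obtain ⟨η0, hη0, h⟩ := example_zero hPC δ hδ
    refine ⟨η0, hη0, fun η hη hηle => ?_⟩
    obtain ⟨A, hA1, hA2⟩ := h η hη hηle
    refine ⟨A, hA1, ?_⟩
    rw [sub_zero, one_mul]
    refine hA2.trans (lowerDensity_mono ?_)
    rintro n ⟨h1, h2⟩
    refine ⟨h1, ?_⟩
    rw [h2, zero_mul, Nat.cast_zero]
  set D := C2 * Real.exp (-Real.eulerMascheroniConstant) with hD
  have hD0 : 0 < D := D_pos
  -- the parameter `τ`
  set τ : ℝ := min (κ / 2) (δ / (2 * D)) with hτ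
  have hτ0 : 0 < τ := by positivity
  have hτκ : τ ≤ κ := (min_le_left _ _).trans (by linarith)
  have hτD : τ * D ≤ δ / 2 := by
    have h1 : τ ≤ δ / (2 * D) := min_le_right _ _
    rw [le_div_iff₀ (by positivity)] at h1
    linarith
  set θ : ℝ := 1 - κ + τ with hθ
  have hθ0 : 0 ≤ θ := by rw [hθ]; linarith
  have hθ1 : θ ≤ 1 := by rw [hθ]; linarith
  obtain ⟨η0, hη0, h0⟩ := choice_gen (FF θ) (FF_pos θ hθ0) (θ * D) (FF_log θ) (δ / 2) (by positivity)
  refine ⟨η0, hη0, fun η hη hηle => ?_⟩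
  obtain ⟨y, hy2, hyD, hyL⟩ := h0 η hη hηle
  have hφ := totient_Wp_pos y
  obtain ⟨T, hTS, hTi, hT1, hT2⟩ := exists_T (S0 y) (fun a => 2 - a) (fun a => sub_sub_cancel _ _)
    (by
      intro a ha
      rw [mem_S0] at ha ⊢
      refine ⟨ha.2, ?_⟩
      rw [sub_sub_cancel]
      exact ha.1) (θ * (S0 y).card) (by positivity) (by
      have : (0 : ℝ) ≤ (S0 y).card := Nat.cast_nonneg _
      nlinarith)
  obtain ⟨C, hCT, hC1, hC2⟩ := exists_C (Wp y) T hTi
  refine ⟨{p : ℕ | (p : ZMod (Wp y)) ∉ C}, ?_, ?_⟩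
  · have h1 := relLower_ge hPC y C (fun a ha => (mem_S0.1 (hTS (hCT ha))).1)
    have h2 : (C.card : ℝ) / Nat.totient (Wp y) ≤ FF θ y := by
      have h3 : 2 * (C.card : ℝ) ≤ T.card + 2 := by exact_mod_cast hC2
      have h4 := S0_card y hy2
      rw [h4] at hT2
      unfold FF
      rw [div_le_iff₀ hφ]
      have h5 : (θ * (om y / 2) + 2 / (Nat.totient (Wp y) : ℝ)) * Nat.totient (Wp y) =
          θ * (om y * Nat.totient (Wp y)) / 2 + 2 := by
        field_simp
      rw [h5]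
      linarith
    linarith
  · have h1 := dens_kappa hPC hEq κ τ hτ0 hτκ hκ1 y hy2 T C hC1 (by
      rw [card_sdiff_of_subset hTS, Nat.cast_sub (card_le_card hTS)]
      have : (κ - τ) * ((S0 y).card : ℝ) = (S0 y).card - θ * (S0 y).card := by rw [hθ]; ring
      rw [this]
      linarith)
    refine le_trans ?_ h1
    have hW2 : 2 ≤ Wp y := Nat.le_of_dvd (Wp_pos y) ((prime_dvd_Wp Nat.prime_two).2 (by omega))
    have hW2R : (2 : ℝ) ≤ Wp y := by exact_mod_cast hW2
    have hlogW : 0 < Real.log (Wp y) := Real.log_pos (by linarith)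
    have h2 : Real.log (Real.log (Wp y)) ≤ ((1 - κ) * D + δ) / η := by
      rw [le_div_iff₀ hη]
      have : θ * D = (1 - κ) * D + τ * D := by rw [hθ]; ring
      linarith
    have h3 : Real.log (Wp y) ≤ Real.exp (((1 - κ) * D + δ) / η) := by
      rw [← Real.log_le_iff_le_exp hlogW]
      exact h2
    rw [Real.exp_neg, one_div]
    apply inv_anti₀ (by linarith)
    rw [← Real.log_le_iff_le_exp (by linarith)]
    exact h3

end Pool.Agent.TH986.J1816
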