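import Mathlib
import Pool.Agent.TH202.Dat
import Pool.Agent.W497.Mld.Jac

/-!
# Lower bound for the log discrepancies (job GKLT of MP_c8c12f_ag)
-/

set_option autoImplicit false

namespace Pool.Agent.TH986.C8_GKLT

open Pool.Agent.H436R3.Fol Pool.Agent.TH202 MvPolynomial

variable {K : Type} [Field K] [Algebra ℂ K]

/-- An element of positive order plus an element of order zero has order zero. -/
theorem ord_add_eq (v : DVal K) {f g : K} (hf : f ≠ 0) (hg : g ≠ 0) (hlt : v.ord f < v.ord g) :
    f + g ≠ 0 ∧ v.ord (f + g) = v.ord f := by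
  have hne : f + g ≠ 0 := by
    intro h
    have h1 : g = -f := by linear_combination h
    rw [h1, v.ord_neg hf] at hlt
    exact lt_irrefl _ hlt
  refine ⟨hne, le_antisymm ?_ ?_⟩
  · by_contra hc
    push Not at hc
    have h1 : (f + g) + (-g) ≠ 0 := by rw [add_neg_cancel_right]; exact hf
    have h2 := v.map_add (f + g) (-g) hne (neg_ne_zero.2 hg) h1
    rw [add_neg_cancel_right, v.ord_neg hg] at h2
    have h3 := min_le_iff.1 h2
    rcases h3 with h3 | h3 <;> omega
  · have h2 := v.map_add f g hf hg hne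
    rw [min_eq_left hlt.le] at h2
    exact h2

theorem two_props (v : DVal K) : (2 : K) ≠ 0 ∧ v.ord (2 : K) = 0 := by
  have e : algebraMap ℂ K 2 = 2 := map_ofNat _ 2
  constructor
  · rw [← e, Ne, map_eq_zero_iff _ (algebraMap ℂ K).injective]
    norm_num
  · rw [← e]
    exact v.const 2 (by norm_num)

/-- The analysis in the direction of one elliptic curve. -/
theorem loc (v : DVal K) {x : K} (hx : x ≠ 0) (h1 : 1 - x ≠ 0) (h2 : 1 + x ≠ 0) :
    ∃ (h : K) (s : ℂ), h ≠ 0 ∧ s ^ 2 = 1 ∧
      (∀ D : Derivation ℂ K K, D h = algebraMap ℂ K s * D x) ∧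
      ((0 < (v.ord h : ℝ) - 2 / 3 * (v.ord ((1 - x ^ 2) / x ^ 2) : ℝ) - 2 * (v.ord x : ℝ)) ∨
        ((v.ord h : ℝ) - 2 / 3 * (v.ord ((1 - x ^ 2) / x ^ 2) : ℝ) - 2 * (v.ord x : ℝ) = 0 ∧
          v.ord x = 0 ∧ v.ord h = 0)) := by
  have hfac : (1 - x ^ 2 : K) = (1 - x) * (1 + x) := by ring
  have hm : v.ord (1 - x ^ 2) = v.ord (1 - x) + v.ord (1 + x) := by
    rw [hfac, v.map_mul _ _ h1 h2]
  have hne : (1 - x ^ 2 : K) ≠ 0 := by rw [hfac]; exact mul_ne_zero h1 h2
  have hd : v.ord ((1 - x ^ 2) / x ^ 2) = v.ord (1 - x) + v.ord (1 + x) - 2 * v.ord x := by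
    rw [v.ord_div hne (pow_ne_zero _ hx), hm, v.ord_pow hx]
    push_cast
    ring
  have hDx : ∀ D : Derivation ℂ K K, D x = algebraMap ℂ K 1 * D x := by
    intro D; rw [map_one, one_mul]
  have hDp : ∀ D : Derivation ℂ K K, D (1 + x) = algebraMap ℂ K 1 * D x := by
    intro D; rw [map_add, D.map_one_eq_zero, zero_add, map_one, one_mul]
  have hDm : ∀ D : Derivation ℂ K K, D (1 - x) = algebraMap ℂ K (-1) * D x := by
    intro D; rw [map_sub, D.map_one_eq_zero, zero_sub, map_neg, map_one, neg_one_mul]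
  rcases lt_trichotomy (v.ord x) 0 with hlt | heq | hgt
  · -- pole
    have a1 : v.ord (1 - x) = v.ord x := by
      have := (ord_add_eq v (f := -x) (g := 1) (neg_ne_zero.2 hx) one_ne_zero
        (by rw [v.ord_neg hx, v.ord_one]; exact hlt)).2
      rw [v.ord_neg hx] at this
      rw [← this]; congr 1; ring
    have a2 : v.ord (1 + x) = v.ord x := by
      have := (ord_add_eq v (f := x) (g := 1) hx one_ne_zero
        (by rw [v.ord_one]; exact hlt)).2
      rw [← this]; congr 1; ring
    refine ⟨x, 1, hx, by norm_num, hDx, Or.inl ?_⟩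
    rw [hd, a1, a2]
    push_cast
    have : (v.ord x : ℝ) < 0 := by exact_mod_cast hlt
    linarith
  · by_cases c1 : 0 < v.ord (1 - x)
    · -- near one
      have a2 : v.ord (1 + x) = 0 := by
        obtain ⟨h20, h22⟩ := two_props v
        have := (ord_add_eq v (f := 2) (g := -(1 - x)) h20 (neg_ne_zero.2 h1)
          (by rw [v.ord_neg h1, h22]; exact c1)).2
        rw [h22] at this
        rw [← this]; congr 1; ring
      refine ⟨1 - x, -1, h1, by norm_num, hDm, Or.inl ?_⟩
      rw [hd, a2, heq]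
      push_cast
      have : (0 : ℝ) < (v.ord (1 - x) : ℝ) := by exact_mod_cast c1
      linarith
    · by_cases c2 : 0 < v.ord (1 + x)
      · have a1 : v.ord (1 - x) = 0 := by
          obtain ⟨h20, h22⟩ := two_props v
          have := (ord_add_eq v (f := 2) (g := -(1 + x)) h20 (neg_ne_zero.2 h2)
            (by rw [v.ord_neg h2, h22]; exact c2)).2
          rw [h22] at this
          rw [← this]; congr 1; ring
        refine ⟨1 + x, 1, h2, by norm_num, hDp, Or.inl ?_⟩
        rw [hd, a1, heq]
        push_cast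
        have : (0 : ℝ) < (v.ord (1 + x) : ℝ) := by exact_mod_cast c2
        linarith
      · have b1 : v.ord (1 - x) = 0 := by
          have := v.map_add 1 (-x) one_ne_zero (neg_ne_zero.2 hx)
            (by rw [← sub_eq_add_neg]; exact h1)
          rw [v.ord_one, v.ord_neg hx, heq, ← sub_eq_add_neg] at this
          simp at this
          omega
        have b2 : v.ord (1 + x) = 0 := by
          have := v.map_add 1 x one_ne_zero hx h2
          rw [v.ord_one, heq] at this
          simp at this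
          omega
        refine ⟨x, 1, hx, by norm_num, hDx, Or.inr ⟨?_, heq, heq⟩⟩
        rw [hd, b1, b2, heq]
        push_cast
        ring
  · have a1 : v.ord (1 - x) = 0 := by
      have := (ord_add_eq v (f := 1) (g := -x) one_ne_zero (neg_ne_zero.2 hx)
        (by rw [v.ord_neg hx, v.ord_one]; exact hgt)).2
      rw [v.ord_one] at this
      rw [← this]; congr 1; ring
    have a2 : v.ord (1 + x) = 0 := by
      have := (ord_add_eq v (f := 1) (g := x) one_ne_zero hx
        (by rw [v.ord_one]; exact hgt)).2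
      rw [v.ord_one] at this
      exact this
    refine ⟨x, 1, hx, by norm_num, hDx, Or.inl ?_⟩
    rw [hd, a1, a2]
    push_cast
    have : (0 : ℝ) < (v.ord x : ℝ) := by exact_mod_cast hgt
    linarith

/-- A transcendental element differs from all constants. -/
theorem ne_const {x : K} (hx : Transcendental ℂ x) : x ≠ 0 ∧ 1 - x ≠ 0 ∧ 1 + x ≠ 0 := by
  refine ⟨?_, ?_, ?_⟩
  · intro h
    exact hx (by rw [h]; exact isAlgebraic_zero)
  · intro h
    have h1 : x = 1 := by linear_combination -h
    exact hx (by rw [h1]; exact isAlgebraic_one)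
  · intro h
    have h1 : x = -1 := by linear_combination h
    exact hx (by rw [h1]; exact isAlgebraic_one.neg)

/-- The lower bound for the log discrepancies. -/
theorem gklt_bound {K : Type} [Field K] [Algebra ℂ K] (d : Dat K) (T : Foliation K 3)
    (hT : IsPd d T) (ε : ℝ) (hε : 0 ≤ ε) (hε' : ε < 1 / 3) (v : DVal K) (n : ℤ)
    (hn : IsCanOrd T v n) :
    0 < 1 + (n : ℝ) - 2 / 3 * (v.ord ((1 - d.a ^ 2) / d.a ^ 2) : ℝ)
      - 2 / 3 * (v.ord ((1 - d.b ^ 2) / d.b ^ 2) : ℝ) - 2 * (v.ord d.a : ℝ) - 2 * (v.ord d.b : ℝ)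
      + 2 * ng (v.ord d.c) - (2 / 3 + ε) * ps (v.ord d.c) := by
  have ta : Transcendental ℂ d.a := d.ind.transcendental 0
  have tb : Transcendental ℂ d.b := d.ind.transcendental 1
  have tc : Transcendental ℂ d.c := d.ind.transcendental 2
  obtain ⟨a0, a1, a2⟩ := ne_const ta
  obtain ⟨b0, b1, b2⟩ := ne_const tb
  obtain ⟨c0, -, -⟩ := ne_const tc
  obtain ⟨f, s, hf0, hs, hDf, hf⟩ := loc v a0 a1 a2
  obtain ⟨g, t, hg0, ht, hDg, hg⟩ := loc v b0 b1 b2
  have hs0 : s ≠ 0 := by rintro rfl; norm_num at hs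
  have ht0 : t ≠ 0 := by rintro rfl; norm_num at ht
  have hTa : ∀ i, T.D i d.a = if i = 0 then 1 else 0 := fun i => hT i 0
  have hTb : ∀ i, T.D i d.b = if i = 1 then 1 else 0 := fun i => hT i 1
  have hTc : ∀ i, T.D i d.c = if i = 2 then 1 else 0 := fun i => hT i 2
  have hdet : (Matrix.of fun (j k : Fin 3) => T.D j (![f, g, d.c] k)).det =
      algebraMap ℂ K (s * t) := by
    rw [Matrix.det_fin_three]
    simp [hDf, hDg, hTa, hTb, hTc]
  have hst : s * t ≠ 0 := mul_ne_zero hs0 ht0
  have hJ : (Matrix.of fun (j k : Fin 3) => T.D j (![f, g, d.c] k)).det ≠ 0 := by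
    rw [hdet, Ne, map_eq_zero_iff _ (algebraMap ℂ K).injective]
    exact hst
  have hord : v.ord (Matrix.of fun (j k : Fin 3) => T.D j (![f, g, d.c] k)).det = 0 := by
    rw [hdet]
    exact v.const _ hst
  have h0 : ∀ k : Fin 3, ![f, g, d.c] k ≠ 0 := by
    intro k
    fin_cases k
    · exact hf0
    · exact hg0
    · exact c0
  have key := Pool.Agent.W497.Mld.can_ge v hn (Equiv.refl _) T.D (fun _ => rfl) ![f, g, d.c] h0 hJ
  rw [hord, Fin.sum_univ_three] at key
  simp only [Matrix.cons_val_zero, Matrix.cons_val_one, Matrix.cons_val] at key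
  have key' : (v.ord f : ℝ) + v.ord g + v.ord d.c - 1 ≤ n := by
    have : v.ord f + v.ord g + v.ord d.c - 1 ≤ n := by omega
    exact_mod_cast this
  have hc : (0 < (v.ord d.c : ℝ) + 2 * ng (v.ord d.c) - (2 / 3 + ε) * ps (v.ord d.c)) ∨
      (v.ord d.c = 0) := by
    rcases lt_trichotomy (v.ord d.c) 0 with h | h | h
    · left
      have h' : (v.ord d.c : ℝ) < 0 := by exact_mod_cast h
      have e1 : ng (v.ord d.c) = -(v.ord d.c : ℝ) := by
        unfold ng; rw [max_eq_right]; linarith
      have e2 : ps (v.ord d.c) = 0 := by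
        unfold ps; rw [max_eq_left]; linarith
      rw [e1, e2]; linarith
    · exact Or.inr h
    · left
      have h' : (0 : ℝ) < (v.ord d.c : ℝ) := by exact_mod_cast h
      have e1 : ng (v.ord d.c) = 0 := by
        unfold ng; rw [max_eq_left]; linarith
      have e2 : ps (v.ord d.c) = (v.ord d.c : ℝ) := by
        unfold ps; rw [max_eq_right]; linarith
      rw [e1, e2]
      nlinarith
  have hc0 : v.ord d.c = 0 → (v.ord d.c : ℝ) + 2 * ng (v.ord d.c) -
      (2 / 3 + ε) * ps (v.ord d.c) = 0 := by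
    intro h
    rw [h]
    simp [ng, ps]
  rcases hf with hf | ⟨hf, hfa, hfh⟩
  · rcases hg with hg | ⟨hg, hgb, hgh⟩ <;> rcases hc with hc | hc
    · linarith
    · have := hc0 hc; linarith
    · linarith
    · have := hc0 hc; linarith
  · rcases hg with hg | ⟨hg, hgb, hgh⟩
    · rcases hc with hc | hc
      · linarith
      · have := hc0 hc; linarith
    · rcases hc with hc | hc
      · linarith
      · have e3 := hc0 hc
        have key2 := Pool.Agent.W497.Mld.can_ge_zero v hn (Equiv.refl _) T.D (fun _ => rfl)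
          ![f, g, d.c] h0 hJ (by
            intro k
            fin_cases k
            · exact hfh
            · exact hgh
            · exact hc)
        rw [hord, add_zero] at key2
        have key3 : (0 : ℝ) ≤ n := by exact_mod_cast key2
        rw [hfh] at hf
        rw [hgh] at hg
        rw [hc] at e3 ⊢
        push_cast at *
        linarith

end Pool.Agent.TH986.C8_GKLT
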