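import Pool.Agent.TH280.LS.Stm

set_option autoImplicit false

/-!
# `S_SUM` from `S_LS4` (project LS of helper280, MP_ee74d2_an): symbols of negative order
-/

open MeasureTheory Set Filter Topology
open scoped ENNReal

namespace Pool.Agent.TH986.SUM

open Pool.Agent.TH280.LS

/-! ### Operators with integrable symbols -/

lemma continuous_ra (a : ℝ) : Continuous (ra a) := by
  unfold ra
  fun_prop

lemma ra_nonneg (a ξ : ℝ) : 0 ≤ ra a ξ := Real.sqrt_nonneg _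

lemma abs_le_ra (a ξ : ℝ) : |ξ| ≤ ra a ξ := by
  unfold ra
  apply Real.le_sqrt_of_sq_le
  rw [sq_abs]
  nlinarith [sq_nonneg a]

lemma ra_lip (a ξ ξ' : ℝ) : |ra a ξ - ra a ξ'| ≤ |ξ - ξ'| := by
  have key : ∀ u v : ℝ, ra a u ≤ ra a v + |u - v| := by
    intro u v
    have h0 := ra_nonneg a v
    have h1 := abs_le_ra a v
    have h2 : ra a v ^ 2 = v ^ 2 + a ^ 2 := by
      unfold ra
      rw [Real.sq_sqrt (by positivity)]
    unfold ra
    unfold ra at h0 h1 h2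
    rw [Real.sqrt_le_left (by positivity)]
    have h3 : u ^ 2 ≤ (|v| + |u - v|) ^ 2 := by
      rw [← sq_abs u]
      apply pow_le_pow_left₀ (abs_nonneg _)
      have := abs_add_le v (u - v)
      rwa [add_sub_cancel] at this
    have h4 : |v| * |u - v| ≤ √(v ^ 2 + a ^ 2) * |u - v| :=
      mul_le_mul_of_nonneg_right h1 (abs_nonneg _)
    have h5 : |v| ^ 2 = v ^ 2 := sq_abs v
    nlinarith
  rw [abs_le]
  constructor
  · have := key ξ' ξ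
    rw [abs_sub_comm] at this
    linarith
  · have := key ξ ξ'
    linarith

lemma vx_norm (a : ℝ) (χ G : ℝ → ℂ) (t x ξ : ℝ) :
    ‖e (x * ξ) * (e (t * ra a ξ) * (χ ξ * ft G ξ))‖ ≤ ‖χ ξ‖ * ∫ x, ‖G x‖ := by
  rw [norm_mul, norm_mul, norm_mul, norm_e, norm_e, one_mul, one_mul]
  exact mul_le_mul_of_nonneg_left (norm_ft_le G ξ) (norm_nonneg _)

lemma vx_meas (a : ℝ) (χ G : ℝ → ℂ) (hχ : Integrable χ) (hG : Integrable G) (t x : ℝ) :
    AEStronglyMeasurable (fun ξ => e (x * ξ) * (e (t * ra a ξ) * (χ ξ * ft G ξ))) volume := by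
  have h1 : Continuous (fun ξ : ℝ => e (x * ξ)) := continuous_e.comp (by fun_prop)
  have h2 : Continuous (fun ξ : ℝ => e (t * ra a ξ)) :=
    continuous_e.comp (continuous_const.mul (continuous_ra a))
  exact h1.aestronglyMeasurable.mul
    (h2.aestronglyMeasurable.mul (hχ.1.mul (continuous_ft hG).aestronglyMeasurable))

lemma vx_int (a : ℝ) (χ G : ℝ → ℂ) (hχ : Integrable χ) (hG : Integrable G) (t x : ℝ) :
    Integrable (fun ξ => e (x * ξ) * (e (t * ra a ξ) * (χ ξ * ft G ξ))) :=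
  (hχ.norm.mul_const (∫ x, ‖G x‖)).mono' (vx_meas a χ G hχ hG t x)
    (Eventually.of_forall fun ξ => vx_norm a χ G t x ξ)

lemma cont_vx (a : ℝ) (χ G : ℝ → ℂ) (hχ : Integrable χ) (hG : Integrable G) :
    Continuous (fun z : ℝ × ℝ => Vx a χ G z.1 z.2) := by
  unfold Vx
  refine continuous_of_dominated (bound := fun ξ => ‖χ ξ‖ * ∫ x, ‖G x‖) ?_ ?_ ?_ ?_
  · intro z
    exact vx_meas a χ G hχ hG z.1 z.2
  · intro z
    exact Eventually.of_forall fun ξ => vx_norm a χ G z.1 z.2 ξ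
  · exact hχ.norm.mul_const _
  · refine Eventually.of_forall fun ξ => ?_
    have h1 : Continuous (fun z : ℝ × ℝ => e (z.2 * ξ)) := continuous_e.comp (by fun_prop)
    have h2 : Continuous (fun z : ℝ × ℝ => e (z.1 * ra a ξ)) := continuous_e.comp (by fun_prop)
    exact h1.mul (h2.mul continuous_const)

lemma vx_const (a : ℝ) (χ G : ℝ → ℂ) (b : ℂ) (t x : ℝ) :
    Vx a (fun ξ => b * χ ξ) G t x = b * Vx a χ G t x := by
  unfold Vx
  rw [← integral_const_mul]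
  refine integral_congr_ae (Eventually.of_forall fun ξ => ?_)
  ring

lemma vx_sum (a : ℝ) (χ : ℕ → ℝ → ℂ) (G : ℝ → ℂ) (n : ℕ) (hχ : ∀ j, Integrable (χ j))
    (hG : Integrable G) (t x : ℝ) :
    Vx a (fun ξ => ∑ j ∈ Finset.range n, χ j ξ) G t x = ∑ j ∈ Finset.range n, Vx a (χ j) G t x := by
  unfold Vx
  rw [← integral_finsetSum _ (fun j _ => vx_int a (χ j) G (hχ j) hG t x)]
  refine integral_congr_ae (Eventually.of_forall fun ξ => ?_)
  simp only [Finset.sum_mul, Finset.mul_sum]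

/-! ### The measure -/

/-- the measure on `[-2,2] × ℝ` -/
noncomputable def mu : Measure (ℝ × ℝ) :=
  ((volume : Measure ℝ).restrict (Icc (-2 : ℝ) 2)).prod volume

lemma I4_eq (a : ℝ) (χ G : ℝ → ℂ) (hχ : Integrable χ) (hG : Integrable G) :
    ∫⁻ t in Icc (-2 : ℝ) 2, ∫⁻ x : ℝ, ‖Vx a χ G t x‖ₑ ^ 4 =
      ∫⁻ z : ℝ × ℝ, ‖Vx a χ G z.1 z.2‖ₑ ^ 4 ∂mu := by
  have h1 : Measurable (fun z : ℝ × ℝ => ‖Vx a χ G z.1 z.2‖ₑ ^ 4) :=
    ((cont_vx a χ G hχ hG).measurable.enorm).pow_const 4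
  unfold mu
  rw [lintegral_prod _ h1.aemeasurable]

/-! ### The cutoffs -/

/-- `1` for `r ≤ 2^j`, `0` for `r ≥ 2^(j+1)` -/
noncomputable def P (j : ℕ) (r : ℝ) : ℝ := max 0 (min 1 (2 - r / 2 ^ j))

lemma P_nonneg (j : ℕ) (r : ℝ) : 0 ≤ P j r := le_max_left _ _

lemma P_le_one (j : ℕ) (r : ℝ) : P j r ≤ 1 := max_le zero_le_one (min_le_left _ _)

lemma P_one (j : ℕ) (r : ℝ) (h : r ≤ 2 ^ j) : P j r = 1 := by
  unfold P
  have h1 : r / 2 ^ j ≤ 1 := by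
    rw [div_le_one (by positivity)]
    exact h
  rw [min_eq_left (by linarith), max_eq_right zero_le_one]

lemma P_zero (j : ℕ) (r : ℝ) (h : 2 * 2 ^ j ≤ r) : P j r = 0 := by
  unfold P
  have h1 : 2 ≤ r / 2 ^ j := by
    rw [le_div_iff₀ (by positivity)]
    exact h
  rw [min_eq_right (by linarith), max_eq_left (by linarith)]

lemma P_lip (j : ℕ) (r r' : ℝ) (h : r ≤ r') : |P j r - P j r'| ≤ 1 / 2 ^ j * (r' - r) := by
  have h0 : r / 2 ^ j ≤ r' / 2 ^ j := div_le_div_of_nonneg_right h (by positivity)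
  have h1 : 1 / 2 ^ j * (r' - r) = r' / 2 ^ j - r / 2 ^ j := by ring
  rw [h1]
  unfold P
  set u := r / 2 ^ j
  set v := r' / 2 ^ j
  rw [abs_le]
  constructor
  · rcases le_total (1 : ℝ) (2 - u) with h2 | h2 <;> rcases le_total (1 : ℝ) (2 - v) with h3 | h3 <;>
      rcases le_total (0 : ℝ) (2 - u) with h4 | h4 <;>
      rcases le_total (0 : ℝ) (2 - v) with h5 | h5 <;>
      simp only [min_eq_left, min_eq_right, h2, h3, max_eq_left, max_eq_right, h4, h5,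
        zero_le_one] <;> linarith
  · rcases le_total (1 : ℝ) (2 - u) with h2 | h2 <;> rcases le_total (1 : ℝ) (2 - v) with h3 | h3 <;>
      rcases le_total (0 : ℝ) (2 - u) with h4 | h4 <;>
      rcases le_total (0 : ℝ) (2 - v) with h5 | h5 <;>
      simp only [min_eq_left, min_eq_right, h2, h3, max_eq_left, max_eq_right, h4, h5,
        zero_le_one] <;> linarith

lemma continuous_P (j : ℕ) : Continuous (P j) := by
  unfold P
  fun_prop

/-- partial sums of the partition -/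
noncomputable def Pm : ℕ → ℝ → ℝ
  | 0 => fun _ => 0
  | j + 1 => P j

/-- the partition -/
noncomputable def Ps (j : ℕ) (r : ℝ) : ℝ := Pm (j + 1) r - Pm j r

lemma continuous_Pm (j : ℕ) : Continuous (Pm j) := by
  cases j with
  | zero => exact continuous_const
  | succ j => exact continuous_P j

lemma continuous_Ps (j : ℕ) : Continuous (Ps j) := by
  unfold Ps
  exact (continuous_Pm _).sub (continuous_Pm _)

lemma Ps_sum (n : ℕ) (r : ℝ) : ∑ j ∈ Finset.range n, Ps j r = Pm n r := by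
  unfold Ps
  rw [Finset.sum_range_sub (fun j => Pm j r)]
  simp [Pm]

lemma Pm_nonneg (j : ℕ) (r : ℝ) : 0 ≤ Pm j r := by
  cases j with
  | zero => exact le_rfl
  | succ j => exact P_nonneg j r

lemma Pm_le_one (j : ℕ) (r : ℝ) : Pm j r ≤ 1 := by
  cases j with
  | zero => exact zero_le_one
  | succ j => exact P_le_one j r

lemma Ps_abs (j : ℕ) (r : ℝ) : |Ps j r| ≤ 1 := by
  unfold Ps
  rw [abs_le]
  have h1 := Pm_nonneg j r
  have h2 := Pm_le_one j r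
  have h3 := Pm_nonneg (j + 1) r
  have h4 := Pm_le_one (j + 1) r
  constructor <;> linarith

lemma Ps_lip (j : ℕ) (r r' : ℝ) (h : r ≤ r') : |Ps j r - Ps j r'| ≤ 3 / 2 ^ j * (r' - r) := by
  have h0 : 0 ≤ r' - r := by linarith
  cases j with
  | zero =>
    have h1 := P_lip 0 r r' h
    unfold Ps
    show |P 0 r - 0 - (P 0 r' - 0)| ≤ _
    rw [sub_zero, sub_zero]
    refine h1.trans (mul_le_mul_of_nonneg_right ?_ h0)
    norm_num
  | succ j =>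
    have h1 := P_lip (j + 1) r r' h
    have h2 := P_lip j r r' h
    unfold Ps
    show |P (j + 1) r - P j r - (P (j + 1) r' - P j r')| ≤ _
    have h3 : P (j + 1) r - P j r - (P (j + 1) r' - P j r') =
        (P (j + 1) r - P (j + 1) r') - (P j r - P j r') := by ring
    rw [h3]
    refine (abs_sub _ _).trans ?_
    have h4 : 3 / 2 ^ (j + 1) * (r' - r) = 1 / 2 ^ (j + 1) * (r' - r) + 1 / 2 ^ j * (r' - r) := by
      rw [pow_succ]
      field_simp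
      ring
    linarith

lemma Ps_ne (j : ℕ) (r : ℝ) (hr : 0 ≤ r) (h : 2 * (1 + r) < 2 ^ j) : Ps j r = 0 := by
  cases j with
  | zero =>
    exfalso
    rw [pow_zero] at h
    linarith
  | succ j =>
    rw [pow_succ] at h
    unfold Ps
    show P (j + 1) r - P j r = 0
    rw [P_one j r (by linarith), P_one (j + 1) r (by rw [pow_succ]; linarith), sub_self]

lemma Ps_far (j : ℕ) (r : ℝ) (h : 2 * 2 ^ j < r) : Ps j r = 0 := by
  cases j with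
  | zero =>
    unfold Ps
    show P 0 r - 0 = 0
    rw [P_zero 0 r h.le, sub_zero]
  | succ j =>
    unfold Ps
    show P (j + 1) r - P j r = 0
    have h1 : (0 : ℝ) < 2 ^ j := by positivity
    rw [P_zero (j + 1) r h.le, P_zero j r (by rw [pow_succ] at h; linarith), sub_self]

/-! ### The pieces -/

lemma Sy_bound {s : ℝ} (hs : 0 < s) {w : ℝ → ℂ} (hw : Sy s w) (j : ℕ) (r : ℝ) (hr : 0 ≤ r) :
    ‖((Ps j r : ℝ) : ℂ) * w r‖ ≤ 5 * ((2 : ℝ) ^ j / 2) ^ (-s) := by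
  have hK : (0 : ℝ) < 2 ^ j / 2 := by positivity
  have hKs : 0 < ((2 : ℝ) ^ j / 2) ^ (-s) := Real.rpow_pos_of_pos hK _
  rw [norm_mul, Complex.norm_real, Real.norm_eq_abs]
  by_cases h : 2 * (1 + r) < 2 ^ j
  · rw [Ps_ne j r hr h, abs_zero, zero_mul]
    positivity
  · push Not at h
    have h1 := hw.1 r hr
    have h2 : (1 + r) ^ (-s) ≤ ((2 : ℝ) ^ j / 2) ^ (-s) :=
      Real.rpow_le_rpow_of_nonpos hK (by linarith) (by linarith)
    calc |Ps j r| * ‖w r‖ ≤ 1 * ‖w r‖ := mul_le_mul_of_nonneg_right (Ps_abs j r) (norm_nonneg _)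
      _ ≤ 5 * ((2 : ℝ) ^ j / 2) ^ (-s) := by linarith

lemma Sy_lip {s : ℝ} (hs : 0 < s) {w : ℝ → ℂ} (hw : Sy s w) (j : ℕ) (r r' : ℝ) (hr : 0 ≤ r)
    (hrr : r ≤ r') :
    ‖((Ps j r : ℝ) : ℂ) * w r - ((Ps j r' : ℝ) : ℂ) * w r'‖ ≤
      5 * ((2 : ℝ) ^ j / 2) ^ (-s) * (1 / 2 ^ j * (r' - r)) := by
  have hK : (0 : ℝ) < 2 ^ j / 2 := by positivity
  have hKs : 0 < ((2 : ℝ) ^ j / 2) ^ (-s) := Real.rpow_pos_of_pos hK _
  have h0 : 0 ≤ r' - r := by linarith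
  have hr' : 0 ≤ r' := by linarith
  have e1 : ((Ps j r : ℝ) : ℂ) * w r - ((Ps j r' : ℝ) : ℂ) * w r' =
      ((Ps j r - Ps j r' : ℝ) : ℂ) * w r' + ((Ps j r : ℝ) : ℂ) * (w r - w r') := by
    push_cast
    ring
  rw [e1]
  by_cases h : 2 * (1 + r') < 2 ^ j
  · rw [Ps_ne j r' hr' h, Ps_ne j r hr (by linarith)]
    simp only [sub_self, Complex.ofReal_zero, zero_mul, add_zero, norm_zero]
    positivity
  push Not at h
  have h1 := hw.1 r' hr'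
  have h2 : (1 + r') ^ (-s) ≤ ((2 : ℝ) ^ j / 2) ^ (-s) :=
    Real.rpow_le_rpow_of_nonpos hK (by linarith) (by linarith)
  have t1 : ‖((Ps j r - Ps j r' : ℝ) : ℂ) * w r'‖ ≤
      3 / 2 ^ j * (r' - r) * ((2 : ℝ) ^ j / 2) ^ (-s) := by
    rw [norm_mul, Complex.norm_real, Real.norm_eq_abs]
    exact mul_le_mul (Ps_lip j r r' hrr) (h1.trans h2) (norm_nonneg _) (by positivity)
  have t2 : ‖((Ps j r : ℝ) : ℂ) * (w r - w r')‖ ≤
      2 / 2 ^ j * (r' - r) * ((2 : ℝ) ^ j / 2) ^ (-s) := by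
    rw [norm_mul, Complex.norm_real, Real.norm_eq_abs]
    by_cases h3 : 2 * (1 + r) < 2 ^ j
    · rw [Ps_ne j r hr h3, abs_zero, zero_mul]
      positivity
    · push Not at h3
      have h4 := hw.2 r r' hr hrr
      have h5 : (1 + r) ^ (-s - 1) ≤ ((2 : ℝ) ^ j / 2) ^ (-s - 1) :=
        Real.rpow_le_rpow_of_nonpos hK (by linarith) (by linarith)
      have h6 : ((2 : ℝ) ^ j / 2) ^ (-s - 1) = ((2 : ℝ) ^ j / 2) ^ (-s) * (2 / 2 ^ j) := by
        rw [Real.rpow_sub hK, Real.rpow_one, div_eq_mul_inv, inv_div]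
      calc |Ps j r| * ‖w r - w r'‖ ≤ 1 * ‖w r - w r'‖ :=
            mul_le_mul_of_nonneg_right (Ps_abs j r) (norm_nonneg _)
        _ ≤ (1 + r) ^ (-s - 1) * (r' - r) := by rw [one_mul]; exact h4
        _ ≤ ((2 : ℝ) ^ j / 2) ^ (-s - 1) * (r' - r) := mul_le_mul_of_nonneg_right h5 h0
        _ = 2 / 2 ^ j * (r' - r) * ((2 : ℝ) ^ j / 2) ^ (-s) := by rw [h6]; ring
  refine (norm_add_le _ _).trans ?_
  have e2 : 5 * ((2 : ℝ) ^ j / 2) ^ (-s) * (1 / 2 ^ j * (r' - r)) =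
      3 / 2 ^ j * (r' - r) * ((2 : ℝ) ^ j / 2) ^ (-s) +
      2 / 2 ^ j * (r' - r) * ((2 : ℝ) ^ j / 2) ^ (-s) := by ring
  rw [e2]
  exact add_le_add t1 t2

/-- the pieces of the symbol -/
noncomputable def pc (a : ℝ) (w : ℝ → ℂ) (j : ℕ) (ξ : ℝ) : ℂ :=
  ((Ps j (ra a ξ) : ℝ) : ℂ) * w (ra a ξ)

lemma pc_cut {s : ℝ} (hs : 0 < s) {w : ℝ → ℂ} (hw : Sy s w) (a : ℝ) (j : ℕ) :
    Cut 1 (2 ^ j) (fun ξ => (((5 * ((2 : ℝ) ^ j / 2) ^ (-s))⁻¹ : ℝ) : ℂ) * pc a w j ξ) := by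
  have hK : (0 : ℝ) < 2 ^ j / 2 := by positivity
  have hB : 0 < 5 * ((2 : ℝ) ^ j / 2) ^ (-s) := by
    have := Real.rpow_pos_of_pos hK (-s)
    positivity
  set B := 5 * ((2 : ℝ) ^ j / 2) ^ (-s) with hBdef
  refine ⟨?_, ?_, ?_⟩
  · intro ξ
    rw [norm_mul, Complex.norm_real, Real.norm_eq_abs, abs_of_pos (inv_pos.2 hB),
      inv_mul_le_iff₀ hB, mul_one]
    exact Sy_bound hs hw j _ (ra_nonneg a ξ)
  · intro ξ ξ'
    have key : ∀ r r' : ℝ, 0 ≤ r → r ≤ r' →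
        ‖((B⁻¹ : ℝ) : ℂ) * (((Ps j r : ℝ) : ℂ) * w r) -
          ((B⁻¹ : ℝ) : ℂ) * (((Ps j r' : ℝ) : ℂ) * w r')‖ ≤ 1 / 2 ^ j * (r' - r) := by
      intro r r' hr hrr
      rw [← mul_sub, norm_mul, Complex.norm_real, Real.norm_eq_abs, abs_of_pos (inv_pos.2 hB),
        inv_mul_le_iff₀ hB]
      exact Sy_lip hs hw j r r' hr hrr
    have h1 := ra_lip a ξ ξ'
    have h2 : (0 : ℝ) ≤ 1 / 2 ^ j := by positivity
    rcases le_total (ra a ξ) (ra a ξ') with h | h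
    · refine (key _ _ (ra_nonneg a ξ) h).trans (mul_le_mul_of_nonneg_left ?_ h2)
      refine le_trans ?_ h1
      rw [abs_sub_comm]
      exact le_abs_self _
    · rw [norm_sub_rev]
      refine (key _ _ (ra_nonneg a ξ') h).trans (mul_le_mul_of_nonneg_left ?_ h2)
      exact (le_abs_self _).trans h1
  · intro ξ hξ
    show ((B⁻¹ : ℝ) : ℂ) * (((Ps j (ra a ξ) : ℝ) : ℂ) * w (ra a ξ)) = 0
    rw [Ps_far j _ (lt_of_lt_of_le hξ (abs_le_ra a ξ))]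
    simp

lemma pc_int {a : ℝ} {w : ℝ → ℂ} (hi : Integrable (fun ξ => w (ra a ξ))) (j : ℕ) :
    Integrable (pc a w j) := by
  unfold pc
  refine hi.norm.mono' ?_ ?_
  · have h1 : Continuous (fun ξ : ℝ => ((Ps j (ra a ξ) : ℝ) : ℂ)) :=
      Complex.continuous_ofReal.comp ((continuous_Ps j).comp (continuous_ra a))
    exact h1.aestronglyMeasurable.mul hi.1
  · refine Eventually.of_forall fun ξ => ?_
    rw [norm_mul, Complex.norm_real, Real.norm_eq_abs]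
    exact mul_le_of_le_one_left (norm_nonneg _) (Ps_abs j _)

lemma piece {s : ℝ} (hs : 0 < s) {C : ℝ} (hC : 0 < C)
    (hLS : ∀ (N a : ℝ) (χ G : ℝ → ℂ), 1 ≤ N → 0 < a → Cut 1 N χ → Integrable G →
      ∫⁻ t in Icc (-2 : ℝ) 2, ∫⁻ x : ℝ, ‖Vx a χ G t x‖ₑ ^ 4 ≤
        ENNReal.ofReal (C * (1 + Real.log N) ^ 2) * ∫⁻ x : ℝ, ‖G x‖ₑ ^ 4)
    {a : ℝ} (ha : 0 < a) {w G : ℝ → ℂ} (hw : Sy s w)
    (hi : Integrable (fun ξ => w (ra a ξ))) (hG : Integrable G) (j : ℕ) :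
    ∫⁻ z : ℝ × ℝ, ‖Vx a (pc a w j) G z.1 z.2‖ₑ ^ 4 ∂mu ≤
      ENNReal.ofReal ((5 * ((2 : ℝ) ^ j / 2) ^ (-s)) ^ 4 * (C * (1 + j) ^ 2)) *
        ∫⁻ x : ℝ, ‖G x‖ₑ ^ 4 := by
  have hK : (0 : ℝ) < 2 ^ j / 2 := by positivity
  have hB : 0 < 5 * ((2 : ℝ) ^ j / 2) ^ (-s) := by
    have := Real.rpow_pos_of_pos hK (-s)
    positivity
  have hcut := pc_cut hs hw a j
  set B := 5 * ((2 : ℝ) ^ j / 2) ^ (-s) with hBdef
  have h1 := hLS (2 ^ j) a _ G (one_le_pow₀ (by norm_num)) ha hcut hG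
  have hint : Integrable (fun ξ => (((B⁻¹ : ℝ) : ℂ)) * pc a w j ξ) := (pc_int hi j).const_mul _
  rw [I4_eq a _ G hint hG] at h1
  have h2 : ∀ z : ℝ × ℝ, ‖Vx a (pc a w j) G z.1 z.2‖ₑ ^ 4 = ENNReal.ofReal (B ^ 4) *
      ‖Vx a (fun ξ => (((B⁻¹ : ℝ) : ℂ)) * pc a w j ξ) G z.1 z.2‖ₑ ^ 4 := by
    intro z
    rw [vx_const, enorm_mul, mul_pow ‖((B⁻¹ : ℝ) : ℂ)‖ₑ, ← mul_assoc]
    have h3 : ENNReal.ofReal (B ^ 4) * ‖((B⁻¹ : ℝ) : ℂ)‖ₑ ^ 4 = 1 := by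
      rw [← ofReal_norm, Complex.norm_real, Real.norm_eq_abs, abs_of_pos (inv_pos.2 hB),
        ← ENNReal.ofReal_pow (inv_pos.2 hB).le, ← ENNReal.ofReal_mul (by positivity), ← mul_pow,
        mul_inv_cancel₀ hB.ne', one_pow, ENNReal.ofReal_one]
    rw [h3, one_mul]
  simp only [h2]
  rw [lintegral_const_mul' _ _ ENNReal.ofReal_ne_top, ENNReal.ofReal_mul (by positivity), mul_assoc]
  gcongr
  refine h1.trans ?_
  gcongr
  · rw [Real.log_pow]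
    have := Real.log_nonneg (show (1 : ℝ) ≤ 2 by norm_num)
    positivity
  · rw [Real.log_pow]
    have h4 : Real.log 2 ≤ 1 := by
      have := Real.log_two_lt_d9
      linarith
    have h5 : (0 : ℝ) ≤ j := Nat.cast_nonneg j
    nlinarith

/-! ### Summation -/

lemma sum4 (q : ℝ) (hq0 : 0 < q) (hq1 : q < 1) (n : ℕ) (u : ℕ → ℂ) :
    ‖∑ j ∈ Finset.range n, u j‖ₑ ^ 4 ≤
      ∑ j ∈ Finset.range n, ENNReal.ofReal ((1 - q)⁻¹ ^ 3 * (q⁻¹ ^ 3) ^ j) * ‖u j‖ₑ ^ 4 := by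
  have h1q : 0 < 1 - q := by linarith
  have hS : ∑ j ∈ Finset.range n, q ^ j ≤ (1 - q)⁻¹ := by
    rw [← tsum_geometric_of_lt_one hq0.le hq1]
    exact (summable_geometric_of_lt_one hq0.le hq1).sum_le_tsum _ (fun i _ => by positivity)
  have hS0 : 0 ≤ ∑ j ∈ Finset.range n, q ^ j := Finset.sum_nonneg fun i _ => by positivity
  set b : ℕ → ℝ := fun j => ‖u j‖ / q ^ j with hb
  have hb0 : ∀ j, 0 ≤ b j := fun j => by positivity
  have e0 : ∀ j, q ^ j * b j = ‖u j‖ := by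
    intro j
    rw [hb]
    field_simp
  have c1 : (∑ j ∈ Finset.range n, q ^ j * b j) ^ 2 ≤
      (∑ j ∈ Finset.range n, q ^ j) * ∑ j ∈ Finset.range n, q ^ j * b j ^ 2 := by
    have := Finset.sum_sq_le_sum_mul_sum_of_sq_le_mul (Finset.range n) (r := fun j => q ^ j * b j)
      (f := fun j => q ^ j) (g := fun j => q ^ j * b j ^ 2) (fun i _ => by positivity)
      (fun i _ => mul_nonneg (by positivity) (sq_nonneg _)) (fun i _ => le_of_eq (by ring))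
    exact this
  have c2 : (∑ j ∈ Finset.range n, q ^ j * b j ^ 2) ^ 2 ≤
      (∑ j ∈ Finset.range n, q ^ j) * ∑ j ∈ Finset.range n, q ^ j * b j ^ 4 := by
    have := Finset.sum_sq_le_sum_mul_sum_of_sq_le_mul (Finset.range n)
      (r := fun j => q ^ j * b j ^ 2)
      (f := fun j => q ^ j) (g := fun j => q ^ j * b j ^ 4) (fun i _ => by positivity)
      (fun i _ => mul_nonneg (by positivity) (by positivity)) (fun i _ => le_of_eq (by ring))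
    exact this
  have c3 : ‖∑ j ∈ Finset.range n, u j‖ ^ 4 ≤
      ∑ j ∈ Finset.range n, (1 - q)⁻¹ ^ 3 * (q⁻¹ ^ 3) ^ j * ‖u j‖ ^ 4 := by
    have d1 : ‖∑ j ∈ Finset.range n, u j‖ ≤ ∑ j ∈ Finset.range n, q ^ j * b j := by
      refine (norm_sum_le _ _).trans (le_of_eq ?_)
      exact Finset.sum_congr rfl fun j _ => (e0 j).symm
    set X := ∑ j ∈ Finset.range n, q ^ j * b j with hX
    set Y := ∑ j ∈ Finset.range n, q ^ j * b j ^ 2 with hY
    set Z := ∑ j ∈ Finset.range n, q ^ j * b j ^ 4 with hZ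
    set S := ∑ j ∈ Finset.range n, q ^ j with hSd
    have hX0 : 0 ≤ X := Finset.sum_nonneg fun i _ => mul_nonneg (by positivity) (hb0 i)
    have hY0 : 0 ≤ Y := Finset.sum_nonneg fun i _ => mul_nonneg (by positivity) (sq_nonneg _)
    have hZ0 : 0 ≤ Z := Finset.sum_nonneg fun i _ => mul_nonneg (by positivity) (by positivity)
    have d2 : X ^ 4 ≤ (1 - q)⁻¹ ^ 3 * Z := by
      have f1 : X ^ 4 = (X ^ 2) ^ 2 := by ring
      have f2 : (X ^ 2) ^ 2 ≤ (S * Y) ^ 2 := pow_le_pow_left₀ (by positivity) c1 2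
      have f3 : (S * Y) ^ 2 = S ^ 2 * Y ^ 2 := by ring
      have f4 : S ^ 2 * Y ^ 2 ≤ S ^ 2 * (S * Z) := mul_le_mul_of_nonneg_left c2 (by positivity)
      have f5 : S ^ 2 * (S * Z) = S ^ 3 * Z := by ring
      have f6 : S ^ 3 * Z ≤ (1 - q)⁻¹ ^ 3 * Z :=
        mul_le_mul_of_nonneg_right (pow_le_pow_left₀ hS0 hS 3) hZ0
      linarith
    calc ‖∑ j ∈ Finset.range n, u j‖ ^ 4 ≤ X ^ 4 := pow_le_pow_left₀ (norm_nonneg _) d1 4
      _ ≤ (1 - q)⁻¹ ^ 3 * Z := d2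
      _ = ∑ j ∈ Finset.range n, (1 - q)⁻¹ ^ 3 * (q⁻¹ ^ 3) ^ j * ‖u j‖ ^ 4 := by
          rw [hZ, Finset.mul_sum]
          refine Finset.sum_congr rfl fun j _ => ?_
          rw [hb, mul_assoc]
          congr 1
          have : (q ^ j) ≠ 0 := by positivity
          rw [← pow_mul, inv_pow, div_pow, mul_comm 3 j, pow_mul]
          field_simp
  have g1 : ∀ x : ℂ, ‖x‖ₑ ^ 4 = ENNReal.ofReal (‖x‖ ^ 4) := by
    intro x
    rw [← ofReal_norm, ENNReal.ofReal_pow (norm_nonneg _)]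
  rw [g1]
  refine (ENNReal.ofReal_le_ofReal c3).trans (le_of_eq ?_)
  rw [ENNReal.ofReal_sum_of_nonneg (fun i _ => by positivity)]
  refine Finset.sum_congr rfl fun j _ => ?_
  rw [g1, ← ENNReal.ofReal_mul (by positivity)]

/-- the constants are summable -/
lemma const_sum (s C : ℝ) (hs : 0 < s) (hC : 0 < C) : ∃ q : ℝ, 0 < q ∧ q < 1 ∧ ∃ K : ℝ, 0 < K ∧
    ∀ n : ℕ, ∑ j ∈ Finset.range n, (1 - q)⁻¹ ^ 3 * (q⁻¹ ^ 3) ^ j *
      ((5 * ((2 : ℝ) ^ j / 2) ^ (-s)) ^ 4 * (C * (1 + j) ^ 2)) ≤ K := by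
  set q : ℝ := (2 : ℝ) ^ (-s) with hq
  have hq0 : 0 < q := Real.rpow_pos_of_pos (by norm_num) _
  have hq1 : q < 1 := Real.rpow_lt_one_of_one_lt_of_neg (by norm_num) (by linarith)
  refine ⟨q, hq0, hq1, ?_⟩
  have h1q : 0 < 1 - q := by linarith
  have e1 : ∀ j : ℕ, ((2 : ℝ) ^ j / 2) ^ (-s) = (2 : ℝ) ^ s * q ^ j := by
    intro j
    rw [Real.div_rpow (by positivity) (by norm_num), hq, ← Real.rpow_natCast, ← Real.rpow_natCast,
      ← Real.rpow_mul (by norm_num), ← Real.rpow_mul (by norm_num), div_eq_mul_inv,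
      ← Real.rpow_neg (by norm_num), neg_neg, mul_comm]
    congr 2
    ring
  have e2 : ∀ j : ℕ, (1 - q)⁻¹ ^ 3 * (q⁻¹ ^ 3) ^ j *
      ((5 * ((2 : ℝ) ^ j / 2) ^ (-s)) ^ 4 * (C * (1 + j) ^ 2)) =
      (1 - q)⁻¹ ^ 3 * (5 * (2 : ℝ) ^ s) ^ 4 * C * q⁻¹ * ((((j + 1 : ℕ) : ℝ)) ^ 2 * q ^ (j + 1)) := by
    intro j
    rw [e1]
    have h3 : (q⁻¹ ^ 3) ^ j * (q ^ j) ^ 4 = q ^ j := by
      have : q ^ j ≠ 0 := by positivity
      rw [← pow_mul, inv_pow, mul_comm 3 j, pow_mul]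
      field_simp
    have h4 : (5 * ((2 : ℝ) ^ s * q ^ j)) ^ 4 = (5 * (2 : ℝ) ^ s) ^ 4 * (q ^ j) ^ 4 := by ring
    have h5 : q⁻¹ * q ^ (j + 1) = q ^ j := by
      rw [pow_succ]
      field_simp
    rw [h4]
    push_cast
    calc (1 - q)⁻¹ ^ 3 * (q⁻¹ ^ 3) ^ j * ((5 * (2 : ℝ) ^ s) ^ 4 * (q ^ j) ^ 4 *
          (C * (1 + (j : ℝ)) ^ 2))
        = (1 - q)⁻¹ ^ 3 * (5 * (2 : ℝ) ^ s) ^ 4 * C * (1 + (j : ℝ)) ^ 2 *
          ((q⁻¹ ^ 3) ^ j * (q ^ j) ^ 4) := by ring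
      _ = (1 - q)⁻¹ ^ 3 * (5 * (2 : ℝ) ^ s) ^ 4 * C * (1 + (j : ℝ)) ^ 2 *
          (q⁻¹ * q ^ (j + 1)) := by rw [h3, h5]
      _ = _ := by ring
  have hsum : Summable (fun j : ℕ => (((j + 1 : ℕ) : ℝ)) ^ 2 * q ^ (j + 1)) := by
    have := summable_pow_mul_geometric_of_norm_lt_one 2 (R := ℝ) (r := q) (by
      rw [Real.norm_eq_abs, abs_of_pos hq0]
      exact hq1)
    exact (summable_nat_add_iff 1).2 this
  set A := (1 - q)⁻¹ ^ 3 * (5 * (2 : ℝ) ^ s) ^ 4 * C * q⁻¹ with hA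
  have hA0 : 0 < A := by positivity
  set S1 := ∑' j : ℕ, (((j + 1 : ℕ) : ℝ)) ^ 2 * q ^ (j + 1) with hS'
  have hS0 : 0 ≤ S1 := tsum_nonneg fun j => by positivity
  refine ⟨A * (S1 + 1), by positivity, fun n => ?_⟩
  rw [Finset.sum_congr rfl (fun j _ => e2 j), ← Finset.mul_sum]
  refine mul_le_mul_of_nonneg_left ?_ hA0.le
  have := hsum.sum_le_tsum (Finset.range n) (fun i _ => by positivity)
  linarith

/-- the partial sums of the symbol -/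
lemma part_sum (a : ℝ) (w : ℝ → ℂ) (n : ℕ) (ξ : ℝ) :
    ∑ j ∈ Finset.range n, pc a w j ξ = ((Pm n (ra a ξ) : ℝ) : ℂ) * w (ra a ξ) := by
  unfold pc
  rw [← Finset.sum_mul, ← Ps_sum]
  push_cast
  rfl

lemma tendsto_vx (a : ℝ) (w G : ℝ → ℂ) (hi : Integrable (fun ξ => w (ra a ξ)))
    (hG : Integrable G) (t x : ℝ) :
    Tendsto (fun n : ℕ => ∑ j ∈ Finset.range n, Vx a (pc a w j) G t x) atTop
      (𝓝 (Vx a (fun ξ => w (ra a ξ)) G t x)) := by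
  have h1 : ∀ n : ℕ, ∑ j ∈ Finset.range n, Vx a (pc a w j) G t x =
      Vx a (fun ξ => ((Pm n (ra a ξ) : ℝ) : ℂ) * w (ra a ξ)) G t x := by
    intro n
    rw [← vx_sum a (pc a w) G n (pc_int hi) hG]
    congr 1
    funext ξ
    exact part_sum a w n ξ
  simp only [h1]
  unfold Vx
  refine tendsto_integral_of_dominated_convergence (fun ξ => ‖w (ra a ξ)‖ * ∫ x, ‖G x‖) ?_ ?_ ?_ ?_
  · intro n
    refine vx_meas a _ G ?_ hG t x
    refine hi.norm.mono' ?_ ?_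
    · have h1 : Continuous (fun ξ : ℝ => ((Pm n (ra a ξ) : ℝ) : ℂ)) :=
        Complex.continuous_ofReal.comp ((continuous_Pm n).comp (continuous_ra a))
      exact h1.aestronglyMeasurable.mul hi.1
    · refine Eventually.of_forall fun ξ => ?_
      rw [norm_mul, Complex.norm_real, Real.norm_eq_abs, abs_of_nonneg (Pm_nonneg n _)]
      exact mul_le_of_le_one_left (norm_nonneg _) (Pm_le_one n _)
  · exact hi.norm.mul_const _
  · intro n
    refine Eventually.of_forall fun ξ => ?_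
    refine (vx_norm a (fun ξ => ((Pm n (ra a ξ) : ℝ) : ℂ) * w (ra a ξ)) G t x ξ).trans ?_
    refine mul_le_mul_of_nonneg_right ?_ (integral_nonneg fun x => norm_nonneg _)
    rw [norm_mul, Complex.norm_real, Real.norm_eq_abs, abs_of_nonneg (Pm_nonneg n _)]
    exact mul_le_of_le_one_left (norm_nonneg _) (Pm_le_one n _)
  · refine Eventually.of_forall fun ξ => ?_
    apply tendsto_const_nhds.congr'
    have h2 : ∀ᶠ n : ℕ in atTop, ra a ξ ≤ 2 ^ n :=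
      (tendsto_pow_atTop_atTop_of_one_lt (by norm_num : (1 : ℝ) < 2)).eventually_ge_atTop _
    obtain ⟨N, hN⟩ := eventually_atTop.1 h2
    filter_upwards [eventually_ge_atTop (N + 1)] with n hn
    obtain ⟨m, rfl⟩ : ∃ m, n = m + 1 := ⟨n - 1, by omega⟩
    have h3 : Pm (m + 1) (ra a ξ) = 1 := P_one m _ (hN m (by omega))
    rw [h3]
    simp

theorem sum_thm : S_LS4 → S_SUM := by
  rintro ⟨C, hC, hLS⟩ s hs
  obtain ⟨q, hq0, hq1, K, hK0, hK⟩ := const_sum s C hs hC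
  refine ⟨K, hK0, ?_⟩
  intro a w G ha hw hi hG
  rw [I4_eq a _ G hi hG]
  have hm : ∀ j, Measurable (fun z : ℝ × ℝ => ‖Vx a (pc a w j) G z.1 z.2‖ₑ ^ 4) := fun j =>
    ((cont_vx a (pc a w j) G (pc_int hi j) hG).measurable.enorm).pow_const 4
  have hms : ∀ n : ℕ, Measurable
      (fun z : ℝ × ℝ => ‖∑ j ∈ Finset.range n, Vx a (pc a w j) G z.1 z.2‖ₑ ^ 4) := fun n => by
    have : Continuous (fun z : ℝ × ℝ => ∑ j ∈ Finset.range n, Vx a (pc a w j) G z.1 z.2) :=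
      continuous_finsetSum _ fun j _ => cont_vx a (pc a w j) G (pc_int hi j) hG
    exact (this.measurable.enorm).pow_const 4
  have hbd : ∀ n : ℕ, ∫⁻ z : ℝ × ℝ, ‖∑ j ∈ Finset.range n, Vx a (pc a w j) G z.1 z.2‖ₑ ^ 4 ∂mu ≤
      ENNReal.ofReal K * ∫⁻ x : ℝ, ‖G x‖ₑ ^ 4 := by
    intro n
    calc ∫⁻ z : ℝ × ℝ, ‖∑ j ∈ Finset.range n, Vx a (pc a w j) G z.1 z.2‖ₑ ^ 4 ∂mu
        ≤ ∫⁻ z : ℝ × ℝ, ∑ j ∈ Finset.range n,
          ENNReal.ofReal ((1 - q)⁻¹ ^ 3 * (q⁻¹ ^ 3) ^ j) *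
            ‖Vx a (pc a w j) G z.1 z.2‖ₑ ^ 4 ∂mu := lintegral_mono fun z => sum4 q hq0 hq1 n _
      _ = ∑ j ∈ Finset.range n, ENNReal.ofReal ((1 - q)⁻¹ ^ 3 * (q⁻¹ ^ 3) ^ j) *
            ∫⁻ z : ℝ × ℝ, ‖Vx a (pc a w j) G z.1 z.2‖ₑ ^ 4 ∂mu := by
          rw [lintegral_finsetSum _ (fun j _ => (hm j).const_mul _)]
          refine Finset.sum_congr rfl fun j _ => ?_
          rw [lintegral_const_mul _ (hm j)]
      _ ≤ ∑ j ∈ Finset.range n, ENNReal.ofReal ((1 - q)⁻¹ ^ 3 * (q⁻¹ ^ 3) ^ j) *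
            (ENNReal.ofReal ((5 * ((2 : ℝ) ^ j / 2) ^ (-s)) ^ 4 * (C * (1 + j) ^ 2)) *
              ∫⁻ x : ℝ, ‖G x‖ₑ ^ 4) := by
          refine Finset.sum_le_sum fun j _ => ?_
          gcongr
          exact piece hs hC hLS ha hw hi hG j
      _ = ENNReal.ofReal (∑ j ∈ Finset.range n, (1 - q)⁻¹ ^ 3 * (q⁻¹ ^ 3) ^ j *
            ((5 * ((2 : ℝ) ^ j / 2) ^ (-s)) ^ 4 * (C * (1 + j) ^ 2))) *
              ∫⁻ x : ℝ, ‖G x‖ₑ ^ 4 := by
          have h1q : 0 < 1 - q := by linarith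
          rw [ENNReal.ofReal_sum_of_nonneg (fun i _ => by positivity), Finset.sum_mul]
          refine Finset.sum_congr rfl fun j _ => ?_
          rw [← mul_assoc, ← ENNReal.ofReal_mul (by positivity)]
      _ ≤ ENNReal.ofReal K * ∫⁻ x : ℝ, ‖G x‖ₑ ^ 4 := by
          gcongr
          exact hK n
  have hlim : ∀ z : ℝ × ℝ, Tendsto
      (fun n : ℕ => ‖∑ j ∈ Finset.range n, Vx a (pc a w j) G z.1 z.2‖ₑ ^ 4) atTop
      (𝓝 (‖Vx a (fun ξ => w (ra a ξ)) G z.1 z.2‖ₑ ^ 4)) := by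
    intro z
    have h1 := (tendsto_vx a w G hi hG z.1 z.2)
    exact ((ENNReal.continuous_pow 4).tendsto _).comp ((continuous_enorm.tendsto _).comp h1)
  calc ∫⁻ z : ℝ × ℝ, ‖Vx a (fun ξ => w (ra a ξ)) G z.1 z.2‖ₑ ^ 4 ∂mu
      = ∫⁻ z : ℝ × ℝ, liminf (fun n : ℕ =>
          ‖∑ j ∈ Finset.range n, Vx a (pc a w j) G z.1 z.2‖ₑ ^ 4) atTop ∂mu :=
        lintegral_congr fun z => (hlim z).liminf_eq.symm
    _ ≤ liminf (fun n : ℕ => ∫⁻ z : ℝ × ℝ,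
          ‖∑ j ∈ Finset.range n, Vx a (pc a w j) G z.1 z.2‖ₑ ^ 4 ∂mu) atTop :=
        lintegral_liminf_le hms
    _ ≤ ENNReal.ofReal K * ∫⁻ x : ℝ, ‖G x‖ₑ ^ 4 := by
        refine liminf_le_of_le (by isBoundedDefault) ?_
        intro b hb
        obtain ⟨n, hn⟩ := hb.exists
        exact hn.trans (hbd n)

end Pool.Agent.TH986.SUM
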