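import Pool.Agent.TH806.LK.Defs

set_option autoImplicit false

/-!
Common tools for the Fourier integrals of the LK project (helper806): the square of `DK` as a double integral,
Fubini, and the Gaussian integrals over the square.
-/

namespace Pool.Agent.TH986.LK_B

open Finset Filter Topology MeasureTheory
open Pool.Agent.W184.NZ
open Pool.Agent.TH806
open Pool.Agent.TH806.LK
open Pool.Agent.H306R2.SM (om cl Yf)
open Pool.Agent.H262R4.TM (Rng Ck)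

noncomputable section

/-! ### algebra -/

lemma NC_conj (K : ℕ) (a z : ℂ) :
    starRingEnd ℂ (NC K a z) = NC K (starRingEnd ℂ a) (starRingEnd ℂ z) := by
  unfold NC
  rw [map_sum]
  refine sum_congr rfl fun k _ => ?_
  rw [map_mul, map_div₀, map_pow, map_pow, map_natCast]

lemma NC_conj_real (K : ℕ) (a : ℝ) (z : ℂ) :
    starRingEnd ℂ (NC K a z) = NC K a (starRingEnd ℂ z) := by
  rw [NC_conj, Complex.conj_ofReal]

lemma pf_conj (K : ℕ) (θ : ℝ) (z : ℂ) : starRingEnd ℂ (pf K θ z) = pf K (-θ) z := by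
  unfold pf
  rw [map_mul, NC_conj, NC_conj, Complex.conj_conj]
  have : starRingEnd ℂ ((θ:ℂ) / 2 * Complex.I) = ((-θ : ℝ) : ℂ) / 2 * Complex.I := by
    rw [map_mul, map_div₀, Complex.conj_ofReal, Complex.conj_I, map_ofNat]; push_cast; ring
  rw [this]; ring

lemma NC_cont' {X : Type*} [TopologicalSpace X] (K : ℕ) {f g : X → ℂ} (hf : Continuous f)
    (hg : Continuous g) : Continuous fun x => NC K (f x) (g x) := by
  unfold NC; fun_prop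

lemma pf_cont' {X : Type*} [TopologicalSpace X] (K : ℕ) {f : X → ℝ} {g : X → ℂ} (hf : Continuous f)
    (hg : Continuous g) : Continuous fun x => pf K (f x) (g x) := by
  unfold pf
  have h1 : Continuous fun x => (f x : ℂ) / 2 * Complex.I := by fun_prop
  have h2 : Continuous fun x => starRingEnd ℂ (g x) := Complex.continuous_conj.comp hg
  exact (NC_cont' K h1 hg).mul (NC_cont' K h1 h2)

lemma BF_cont' {X : Type*} [TopologicalSpace X] (K : ℕ) (a b : ℝ) {f g : X → ℝ} {h : X → ℂ}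
    (hf : Continuous f) (hg : Continuous g) (hh : Continuous h) :
    Continuous fun x => BF K a b (f x) (g x) (h x) := by
  unfold Pool.Agent.TH806.LK.BF
  have h2 : Continuous fun x => starRingEnd ℂ (h x) := Complex.continuous_conj.comp hh
  exact ((NC_cont' K continuous_const hh).mul (NC_cont' K continuous_const h2)).mul
    ((pf_cont' K hf hh).mul (pf_cont' K hg hh))

lemma zz_cont {I : ℕ → Finset ℕ} (hI : ∀ i, ∀ p ∈ I i, p.Prime) (i : ℕ) : Continuous fun t => zz I t i := by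
  unfold zz PI
  refine continuous_finsetSum _ fun p hp => ?_
  have : (p:ℂ) ≠ 0 := by exact_mod_cast (hI i p hp).ne_zero
  exact Continuous.const_cpow (by fun_prop) (Or.inl this)

lemma zz_le {I : ℕ → Finset ℕ} (hI : ∀ i, ∀ p ∈ I i, p.Prime) (i : ℕ) (t : ℝ) : ‖zz I t i‖ ≤ (I i).card := by
  unfold zz PI
  refine (norm_sum_le _ _).trans ?_
  have h1 : ∀ p ∈ I i, ‖(p:ℂ) ^ (-(1 / 2 + (t:ℂ) * Complex.I))‖ ≤ 1 := by
    intro p hp
    rw [Complex.norm_natCast_cpow_of_pos (hI i p hp).pos]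
    have e : (-(1 / 2 + (t:ℂ) * Complex.I)).re = -(1 / 2 : ℝ) := by simp
    rw [e]
    exact Real.rpow_le_one_of_one_le_of_nonpos (by exact_mod_cast (hI i p hp).one_lt.le) (by norm_num)
  refine (sum_le_sum h1).trans ?_
  simp

/-- the integrand -/
def FF (n Rs J : ℕ) (I : ℕ → Finset ℕ) (a b u : ℝ) (t θ₁ θ₂ : ℝ) : ℂ :=
  ((hh θ₁ * hh θ₂ : ℝ) : ℂ) * (Complex.exp (-(((θ₁ + θ₂) * u : ℝ) : ℂ) * Complex.I) *
    ∏ i ∈ range J, BF (KK n Rs i) a b θ₁ θ₂ (zz I t i))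

lemma hh_cont : Continuous hh := by unfold hh; fun_prop

lemma hh_bd {θ : ℝ} (h : θ ∈ Set.Icc (-1:ℝ) 1) : 0 ≤ hh θ ∧ hh θ ≤ 1 := by
  obtain ⟨h1, h2⟩ := h
  unfold hh
  constructor <;> nlinarith

lemma prod_cont (n Rs J : ℕ) {I : ℕ → Finset ℕ} (hI : ∀ i, ∀ p ∈ I i, p.Prime) (a b : ℝ) :
    Continuous fun x : ℝ × ℝ × ℝ => ∏ i ∈ range J, BF (KK n Rs i) a b x.2.1 x.2.2 (zz I x.1 i) := by
  refine continuous_finsetProd _ fun i _ => ?_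
  have h1 : Continuous fun x : ℝ × ℝ × ℝ => x.2.1 := by fun_prop
  have h2 : Continuous fun x : ℝ × ℝ × ℝ => x.2.2 := by fun_prop
  have h3 : Continuous fun x : ℝ × ℝ × ℝ => zz I x.1 i := (zz_cont hI i).comp continuous_fst
  exact BF_cont' (KK n Rs i) a b h1 h2 h3

lemma FF_cont (n Rs J : ℕ) {I : ℕ → Finset ℕ} (hI : ∀ i, ∀ p ∈ I i, p.Prime) (a b u : ℝ) :
    Continuous fun x : ℝ × ℝ × ℝ => FF n Rs J I a b u x.1 x.2.1 x.2.2 := by
  unfold FF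
  have h1 := prod_cont n Rs J hI a b
  have h2 := hh_cont
  fun_prop

lemma prod_bd (n Rs J : ℕ) {I : ℕ → Finset ℕ} (hI : ∀ i, ∀ p ∈ I i, p.Prime) (a b : ℝ) :
    ∃ B : ℝ, 0 ≤ B ∧ ∀ t, ∀ θ₁ ∈ Set.Icc (-1:ℝ) 1, ∀ θ₂ ∈ Set.Icc (-1:ℝ) 1,
      ‖∏ i ∈ range J, BF (KK n Rs i) a b θ₁ θ₂ (zz I t i)‖ ≤ B := by
  have h1 : ∀ i, ∃ B : ℝ, ∀ t, ∀ θ₁ ∈ Set.Icc (-1:ℝ) 1, ∀ θ₂ ∈ Set.Icc (-1:ℝ) 1,
      ‖BF (KK n Rs i) a b θ₁ θ₂ (zz I t i)‖ ≤ B := by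
    intro i
    have hK : IsCompact (Set.Icc (-1:ℝ) 1 ×ˢ Set.Icc (-1:ℝ) 1 ×ˢ Metric.closedBall (0:ℂ) (I i).card) :=
      isCompact_Icc.prod (isCompact_Icc.prod (isCompact_closedBall _ _))
    have hcB : Continuous fun x : ℝ × ℝ × ℂ => BF (KK n Rs i) a b x.1 x.2.1 x.2.2 :=
      BF_cont' (KK n Rs i) a b (by fun_prop) (by fun_prop) (by fun_prop)
    obtain ⟨B, hB⟩ := hK.exists_bound_of_continuousOn hcB.continuousOn
    refine ⟨B, fun t θ₁ h1 θ₂ h2 => hB (θ₁, θ₂, zz I t i) ⟨h1, h2, ?_⟩⟩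
    rw [mem_closedBall_zero_iff]
    exact zz_le hI i t
  choose B hB using h1
  refine ⟨∏ i ∈ range J, |B i|, by positivity, fun t θ₁ h1 θ₂ h2 => ?_⟩
  rw [norm_prod]
  exact prod_le_prod (fun i _ => norm_nonneg _) fun i _ => (hB i t θ₁ h1 θ₂ h2).trans (le_abs_self _)

lemma norm_e (x : ℝ) : ‖Complex.exp (-((x : ℝ) : ℂ) * Complex.I)‖ = 1 := by
  rw [show -((x : ℝ) : ℂ) * Complex.I = ((-x : ℝ) : ℂ) * Complex.I by push_cast; ring]
  exact Complex.norm_exp_ofReal_mul_I _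

lemma FF_bd (n Rs J : ℕ) {I : ℕ → Finset ℕ} (hI : ∀ i, ∀ p ∈ I i, p.Prime) (a b u : ℝ) :
    ∃ B : ℝ, ∀ t, ∀ θ₁ ∈ Set.Icc (-1:ℝ) 1, ∀ θ₂ ∈ Set.Icc (-1:ℝ) 1, ‖FF n Rs J I a b u t θ₁ θ₂‖ ≤ B := by
  obtain ⟨B, hB0, hB⟩ := prod_bd n Rs J hI a b
  refine ⟨B, fun t θ₁ h1 θ₂ h2 => ?_⟩
  unfold FF
  rw [norm_mul, norm_mul, norm_e, one_mul, Complex.norm_real, Real.norm_eq_abs, abs_mul,
    abs_of_nonneg (hh_bd h1).1, abs_of_nonneg (hh_bd h2).1]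
  have h4 : hh θ₁ * hh θ₂ ≤ 1 := mul_le_one₀ (hh_bd h1).2 (hh_bd h2).1 (hh_bd h2).2
  calc hh θ₁ * hh θ₂ * ‖∏ i ∈ range J, BF (KK n Rs i) a b θ₁ θ₂ (zz I t i)‖ ≤ 1 * B :=
        mul_le_mul h4 (hB t θ₁ h1 θ₂ h2) (norm_nonneg _) zero_le_one
    _ = B := one_mul B

/-! ### the square of `DK` -/

lemma DK_conj (n Rs J : ℕ) (u : ℝ) (z : ℕ → ℂ) :
    starRingEnd ℂ (DK n Rs J hh u z) = DK n Rs J hh u z := by
  set g : ℝ → ℂ := fun x => (hh x : ℂ) * (Complex.exp (-((x * u : ℝ) : ℂ) * Complex.I) *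
      ∏ i ∈ range J, pf (KK n Rs i) x (z i)) with hg
  have h0 : DK n Rs J hh u z = ∫ θ in (-1:ℝ)..1, g θ := rfl
  have h1 : starRingEnd ℂ (∫ θ in (-1:ℝ)..1, g θ) = ∫ θ in (-1:ℝ)..1, starRingEnd ℂ (g θ) := by
    rw [intervalIntegral.integral_of_le (by norm_num), intervalIntegral.integral_of_le (by norm_num)]
    exact integral_conj.symm
  have h2 : ∀ θ : ℝ, starRingEnd ℂ (g θ) = g (-θ) := by
    intro θ
    rw [hg]
    simp only
    rw [map_mul, map_mul, map_prod, Complex.conj_ofReal, ← Complex.exp_conj, map_mul, map_neg,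
      Complex.conj_ofReal, Complex.conj_I]
    simp_rw [pf_conj]
    congr 2
    · unfold hh; push_cast; ring
    · congr 1; push_cast; ring
  have h3 : (∫ θ in (-1:ℝ)..1, g (-θ)) = ∫ θ in (-1:ℝ)..1, g θ := by
    rw [intervalIntegral.integral_comp_neg]; norm_num
  rw [h0, h1, intervalIntegral.integral_congr (fun θ _ => h2 θ), h3]

lemma DK_sq (n Rs J : ℕ) (a b u : ℝ) (z : ℕ → ℂ) :
    AZ n Rs J a z * starRingEnd ℂ (AZ n Rs J b z) * ((‖DK n Rs J hh u z‖ ^ 2 : ℝ) : ℂ) =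
      ∫ θ₁ in (-1:ℝ)..1, ∫ θ₂ in (-1:ℝ)..1, ((hh θ₁ * hh θ₂ : ℝ) : ℂ) *
        (Complex.exp (-(((θ₁ + θ₂) * u : ℝ) : ℂ) * Complex.I) *
          ∏ i ∈ range J, BF (KK n Rs i) a b θ₁ θ₂ (z i)) := by
  have h1 : ((‖DK n Rs J hh u z‖ ^ 2 : ℝ) : ℂ) = DK n Rs J hh u z * DK n Rs J hh u z := by
    have := Complex.mul_conj' (DK n Rs J hh u z)
    rw [DK_conj] at this
    rw [this]; push_cast; rfl
  have h2 : ∀ θ₁ θ₂ : ℝ, ((hh θ₁ * hh θ₂ : ℝ) : ℂ) *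
        (Complex.exp (-(((θ₁ + θ₂) * u : ℝ) : ℂ) * Complex.I) *
          ∏ i ∈ range J, BF (KK n Rs i) a b θ₁ θ₂ (z i)) =
      (AZ n Rs J a z * starRingEnd ℂ (AZ n Rs J b z) *
        ((hh θ₁ : ℂ) * (Complex.exp (-((θ₁ * u : ℝ) : ℂ) * Complex.I) *
          ∏ i ∈ range J, pf (KK n Rs i) θ₁ (z i)))) *
        ((hh θ₂ : ℂ) * (Complex.exp (-((θ₂ * u : ℝ) : ℂ) * Complex.I) *
          ∏ i ∈ range J, pf (KK n Rs i) θ₂ (z i))) := by
    intro θ₁ θ₂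
    have e1 : Complex.exp (-(((θ₁ + θ₂) * u : ℝ) : ℂ) * Complex.I) =
        Complex.exp (-((θ₁ * u : ℝ) : ℂ) * Complex.I) * Complex.exp (-((θ₂ * u : ℝ) : ℂ) * Complex.I) := by
      rw [← Complex.exp_add]; congr 1; push_cast; ring
    have e2 : ∏ i ∈ range J, BF (KK n Rs i) a b θ₁ θ₂ (z i) = AZ n Rs J a z * starRingEnd ℂ (AZ n Rs J b z) *
        ((∏ i ∈ range J, pf (KK n Rs i) θ₁ (z i)) * ∏ i ∈ range J, pf (KK n Rs i) θ₂ (z i)) := by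
      unfold AZ
      rw [map_prod]
      simp_rw [NC_conj_real]
      rw [← prod_mul_distrib, ← prod_mul_distrib, ← prod_mul_distrib]
      rfl
    rw [e1, e2]
    push_cast
    ring
  simp_rw [h2, intervalIntegral.integral_const_mul, intervalIntegral.integral_mul_const]
  rw [intervalIntegral.integral_const_mul, h1]
  unfold DK
  ring

/-! ### Fubini -/

lemma swap1 {μ : Measure ℝ} [SFinite μ] {W : ℝ → ℂ} (hW : Integrable W μ) {F : ℝ → ℝ → ℂ}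
    (hF : Continuous fun x : ℝ × ℝ => F x.1 x.2) {B : ℝ} (hB : ∀ t, ∀ θ ∈ Set.Icc (-1:ℝ) 1, ‖F t θ‖ ≤ B) :
    (∫ t, W t * (∫ θ in (-1:ℝ)..1, F t θ) ∂μ) = ∫ θ in (-1:ℝ)..1, ∫ t, W t * F t θ ∂μ ∧
    IntervalIntegrable (fun θ => ∫ t, W t * F t θ ∂μ) volume (-1) 1 := by
  have h1 : Integrable (fun x : ℝ × ℝ => W x.1 * F x.1 x.2) (μ.prod (volume.restrict (Set.Ioc (-1:ℝ) 1))) := by
    have h2 : Integrable (fun x : ℝ × ℝ => W x.1) (μ.prod (volume.restrict (Set.Ioc (-1:ℝ) 1))) :=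
      hW.comp_fst _
    refine h2.mul_bdd (c := B) hF.aestronglyMeasurable ?_
    have h3 : ∀ᵐ x ∂(μ.prod (volume.restrict (Set.Ioc (-1:ℝ) 1))), x.2 ∈ Set.Ioc (-1:ℝ) 1 :=
      Measure.quasiMeasurePreserving_snd.ae (ae_restrict_mem measurableSet_Ioc)
    filter_upwards [h3] with x hx
    exact hB x.1 x.2 ⟨hx.1.le, hx.2⟩
  constructor
  · simp_rw [intervalIntegral.integral_of_le (show (-1:ℝ) ≤ 1 by norm_num)]
    rw [← integral_integral_swap h1]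
    refine integral_congr_ae (Eventually.of_forall fun t => ?_)
    simp only
    rw [integral_const_mul]
  · rw [intervalIntegrable_iff_integrableOn_Ioc_of_le (by norm_num)]
    exact h1.integral_prod_right

lemma par_cont {F : ℝ → ℝ → ℝ → ℂ} (hF : Continuous fun x : ℝ × ℝ × ℝ => F x.1 x.2.1 x.2.2) :
    Continuous fun x : ℝ × ℝ => ∫ θ₂ in (-1:ℝ)..1, F x.1 x.2 θ₂ := by
  refine intervalIntegral.continuous_parametric_intervalIntegral_of_continuous' (f := fun (x : ℝ × ℝ) θ₂ => F x.1 x.2 θ₂) ?_ _ _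
  exact hF.comp (by fun_prop : Continuous fun y : (ℝ × ℝ) × ℝ => (y.1.1, y.1.2, y.2))

lemma swap2 {μ : Measure ℝ} [SFinite μ] {W : ℝ → ℂ} (hW : Integrable W μ) {F : ℝ → ℝ → ℝ → ℂ}
    (hF : Continuous fun x : ℝ × ℝ × ℝ => F x.1 x.2.1 x.2.2) {B : ℝ}
    (hB : ∀ t, ∀ θ₁ ∈ Set.Icc (-1:ℝ) 1, ∀ θ₂ ∈ Set.Icc (-1:ℝ) 1, ‖F t θ₁ θ₂‖ ≤ B) :
    (∫ t, W t * (∫ θ₁ in (-1:ℝ)..1, ∫ θ₂ in (-1:ℝ)..1, F t θ₁ θ₂) ∂μ) =
      ∫ θ₁ in (-1:ℝ)..1, ∫ θ₂ in (-1:ℝ)..1, ∫ t, W t * F t θ₁ θ₂ ∂μ ∧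
    (∀ θ₁ ∈ Set.Icc (-1:ℝ) 1, IntervalIntegrable (fun θ₂ => ∫ t, W t * F t θ₁ θ₂ ∂μ) volume (-1) 1) ∧
    IntervalIntegrable (fun θ₁ => ∫ θ₂ in (-1:ℝ)..1, ∫ t, W t * F t θ₁ θ₂ ∂μ) volume (-1) 1 := by
  have h1 := swap1 (F := fun t θ₁ => ∫ θ₂ in (-1:ℝ)..1, F t θ₁ θ₂) hW (par_cont hF) (B := B * |1 - (-1)|)
    (fun t θ₁ hθ => by
      refine intervalIntegral.norm_integral_le_of_norm_le_const fun θ₂ h2 => ?_
      rw [Set.uIoc_of_le (by norm_num)] at h2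
      exact hB t θ₁ hθ θ₂ ⟨h2.1.le, h2.2⟩)
  have h2 : ∀ θ₁ ∈ Set.Icc (-1:ℝ) 1, (∫ t, W t * (∫ θ₂ in (-1:ℝ)..1, F t θ₁ θ₂) ∂μ) =
      (∫ θ₂ in (-1:ℝ)..1, ∫ t, W t * F t θ₁ θ₂ ∂μ) ∧
      IntervalIntegrable (fun θ₂ => ∫ t, W t * F t θ₁ θ₂ ∂μ) volume (-1) 1 := by
    intro θ₁ hθ
    exact swap1 (F := fun t θ₂ => F t θ₁ θ₂) hW
      (hF.comp (by fun_prop : Continuous fun y : ℝ × ℝ => (y.1, θ₁, y.2))) (B := B)
      (fun t θ₂ h2 => hB t θ₁ hθ θ₂ h2)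
  refine ⟨?_, fun θ₁ hθ => (h2 θ₁ hθ).2, ?_⟩
  · rw [h1.1]
    refine intervalIntegral.integral_congr fun θ₁ hθ => ?_
    rw [Set.uIcc_of_le (by norm_num)] at hθ
    exact (h2 θ₁ hθ).1
  · have h3 := h1.2
    rw [intervalIntegrable_iff_integrableOn_Ioc_of_le (by norm_num)] at h3 ⊢
    exact h3.congr_fun (fun θ₁ hθ => (h2 θ₁ ⟨hθ.1.le, hθ.2⟩).1) measurableSet_Ioc

/-- norm bound for double integrals -/
lemma dbl_le {F : ℝ → ℝ → ℂ} {G : ℝ → ℝ → ℝ} (hG : Continuous fun x : ℝ × ℝ => G x.1 x.2)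
    (h : ∀ θ₁ ∈ Set.Icc (-1:ℝ) 1, ∀ θ₂ ∈ Set.Icc (-1:ℝ) 1, ‖F θ₁ θ₂‖ ≤ G θ₁ θ₂) :
    ‖∫ θ₁ in (-1:ℝ)..1, ∫ θ₂ in (-1:ℝ)..1, F θ₁ θ₂‖ ≤ ∫ θ₁ in (-1:ℝ)..1, ∫ θ₂ in (-1:ℝ)..1, G θ₁ θ₂ := by
  have hc : Continuous fun θ₁ : ℝ => ∫ θ₂ in (-1:ℝ)..1, G θ₁ θ₂ :=
    intervalIntegral.continuous_parametric_intervalIntegral_of_continuous' hG _ _
  refine intervalIntegral.norm_integral_le_of_norm_le (by norm_num) ?_ (hc.intervalIntegrable _ _)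
  refine Eventually.of_forall fun θ₁ h1 => ?_
  refine intervalIntegral.norm_integral_le_of_norm_le (by norm_num) ?_ ?_
  · refine Eventually.of_forall fun θ₂ h2 => ?_
    exact h θ₁ ⟨h1.1.le, h1.2⟩ θ₂ ⟨h2.1.le, h2.2⟩
  · exact (hG.comp (by fun_prop : Continuous fun y : ℝ => (θ₁, y))).intervalIntegrable _ _

lemma dbl_mono {F G : ℝ → ℝ → ℝ} (hF : Continuous fun x : ℝ × ℝ => F x.1 x.2)
    (hG : Continuous fun x : ℝ × ℝ => G x.1 x.2)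
    (h : ∀ θ₁ ∈ Set.Icc (-1:ℝ) 1, ∀ θ₂ ∈ Set.Icc (-1:ℝ) 1, F θ₁ θ₂ ≤ G θ₁ θ₂) :
    (∫ θ₁ in (-1:ℝ)..1, ∫ θ₂ in (-1:ℝ)..1, F θ₁ θ₂) ≤ ∫ θ₁ in (-1:ℝ)..1, ∫ θ₂ in (-1:ℝ)..1, G θ₁ θ₂ := by
  have hc1 : Continuous fun θ₁ : ℝ => ∫ θ₂ in (-1:ℝ)..1, G θ₁ θ₂ :=
    intervalIntegral.continuous_parametric_intervalIntegral_of_continuous' hG _ _
  have hc2 : Continuous fun θ₁ : ℝ => ∫ θ₂ in (-1:ℝ)..1, F θ₁ θ₂ :=
    intervalIntegral.continuous_parametric_intervalIntegral_of_continuous' hF _ _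
  refine intervalIntegral.integral_mono_on (by norm_num) (hc2.intervalIntegrable _ _)
    (hc1.intervalIntegrable _ _) fun θ₁ h1 => ?_
  refine intervalIntegral.integral_mono_on (by norm_num)
    ((hF.comp (by fun_prop : Continuous fun y : ℝ => (θ₁, y))).intervalIntegrable _ _)
    ((hG.comp (by fun_prop : Continuous fun y : ℝ => (θ₁, y))).intervalIntegrable _ _) fun θ₂ h2 => h θ₁ h1 θ₂ h2

/-! ### Gaussian integrals -/

lemma gauss_up {V : ℝ} (hV : 0 ≤ V) {θ₁ : ℝ} (h1 : θ₁ ∈ Set.Icc (-1:ℝ) 1) :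
    ∫ θ₂ in (-1:ℝ)..1, Real.exp (-((θ₁ + θ₂) ^ 2 / 4 * V)) ≤ 12 * (1 + V) ^ (-(1 / 2) : ℝ) := by
  have h0 : 0 < (1 + V) / 4 := by positivity
  have hint := integrable_exp_neg_mul_sq h0
  have hci : Continuous fun θ₂ : ℝ => Real.exp (-((θ₁ + θ₂) ^ 2 / 4 * V)) := by fun_prop
  have hcj : Continuous fun θ₂ : ℝ => Real.exp 1 * Real.exp (-((1 + V) / 4) * (θ₁ + θ₂) ^ 2) := by fun_prop
  calc ∫ θ₂ in (-1:ℝ)..1, Real.exp (-((θ₁ + θ₂) ^ 2 / 4 * V))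
      ≤ ∫ θ₂ in (-1:ℝ)..1, Real.exp 1 * Real.exp (-((1 + V) / 4) * (θ₁ + θ₂) ^ 2) := by
        refine intervalIntegral.integral_mono_on (by norm_num) (hci.intervalIntegrable _ _)
          (hcj.intervalIntegrable _ _) fun θ₂ h2 => ?_
        rw [← Real.exp_add]
        refine Real.exp_le_exp.mpr ?_
        have : (θ₁ + θ₂) ^ 2 ≤ 4 := by
          obtain ⟨a1, a2⟩ := h1
          obtain ⟨b1, b2⟩ := h2
          nlinarith
        nlinarith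
    _ = Real.exp 1 * ∫ θ₂ in (-1:ℝ)..1, Real.exp (-((1 + V) / 4) * (θ₁ + θ₂) ^ 2) := by
        rw [intervalIntegral.integral_const_mul]
    _ = Real.exp 1 * ∫ s in (θ₁ + -1)..(θ₁ + 1), Real.exp (-((1 + V) / 4) * s ^ 2) := by
        rw [intervalIntegral.integral_comp_add_left (fun s => Real.exp (-((1 + V) / 4) * s ^ 2))]
    _ ≤ Real.exp 1 * ∫ s : ℝ, Real.exp (-((1 + V) / 4) * s ^ 2) := by
        refine mul_le_mul_of_nonneg_left ?_ (Real.exp_pos 1).le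
        rw [intervalIntegral.integral_of_le (by linarith)]
        exact setIntegral_le_integral hint (Eventually.of_forall fun s => (Real.exp_pos _).le)
    _ = Real.exp 1 * √(Real.pi / ((1 + V) / 4)) := by rw [integral_gaussian]
    _ ≤ 3 * (4 * (1 + V) ^ (-(1 / 2) : ℝ)) := by
        have e1 : Real.exp 1 ≤ 3 := by have := Real.exp_one_lt_d9; linarith
        have e2 : √(Real.pi / ((1 + V) / 4)) ≤ 4 * (1 + V) ^ (-(1 / 2) : ℝ) := by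
          rw [Real.rpow_neg (by positivity), ← Real.sqrt_eq_rpow]
          have e3 : Real.pi / ((1 + V) / 4) ≤ 16 / (1 + V) := by
            rw [div_le_div_iff₀ (by positivity) (by positivity)]
            have := Real.pi_le_four
            nlinarith
          refine (Real.sqrt_le_sqrt e3).trans ?_
          rw [Real.sqrt_div (by norm_num), show (16:ℝ) = 4 ^ 2 by norm_num, Real.sqrt_sq (by norm_num)]
          exact le_of_eq rfl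
        exact mul_le_mul e1 e2 (Real.sqrt_nonneg _) (by norm_num)
    _ = _ := by ring

lemma gauss2_up {V : ℝ} (hV : 0 ≤ V) :
    ∫ θ₁ in (-1:ℝ)..1, ∫ θ₂ in (-1:ℝ)..1, Real.exp (-((θ₁ + θ₂) ^ 2 / 4 * V)) ≤
      24 * (1 + V) ^ (-(1 / 2) : ℝ) := by
  have hc : Continuous fun θ₁ : ℝ => ∫ θ₂ in (-1:ℝ)..1, Real.exp (-((θ₁ + θ₂) ^ 2 / 4 * V)) :=
    intervalIntegral.continuous_parametric_intervalIntegral_of_continuous'
      (by fun_prop : Continuous fun x : ℝ × ℝ => Real.exp (-((x.1 + x.2) ^ 2 / 4 * V))) _ _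
  calc _ ≤ ∫ _θ₁ in (-1:ℝ)..1, 12 * (1 + V) ^ (-(1 / 2) : ℝ) := by
        exact intervalIntegral.integral_mono_on (by norm_num) (hc.intervalIntegrable _ _)
          (continuous_const.intervalIntegrable _ _) fun θ₁ h1 => gauss_up hV h1
    _ = _ := by rw [intervalIntegral.integral_const, smul_eq_mul]; ring

lemma gauss2_low {V : ℝ} (hV : 0 ≤ V) :
    1 / 16 * (1 + V) ^ (-(1 / 2) : ℝ) ≤
      ∫ θ₁ in (-1:ℝ)..1, ∫ θ₂ in (-1:ℝ)..1, hh θ₁ * hh θ₂ * Real.exp (-((θ₁ + θ₂) ^ 2 / 4 * V)) := by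
  set δ : ℝ := (1 + V) ^ (-(1 / 2) : ℝ) / 4 with hδ
  have hd1 : (1 + V) ^ (-(1 / 2) : ℝ) ≤ 1 :=
    Real.rpow_le_one_of_one_le_of_nonpos (by linarith) (by norm_num)
  have hd0 : 0 < (1 + V) ^ (-(1 / 2) : ℝ) := by positivity
  have hδ0 : 0 < δ := by positivity
  have hδ1 : δ ≤ 1 / 4 := by rw [hδ]; linarith
  have hδ2 : δ ^ 2 * V ≤ 1 / 16 := by
    have e1 : ((1 + V) ^ (-(1 / 2) : ℝ)) ^ 2 = (1 + V)⁻¹ := by
      rw [← Real.rpow_natCast, ← Real.rpow_mul (by positivity), ← Real.rpow_neg_one]; norm_num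
    rw [hδ, div_pow, e1]
    have e2 : (1 + V)⁻¹ * V ≤ 1 := by
      rw [inv_mul_le_iff₀ (by positivity)]; linarith
    nlinarith
  have hcF : Continuous fun x : ℝ × ℝ => hh x.1 * hh x.2 * Real.exp (-((x.1 + x.2) ^ 2 / 4 * V)) := by
    have := hh_cont
    fun_prop
  have hc : Continuous fun θ₁ : ℝ => ∫ θ₂ in (-1:ℝ)..1, hh θ₁ * hh θ₂ * Real.exp (-((θ₁ + θ₂) ^ 2 / 4 * V)) :=
    intervalIntegral.continuous_parametric_intervalIntegral_of_continuous' hcF _ _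
  have hin0 : ∀ θ₁ ∈ Set.Icc (-1:ℝ) 1, ∀ θ₂ ∈ Set.Icc (-1:ℝ) 1,
      0 ≤ hh θ₁ * hh θ₂ * Real.exp (-((θ₁ + θ₂) ^ 2 / 4 * V)) := fun θ₁ h1 θ₂ h2 =>
    mul_nonneg (mul_nonneg (hh_bd h1).1 (hh_bd h2).1) (Real.exp_pos _).le
  have hin : ∀ θ₁ ∈ Set.Icc (-(1 / 4):ℝ) (1 / 4), 1 / 8 * (1 + V) ^ (-(1 / 2) : ℝ) ≤
      ∫ θ₂ in (-1:ℝ)..1, hh θ₁ * hh θ₂ * Real.exp (-((θ₁ + θ₂) ^ 2 / 4 * V)) := by
    intro θ₁ h1
    obtain ⟨a1, a2⟩ := h1
    have hcc : Continuous fun θ₂ : ℝ => hh θ₁ * hh θ₂ * Real.exp (-((θ₁ + θ₂) ^ 2 / 4 * V)) :=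
      hcF.comp (by fun_prop : Continuous fun y : ℝ => (θ₁, y))
    calc 1 / 8 * (1 + V) ^ (-(1 / 2) : ℝ) ≤ ∫ _θ₂ in (-θ₁ - δ)..(-θ₁ + δ), (1 / 4 : ℝ) := by
          rw [intervalIntegral.integral_const, smul_eq_mul, hδ]
          linarith
      _ ≤ ∫ θ₂ in (-θ₁ - δ)..(-θ₁ + δ), hh θ₁ * hh θ₂ * Real.exp (-((θ₁ + θ₂) ^ 2 / 4 * V)) := by
          refine intervalIntegral.integral_mono_on (by linarith) (continuous_const.intervalIntegrable _ _)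
            (hcc.intervalIntegrable _ _) fun θ₂ h2 => ?_
          obtain ⟨b1, b2⟩ := h2
          have c1 : 15 / 16 ≤ hh θ₁ := by unfold hh; nlinarith
          have c2 : 3 / 4 ≤ hh θ₂ := by unfold hh; nlinarith
          have c3 : (1 / 2 : ℝ) ≤ Real.exp (-((θ₁ + θ₂) ^ 2 / 4 * V)) := by
            have d1 : (θ₁ + θ₂) ^ 2 ≤ δ ^ 2 := by nlinarith
            have d2 : (θ₁ + θ₂) ^ 2 * V ≤ 1 / 16 := (mul_le_mul_of_nonneg_right d1 hV).trans hδ2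
            have d3 := Real.add_one_le_exp (-((θ₁ + θ₂) ^ 2 / 4 * V))
            linarith
          have c4 : (45 / 64 : ℝ) ≤ hh θ₁ * hh θ₂ := by nlinarith
          nlinarith
      _ ≤ ∫ θ₂ in (-1:ℝ)..1, hh θ₁ * hh θ₂ * Real.exp (-((θ₁ + θ₂) ^ 2 / 4 * V)) := by
          refine intervalIntegral.integral_mono_interval (by linarith) (by linarith) (by linarith) ?_
            (hcc.intervalIntegrable _ _)
          refine (ae_restrict_iff' measurableSet_Ioc).mpr (Eventually.of_forall fun θ₂ h2 => ?_)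
          exact hin0 θ₁ ⟨by linarith, by linarith⟩ θ₂ ⟨h2.1.le, h2.2⟩
  calc 1 / 16 * (1 + V) ^ (-(1 / 2) : ℝ) = ∫ _θ₁ in (-(1 / 4):ℝ)..(1 / 4), 1 / 8 * (1 + V) ^ (-(1 / 2) : ℝ) := by
        rw [intervalIntegral.integral_const, smul_eq_mul]; ring
    _ ≤ ∫ θ₁ in (-(1 / 4):ℝ)..(1 / 4), ∫ θ₂ in (-1:ℝ)..1, hh θ₁ * hh θ₂ * Real.exp (-((θ₁ + θ₂) ^ 2 / 4 * V)) :=
        intervalIntegral.integral_mono_on (by norm_num) (continuous_const.intervalIntegrable _ _)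
          (hc.intervalIntegrable _ _) hin
    _ ≤ _ := by
        refine intervalIntegral.integral_mono_interval (by norm_num) (by norm_num) (by norm_num) ?_
          (hc.intervalIntegrable _ _)
        refine (ae_restrict_iff' measurableSet_Ioc).mpr (Eventually.of_forall fun θ₁ h1 => ?_)
        refine intervalIntegral.integral_nonneg (by norm_num) fun θ₂ h2 => ?_
        exact hin0 θ₁ ⟨h1.1.le, h1.2⟩ θ₂ h2

/-! ### sizes -/

lemma len_le {y : ℝ} (hy : 1 ≤ y) (n Rs J : ℕ) :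
    ∑ i ∈ range J, ((3 * KK n Rs i : ℕ) : ℝ) * Real.log (bb y i) ≤ 240 * (n * ((Rs:ℝ) + 1) * Real.log y) := by
  have h1 : ∀ i ∈ range J, ((3 * KK n Rs i : ℕ) : ℝ) * Real.log (bb y i) =
      120 * n * Real.log y * (((Rs:ℝ) + i) * (1 / 4) ^ i) := by
    intro i _
    rw [log_bb]
    unfold KK RR
    push_cast
    ring
  rw [sum_congr rfl h1, ← mul_sum]
  have h2 := geo_sum Rs J
  have h3 := Real.log_nonneg hy
  calc 120 * n * Real.log y * ∑ i ∈ range J, ((Rs:ℝ) + i) * (1 / 4) ^ i ≤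
      120 * n * Real.log y * (2 * ((Rs:ℝ) + 1)) := mul_le_mul_of_nonneg_left h2 (by positivity)
    _ = _ := by ring

lemma VV_nonneg (I : ℕ → Finset ℕ) (J : ℕ) : 0 ≤ VV I J := sum_nonneg fun _ _ => vI_nonneg _

lemma small {η A : ℝ} (hη : 0 < η) (hA : 0 < A) :
    ∀ᶠ T : ℝ in atTop, T ^ (-η) ≤ A / Real.log T := by
  have h1 := (isLittleO_log_rpow_atTop hη).def hA
  filter_upwards [h1, eventually_gt_atTop (3:ℝ), Real.tendsto_log_atTop.eventually_gt_atTop 1]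
    with T hT hT3 hL
  have hT0 : 0 < T := by linarith
  rw [Real.norm_eq_abs, Real.norm_eq_abs, abs_of_pos (by linarith), abs_of_nonneg (by positivity)] at hT
  rw [le_div_iff₀ (by linarith), Real.rpow_neg hT0.le, inv_mul_le_iff₀ (by positivity)]
  linarith

/-- the total variance is at most `log log T + c` -/
lemma VV_le {c e y η T : ℝ} {P₀ J n Rs : ℕ} {I : ℕ → Finset ℕ} (hC : Cfg c e P₀ y J I) (hn : 1 ≤ n)
    (_hη0 : 0 < η) (hη : η ≤ 1) (hT : 1 < Real.log T) (h : n * ((Rs:ℝ) + 1) * Real.log y ≤ η * Real.log T) :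
    VV I J ≤ Real.log (Real.log T) + c := by
  have hy := hC.y1
  have hly : 0 < Real.log y := Real.log_pos (by linarith)
  have h1 : Real.log y ≤ Real.log T := by
    have hn1 : (1:ℝ) ≤ n := by exact_mod_cast hn
    have hR : (0:ℝ) ≤ Rs := Nat.cast_nonneg _
    have h2 : 1 * Real.log y ≤ n * ((Rs:ℝ) + 1) * Real.log y := by
      refine mul_le_mul_of_nonneg_right ?_ hly.le
      nlinarith
    nlinarith
  have h2 : Real.log (Real.log y) ≤ Real.log (Real.log T) := Real.log_le_log hly h1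
  linarith [hC.vv]

lemma dbl_lin {g : ℝ → ℝ → ℝ} (hg : Continuous fun x : ℝ × ℝ => g x.1 x.2) (M e : ℝ) :
    (∫ θ₁ in (-1:ℝ)..1, ∫ θ₂ in (-1:ℝ)..1, (M * g θ₁ θ₂ + e)) =
      M * (∫ θ₁ in (-1:ℝ)..1, ∫ θ₂ in (-1:ℝ)..1, g θ₁ θ₂) + 4 * e := by
  have hc : Continuous fun θ₁ : ℝ => ∫ θ₂ in (-1:ℝ)..1, g θ₁ θ₂ :=
    intervalIntegral.continuous_parametric_intervalIntegral_of_continuous' hg _ _
  have h1 : ∀ θ₁ : ℝ, (∫ θ₂ in (-1:ℝ)..1, (M * g θ₁ θ₂ + e)) = M * (∫ θ₂ in (-1:ℝ)..1, g θ₁ θ₂) + 2 * e := by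
    intro θ₁
    have hc1 : Continuous fun θ₂ : ℝ => g θ₁ θ₂ := hg.comp (by fun_prop : Continuous fun y : ℝ => (θ₁, y))
    rw [intervalIntegral.integral_add ((hc1.const_mul M).intervalIntegrable _ _)
      (continuous_const.intervalIntegrable _ _), intervalIntegral.integral_const_mul,
      intervalIntegral.integral_const, smul_eq_mul]
    ring
  simp_rw [h1]
  rw [intervalIntegral.integral_add ((hc.const_mul M).intervalIntegrable _ _)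
      (continuous_const.intervalIntegrable _ _), intervalIntegral.integral_const_mul,
      intervalIntegral.integral_const, smul_eq_mul]
  ring

lemma exp_neg_le {V : ℝ} (hV : 0 ≤ V) : Real.exp (-V) ≤ (1 + V) ^ (-(1 / 2) : ℝ) := by
  have h1 : (1 + V) ^ (-1 : ℝ) ≤ (1 + V) ^ (-(1 / 2) : ℝ) :=
    Real.rpow_le_rpow_of_exponent_le (by linarith) (by norm_num)
  refine le_trans ?_ h1
  rw [Real.rpow_neg_one, Real.exp_neg]
  have := Real.add_one_le_exp V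
  exact inv_anti₀ (by linarith) (by linarith)

lemma exp_negV {V L c : ℝ} (hL : 0 < L) (hV : V ≤ Real.log L + c) : Real.exp (-c) / L ≤ Real.exp (-V) := by
  rw [div_le_iff₀ hL]
  calc Real.exp (-c) ≤ Real.exp (-V + Real.log L) := Real.exp_le_exp.mpr (by linarith)
    _ = Real.exp (-V) * L := by rw [Real.exp_add, Real.exp_log hL]

lemma WW_ge {V L c s : ℝ} (hV0 : 0 ≤ V) (hL : 0 < L) (hV : V ≤ Real.log L + c) (hs : -1 ≤ s) :
    (Real.exp (-c) / L) * (Real.exp (-c) / L) ≤ WW s V := by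
  unfold WW
  have h1 := exp_negV hL hV
  have h2 : Real.exp (-V) ≤ Real.exp (s * V) := Real.exp_le_exp.mpr (by nlinarith)
  exact mul_le_mul (h1.trans (exp_neg_le hV0)) (h1.trans h2) (by positivity) (by positivity)

lemma WW_ge0 {V L c s : ℝ} (hV0 : 0 ≤ V) (hL : 0 < L) (hV : V ≤ Real.log L + c) (hs : 0 ≤ s) :
    Real.exp (-c) / L ≤ WW s V := by
  unfold WW
  have h1 := exp_negV hL hV
  have h2 : 1 ≤ Real.exp (s * V) := Real.one_le_exp (by positivity)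
  calc Real.exp (-c) / L ≤ (1 + V) ^ (-(1 / 2) : ℝ) := h1.trans (exp_neg_le hV0)
    _ = (1 + V) ^ (-(1 / 2) : ℝ) * 1 := (mul_one _).symm
    _ ≤ _ := mul_le_mul_of_nonneg_left h2 (by positivity)

end

end Pool.Agent.TH986.LK_B
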