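import Pool.Agent.TH37.HG.Stmts2

set_option autoImplicit false

/-!
# `P1Stmt` (project HG of helper37, MP_364ede_al)

Port of `Pool/Agent/H53R2/LemmaD.lean` and `P1.lean` to `MT` in place of `UI.Mod`.
-/

namespace Pool.Agent.TH986.HGP1

open Pool.Agent.TH37.HG
open Pool.Agent.H53R2
open LaurentPolynomial
open scoped commutatorElement

section

variable {Q E M : Type} [Group Q] [AddCommGroup E] [DistribMulAction Q E] [AddCommGroup M]

/-- the universal identity as a relation between characters -/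
theorem C_relation' (u : UI) [DistribMulAction Q M] (hE : MT u Q E) (ι : Multiplicative M →* Q)
    (hι : ∀ (q : Q) (m : M), ι (Multiplicative.ofAdd (q • m)) =
        q * ι (Multiplicative.ofAdd m) * q⁻¹)
    (p : Fin u.n → ℤ[T;T⁻¹]) (l : Fin u.n → ℤ)
    (hpl : ∀ k, ∀ (m : M) (t : Q), FreeGroup.lift ![1, ι (Multiplicative.ofAdd m), t] (u.w k) =
        ι (Multiplicative.ofAdd (ev M t (p k) m)) * t ^ (l k)) (m v : M) (t : Q) (b : E) :
    ι (Multiplicative.ofAdd v) • b - ι (Multiplicative.ofAdd (m + v)) • b +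
      ∑ k, (u.e k • ι (Multiplicative.ofAdd (ev M t (p k + T (l k + u.i k)) m + t ^ (l k) • v)) •
        t ^ (l k) • b -
        u.e k • ι (Multiplicative.ofAdd (ev M t (p k) m + t ^ (l k) • v)) • t ^ (l k) • b) = 0 := by
  have h := hE (ι (Multiplicative.ofAdd m)) t (by
    intro i
    have h0 : t ^ i * ι (Multiplicative.ofAdd m) * t ^ (-i) = ι (Multiplicative.ofAdd (t ^ i • m)) := by
      rw [hι, zpow_neg]
    rw [h0, commutatorElement_eq_one_iff_mul_comm, ← map_mul ι, ← map_mul ι, mul_comm])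
    (ι (Multiplicative.ofAdd v) • b)
  rw [ofAdd_add, map_mul, mul_smul, h, ← Finset.sum_add_distrib]
  refine Finset.sum_eq_zero fun k _ => ?_
  rw [hpl k, smul_sub (_ * _ : Q), smul_sub, ev_add, ev_T, ofAdd_add, ofAdd_add, map_mul, map_mul,
    ofAdd_add, map_mul, hι, hι]
  simp only [← mul_smul]
  have e1 : ι (Multiplicative.ofAdd (ev M t (p k) m)) * t ^ l k * ι (Multiplicative.ofAdd v) =
    ι (Multiplicative.ofAdd (ev M t (p k) m)) * (t ^ l k * ι (Multiplicative.ofAdd v) * (t ^ l k)⁻¹) *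
      t ^ l k := by group
  have e2 : ι (Multiplicative.ofAdd (ev M t (p k) m)) * t ^ l k *
      (t ^ u.i k * ι (Multiplicative.ofAdd m) * t ^ (-u.i k) * ι (Multiplicative.ofAdd v)) =
    ι (Multiplicative.ofAdd (ev M t (p k) m)) *
      (t ^ (l k + u.i k) * ι (Multiplicative.ofAdd m) * (t ^ (l k + u.i k))⁻¹) *
      (t ^ l k * ι (Multiplicative.ofAdd v) * (t ^ l k)⁻¹) * t ^ l k := by
    rw [zpow_add]; group
  rw [e1, e2]
  abel

end

theorem lemmaD' (u : UI) : ∃ n : ℕ, 0 < n ∧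
    ∀ (Q E M : Type) [Group Q] [AddCommGroup E] [DistribMulAction Q E] [AddCommGroup M]
      [DistribMulAction Q M] (_ : MT u Q E) (ι : Multiplicative M →* Q)
      (_ : ∀ (q : Q) (m : M), ι (Multiplicative.ofAdd (q • m)) =
        q * ι (Multiplicative.ofAdd m) * q⁻¹) (z : Q) (𝔭 : Ideal ℤ[T;T⁻¹]) (_ : 𝔭.IsPrime)
      (X : AddSubgroup M) (_ : ∀ (s : ℤ[T;T⁻¹]), ∀ x ∈ X, ev M z s x ∈ X)
      (_ : ∀ g : ℤ[T;T⁻¹], g ∉ 𝔭 →
        ¬ ActNil {q : Q | ∃ x ∈ X, q = ι (Multiplicative.ofAdd (ev M z g x))} E),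
      T n - 1 ∈ 𝔭 := by
  classical
  choose p l hpl using fun k => word_eval (u.w k)
  let I := Bool ⊕ (Fin u.n × Bool)
  let a : I → ℤ := Sum.elim (fun b => if b then -1 else 1)
    (fun kb => if kb.2 then u.e kb.1 else -u.e kb.1)
  let s : I → ℤ[T;T⁻¹] := Sum.elim (fun b => if b then 1 else 0)
    (fun kb => if kb.2 then p kb.1 + T (l kb.1 + u.i kb.1) else p kb.1)
  let L : I → ℤ := Sum.elim (fun _ => 0) (fun kb => l kb.1)
  obtain ⟨n, hn, hroots⟩ := roots
    ((Finset.univ.image fun ij : I × I => s ij.1 - s ij.2) ∪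
      (Finset.univ.image fun i : I => T (L i) - 1))
  refine ⟨n, hn, ?_⟩
  intro Q E M _ _ _ _ _ hE ι hι z 𝔭 h𝔭 X hX hact
  apply hroots 𝔭 h𝔭
  intro α hα
  by_contra hcon
  push Not at hcon
  set t : Q := z ^ (α : ℤ) with ht
  have h1 : C (1 : ℤ) ∉ 𝔭 := by
    rw [map_one]; exact (Ideal.ne_top_iff_one 𝔭).1 h𝔭.ne_top
  -- the special terms
  let N : Finset I := Finset.univ.filter (fun i => L i = 0 ∧ C ((s i).coeff 0) ∈ 𝔭)
  have hN : ∀ i, i ∈ N ↔ L i = 0 ∧ C ((s i).coeff 0) ∈ 𝔭 := by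
    intro i; simp [N]
  have hsumN : ∑ i ∈ N, a i = 1 := by
    rw [Finset.sum_filter, Fintype.sum_sum_type, Fintype.sum_bool, Fintype.sum_prod_type]
    have e1 : (if L (Sum.inl true) = 0 ∧ C ((s (Sum.inl true)).coeff 0) ∈ 𝔭
        then a (Sum.inl true) else 0) = 0 := by
      rw [if_neg]
      rintro ⟨_, h⟩
      have : (s (Sum.inl true)).coeff 0 = 1 := by
        show (1 : ℤ[T;T⁻¹]).coeff 0 = 1
        rw [← T_zero, T_apply, if_pos rfl]
      rw [this] at h
      exact h1 h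
    have e2 : (if L (Sum.inl false) = 0 ∧ C ((s (Sum.inl false)).coeff 0) ∈ 𝔭
        then a (Sum.inl false) else 0) = 1 := by
      rw [if_pos]
      · rfl
      · refine ⟨rfl, ?_⟩
        have : (s (Sum.inl false)).coeff 0 = 0 := rfl
        rw [this, map_zero]
        exact 𝔭.zero_mem
    rw [e1, e2, Finset.sum_eq_zero, zero_add, add_zero]
    intro k _
    rw [Fintype.sum_bool]
    by_cases hl : l k = 0
    · have e3 : (s (Sum.inr (k, true))).coeff 0 = (s (Sum.inr (k, false))).coeff 0 := by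
        show (p k + T (l k + u.i k)).coeff 0 = (p k).coeff 0
        have : (T (l k + u.i k) : ℤ[T;T⁻¹]).coeff 0 = 0 := by
          rw [T_apply, if_neg]
          rw [hl, zero_add]
          exact u.hi k
        rw [AddMonoidAlgebra.coeff_add, Finsupp.add_apply, this, add_zero]
      rw [e3]
      have e4 : L (Sum.inr (k, true)) = L (Sum.inr (k, false)) := rfl
      rw [e4]
      by_cases hc : L (Sum.inr (k, false)) = 0 ∧ C ((s (Sum.inr (k, false))).coeff 0) ∈ 𝔭
      · rw [if_pos hc, if_pos hc]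
        show u.e k + -u.e k = 0
        ring
      · rw [if_neg hc, if_neg hc, add_zero]
    · rw [if_neg (fun h => hl h.1), if_neg (fun h => hl h.1), add_zero]
  -- the separating polynomials
  let g : I → I → ℤ[T;T⁻¹] := fun i j => if L j = 0 then s i - s j else T (L j) - 1
  let G : I → I → ℤ[T;T⁻¹] := fun i j => psi α (g i j)
  have hG : ∀ i ∈ N, ∀ j ∈ Nᶜ, G i j ∉ 𝔭 := by
    intro i hi j hj
    rw [hN] at hi
    rw [Finset.mem_compl, hN] at hj
    by_cases hLj : L j = 0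
    · have hg : g i j = s i - s j := if_pos hLj
      refine hcon (g i j) ?_ ⟨0, ?_⟩
      · rw [hg]
        exact Finset.mem_union_left _ (Finset.mem_image_of_mem _ (Finset.mem_univ (i, j)))
      · rw [hg, AddMonoidAlgebra.coeff_sub, Finsupp.sub_apply, map_sub]
        intro h
        refine hj ⟨hLj, ?_⟩
        have := 𝔭.sub_mem hi.2 h
        rwa [sub_sub_cancel] at this
    · have hg : g i j = T (L j) - 1 := if_neg hLj
      refine hcon (g i j) ?_ ⟨L j, ?_⟩
      · rw [hg]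
        exact Finset.mem_union_right _ (Finset.mem_image_of_mem _ (Finset.mem_univ j))
      · rw [hg, AddMonoidAlgebra.coeff_sub, Finsupp.sub_apply, T_apply, if_pos rfl, ← T_zero,
          T_apply, if_neg (fun h => hLj h.symm), sub_zero]
        exact h1
  let g₀ : ℤ[T;T⁻¹] := ∏ ij ∈ N ×ˢ Nᶜ, G ij.1 ij.2
  have hg₀ : g₀ ∉ 𝔭 := by
    intro h
    obtain ⟨ij, hij, h2⟩ := (h𝔭.prod_mem_iff).1 h
    rw [Finset.mem_product] at hij
    exact hG _ hij.1 _ hij.2 h2
  refine hact g₀ hg₀ (C_core ι z α a s L N ?_ (fun i hi => ((hN i).1 hi).1) hsumN G ?_ ?_ X hX)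
  · intro m v b
    have h := C_relation' u hE ι hι p l (fun k m t => hpl k Q M ι hι m t) m v t b
    rw [Fintype.sum_sum_type, Fintype.sum_bool, Fintype.sum_prod_type]
    rw [← h]
    congr 1
    · show (-1 : ℤ) • ι (Multiplicative.ofAdd (ev M t 1 m + t ^ (0 : ℤ) • v)) • t ^ (0 : ℤ) • b +
        (1 : ℤ) • ι (Multiplicative.ofAdd (ev M t 0 m + t ^ (0 : ℤ) • v)) • t ^ (0 : ℤ) • b = _
      rw [ev_one, ev_zero, zpow_zero, one_smul, one_smul, zero_add, neg_smul, one_smul, one_smul]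
      abel
    · refine Finset.sum_congr rfl fun k _ => ?_
      rw [Fintype.sum_bool]
      show u.e k • ι (Multiplicative.ofAdd (ev M t (p k + T (l k + u.i k)) m + t ^ (l k) • v)) •
        t ^ (l k) • b +
        (-u.e k) • ι (Multiplicative.ofAdd (ev M t (p k) m + t ^ (l k) • v)) • t ^ (l k) • b = _
      rw [neg_smul, ← sub_eq_add_neg]
  · intro i j hj
    show psi α (g i j) = _
    congr 1
    exact if_pos hj
  · intro i j hj
    show psi α (g i j) = _
    congr 1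
    exact if_neg hj

theorem p1 : P1Stmt := by
  intro u
  obtain ⟨n, hn, hD⟩ := lemmaD' u
  refine ⟨n, hn, ?_⟩
  intro Q E M _ _ _ _ _ hE hN ι hinj hι Q₁ _ _ z hz
  by_contra hnot
  have hnoe := D_noeth
  set g : ℤ[T;T⁻¹] := T n - 1 with hg
  let J : Ideal ℤ[T;T⁻¹] := RingHom.ker (ev M z)
  have hJ : ∀ f, f ∈ J ↔ ∀ e : M, ev M z f e = 0 := by
    intro f
    rw [RingHom.mem_ker]
    constructor
    · intro h e; rw [h]; rfl
    · intro h; ext e; exact h e
  have hgJ : ∀ h : ℕ, g ^ h ∉ J := by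
    intro h hmem
    apply hnot
    refine ⟨h, ?_⟩
    rw [eq_top_iff]
    intro e _
    rw [D_mem_Zn]
    exact (hJ _).1 hmem e
  let Ann : ℤ[T;T⁻¹] → Ideal ℤ[T;T⁻¹] := fun r =>
    Submodule.comap (LinearMap.mulRight ℤ[T;T⁻¹] r) J
  have hAnn : ∀ r s, s ∈ Ann r ↔ s * r ∈ J := fun r s => Iff.rfl
  obtain ⟨𝔭, ⟨r, hr, hpr⟩, hmax⟩ := (inferInstance : WellFoundedGT (Ideal ℤ[T;T⁻¹])).wf.has_min
    {I | ∃ r, (∀ h : ℕ, g ^ h * r ∉ J) ∧ I = Ann r}
    ⟨Ann 1, 1, by simpa using hgJ, rfl⟩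
  have hmem𝔭 : ∀ s, s ∈ 𝔭 ↔ s * r ∈ J := by intro s; rw [hpr]; exact hAnn r s
  -- maximality
  have hmax' : ∀ c : ℤ[T;T⁻¹], (∀ h : ℕ, g ^ h * (c * r) ∉ J) → ∀ s, s * (c * r) ∈ J → s ∈ 𝔭 := by
    intro c hc s hs
    have hle : 𝔭 ≤ Ann (c * r) := by
      intro s' hs'
      rw [hmem𝔭] at hs'
      rw [hAnn, mul_left_comm]
      exact J.mul_mem_left c hs'
    have hnlt := hmax (Ann (c * r)) ⟨c * r, hc, rfl⟩
    have heq : Ann (c * r) = 𝔭 := by
      by_contra hne
      exact hnlt (lt_of_le_of_ne hle (Ne.symm hne))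
    rw [← heq]
    exact hs
  have hprime : 𝔭.IsPrime := by
    refine ⟨?_, ?_⟩
    · rw [Ideal.ne_top_iff_one, hmem𝔭]
      have := hr 0
      rwa [pow_zero] at this
    · intro a b hab
      by_cases hc : ∀ h : ℕ, g ^ h * (a * r) ∉ J
      · right
        apply hmax' a hc
        rw [hmem𝔭] at hab
        rwa [← mul_assoc, mul_comm b a]
      · left
        push Not at hc
        obtain ⟨h, hh⟩ := hc
        apply hmax' (g ^ h)
        · intro h'
          rw [← mul_assoc, ← pow_add]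
          exact hr _
        · rwa [mul_left_comm]
  let X : AddSubgroup M :=
    { carrier := {x | ∃ m : M, x = ev M z r m}
      zero_mem' := ⟨0, by rw [map_zero]⟩
      add_mem' := by
        rintro _ _ ⟨a, rfl⟩ ⟨b, rfl⟩
        exact ⟨a + b, by rw [map_add]⟩
      neg_mem' := by
        rintro _ ⟨a, rfl⟩
        exact ⟨-a, by rw [map_neg]⟩ }
  have hX : ∀ (s : ℤ[T;T⁻¹]), ∀ x ∈ X, ev M z s x ∈ X := by
    rintro s _ ⟨m, rfl⟩
    refine ⟨ev M z s m, ?_⟩
    rw [← ev_mul, ← ev_mul, mul_comm]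
  have hfin : g ∈ 𝔭 := by
    refine hD Q E M hE ι hι z 𝔭 hprime X hX ?_
    intro g' hg' hact
    apply hg'
    have h1 := D_closure ι hι Q₁ _ (by
      rintro _ ⟨x, _, rfl⟩
      exact ⟨_, rfl⟩) (by
      rintro q hq _ ⟨_, ⟨m, rfl⟩, rfl⟩
      have hz' : ∀ e : M, z • q • e = q • z • e := hz q hq
      refine ⟨ev M z r (q • m), ⟨_, rfl⟩, ?_⟩
      rw [ev_commute z q hz', ev_commute z q hz', hι]) hact
    have h2 := hN _ Subgroup.normalClosure_normal h1
    rw [hmem𝔭, hJ]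
    intro m
    have h3 : ι (Multiplicative.ofAdd (ev M z g' (ev M z r m))) ∈ (⊥ : Subgroup Q) := by
      rw [← h2]
      exact Subgroup.subset_normalClosure ⟨_, ⟨m, rfl⟩, rfl⟩
    rw [Subgroup.mem_bot] at h3
    have h4 := hinj (h3.trans (map_one ι).symm)
    rw [ev_mul]
    exact h4
  have := (hmem𝔭 g).1 hfin
  apply hr 1
  rwa [pow_one]
end Pool.Agent.TH986.HGP1
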