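import Pool.Agent.TH37.HG.Stmts2

set_option autoImplicit false

/-!
# `StepStmt` (project HG of helper37, MP_364ede_al)

Port of `Pool/Agent/H53R2/Step.lean` to `UIc`, `UIm`.
-/

namespace Pool.Agent.TH986.HGStep

open Pool.Agent.TH37.HG
open Pool.Agent.H53R2 (InVar Lw MaxN VN VNil UI SecMod ActNil Lw_succ Lw_zero Lw_le Lw_mono Lw_anti
  Lw_add Lw_comap_le exists_secMod)
open scoped commutatorElement

/-- elements of `Y` which agree modulo `X` have the same image in the section module -/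
theorem rep_eq_of_quot {G Q E : Type} [Group G] [Group Q] [AddCommGroup E] [DistribMulAction Q E]
    {p : G →* Q} {X Y : Subgroup G} [X.Normal] (s : SecMod p X Y E) {g h : G} {e f : E}
    (hg : s.rep g e) (hh : s.rep h f)
    (hgh : (QuotientGroup.mk' X) g = (QuotientGroup.mk' X) h) : e = f := by
  have h1 := SecMod.rep_mul hg (SecMod.rep_inv hh)
  obtain ⟨h2, h3⟩ := h1
  have h4 : g * h⁻¹ ∈ X := by
    rw [← QuotientGroup.ker_mk' X, MonoidHom.mem_ker, map_mul, map_inv, hgh, mul_inv_cancel]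
  have h5 := (s.ker ⟨g * h⁻¹, h2⟩).mpr h4
  rw [h3] at h5
  have h6 : e + -f = 0 := Multiplicative.ofAdd.injective h5
  rwa [← sub_eq_add_neg, sub_eq_zero] at h6

/-- the image of the right hand side of the universal identity under a homomorphism -/
theorem map_rhs {G H : Type} [Group G] [Group H] (f : G →* H) (v : UI) (y m t : G) :
    f (List.ofFn fun k : Fin v.n =>
      FreeGroup.lift ![y, m, t] (v.w k) * ⁅y, t ^ (v.i k) * m * t ^ (-(v.i k))⁆ ^ (v.e k) *
        (FreeGroup.lift ![y, m, t] (v.w k))⁻¹).prod =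
    (List.ofFn fun k : Fin v.n =>
      FreeGroup.lift ![f y, f m, f t] (v.w k) *
        ⁅f y, f t ^ (v.i k) * f m * f t ^ (-(v.i k))⁆ ^ (v.e k) *
        (FreeGroup.lift ![f y, f m, f t] (v.w k))⁻¹).prod := by
  rw [map_list_prod, List.map_ofFn]
  congr 2
  funext k
  have h5 : f.comp (FreeGroup.lift ![y, m, t]) = FreeGroup.lift ![f y, f m, f t] := by
    apply FreeGroup.ext_hom
    intro i
    rw [MonoidHom.comp_apply, FreeGroup.lift_apply_of, FreeGroup.lift_apply_of]
    fin_cases i <;> rfl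
  rw [← h5]
  simp only [Function.comp_apply, map_mul, map_zpow, map_inv, map_commutatorElement,
    MonoidHom.comp_apply]

theorem mt_secMod (W : Set (FreeGroup ℕ)) (v : UI) (hv : UIm W v)
    {G Q E : Type} [Group G] [Group Q] [AddCommGroup E] [DistribMulAction Q E]
    (hG : InVar W G)
    {p : G →* Q} (hp : Function.Surjective p) {X Y : Subgroup G} [X.Normal] [Y.Normal]
    (s : SecMod p X Y E) (hY : Y ≤ p.ker) (hX : ⁅Y, p.ker⁆ ≤ X) : MT v Q E := by
  intro m t hmt b
  obtain ⟨m', rfl⟩ := hp m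
  obtain ⟨t', rfl⟩ := hp t
  obtain ⟨y, hy⟩ := s.exists_rep b
  have h1 := SecMod.rep_comm hy m'
  have h2 : ∀ k : Fin v.n, s.rep (FreeGroup.lift ![y, m', t'] (v.w k) *
      ⁅y, t' ^ (v.i k) * m' * t' ^ (-(v.i k))⁆ ^ (v.e k) *
      (FreeGroup.lift ![y, m', t'] (v.w k))⁻¹)
      (v.e k • (FreeGroup.lift ![1, p m', p t'] (v.w k) •
      (b - (p t' ^ (v.i k) * p m' * p t' ^ (-(v.i k))) • b))) := by
    intro k
    have h3 := SecMod.rep_conj (SecMod.rep_zpow (SecMod.rep_comm hy
      (t' ^ (v.i k) * m' * t' ^ (-(v.i k)))) (v.e k)) (FreeGroup.lift ![y, m', t'] (v.w k))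
    have h4 : p (FreeGroup.lift ![y, m', t'] (v.w k)) =
        FreeGroup.lift ![1, p m', p t'] (v.w k) := by
      have h5 : p.comp (FreeGroup.lift ![y, m', t']) = FreeGroup.lift ![1, p m', p t'] := by
        apply FreeGroup.ext_hom
        intro i
        rw [MonoidHom.comp_apply, FreeGroup.lift_apply_of, FreeGroup.lift_apply_of]
        fin_cases i
        · exact hY hy.1
        · rfl
        · rfl
      rw [← h5]; rfl
    rw [h4, map_mul, map_mul, map_zpow, map_zpow, smul_comm] at h3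
    exact h3
  have h6 := SecMod.rep_prod _ _ h2
  refine rep_eq_of_quot s h1 h6 ?_
  -- the identity in `G ⧸ X`
  let π : G →* G ⧸ X := QuotientGroup.mk' X
  have hπ : Function.Surjective π := QuotientGroup.mk'_surjective X
  have hkerπ : ∀ {g : G}, g ∈ X → π g = 1 := fun {g} hg => (QuotientGroup.eq_one_iff g).2 hg
  have hYn : (Y.map π).Normal := Subgroup.Normal.map inferInstance π hπ
  have hYab : ⁅Y.map π, Y.map π⁆ = ⊥ := by
    rw [← Subgroup.map_commutator, eq_bot_iff]
    rintro _ ⟨x, hx, rfl⟩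
    exact hkerπ (hX (Subgroup.commutator_mono le_rfl hY hx))
  have hcen : ∀ i : ℤ, ∀ d ∈ Y.map π, ⁅⁅π m', π t' ^ i * π m' * π t' ^ (-i)⁆, d⁆ = 1 := by
    rintro i _ ⟨x, hx, rfl⟩
    have h7 : ⁅m', t' ^ i * m' * t' ^ (-i)⁆ ∈ p.ker := by
      rw [MonoidHom.mem_ker, map_commutatorElement, map_mul, map_mul, map_zpow, map_zpow]
      exact hmt i
    have h8 : ⁅⁅m', t' ^ i * m' * t' ^ (-i)⁆, x⁆ ∈ X := by
      have h9 : ⁅x, ⁅m', t' ^ i * m' * t' ^ (-i)⁆⁆ ∈ X :=
        hX (Subgroup.commutator_mem_commutator hx h7)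
      have h10 := X.inv_mem h9
      rwa [commutatorElement_inv] at h10
    have h11 := hkerπ h8
    rw [map_commutatorElement, map_commutatorElement, map_mul, map_mul, map_zpow, map_zpow] at h11
    exact h11
  have h12 : At v (π y) (π m') (π t') :=
    hv (G ⧸ X) (hG.quot X) (Y.map π) hYn hYab (π y) ⟨y, hy.1, rfl⟩ (π m') (π t') hcen
  show π ⁅y, m'⁆ = π _
  rw [map_rhs π v y m' t', map_commutatorElement]
  exact h12

theorem mt_prod {v : UI} {Q E F : Type} [Group Q] [AddCommGroup E] [DistribMulAction Q E]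
    [AddCommGroup F] [DistribMulAction Q F] (hE : MT v Q E) (hF : MT v Q F) :
    MT v Q (E × F) := by
  intro m t hmt b
  apply Prod.ext
  · have := hE m t hmt b.1
    rw [Prod.fst_sum]
    exact this
  · have := hF m t hmt b.2
    rw [Prod.snd_sum]
    exact this

/-- the product of the sections of a descending series -/
theorem exists_prod_mt (W : Set (FreeGroup ℕ)) (v : UI) (hv : UIm W v) {G Q : Type} [Group G]
    [Group Q] (p : G →* Q)
    (hp : Function.Surjective p) (hG : InVar W G) (D : ℕ → Subgroup G)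
    (hD : ∀ i, (D i).Normal) (hDker : ∀ i, D i ≤ p.ker)
    (hDD : ∀ i, ⁅D i, p.ker⁆ ≤ D (i + 1)) (r : ℕ) :
    ∃ (E : Type) (_ : AddCommGroup E) (_ : DistribMulAction Q E), MT v Q E ∧
      ∀ M : Subgroup Q, ActNil (M : Set Q) E → ∀ i < r, ∃ k, Lw (M.comap p) k (D i) ≤ D (i + 1) := by
  induction r with
  | zero =>
    let act : DistribMulAction Q PUnit.{1} :=
      { smul := fun _ e => e
        one_smul := fun _ => rfl
        mul_smul := fun _ _ _ => rfl
        smul_zero := fun _ => rfl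
        smul_add := fun _ _ _ => rfl }
    exact ⟨PUnit, inferInstance, act, fun _ _ _ _ => Subsingleton.elim _ _,
      fun M _ i hi => (Nat.not_lt_zero i hi).elim⟩
  | succ r ih =>
    obtain ⟨E, _, _, hE, hE2⟩ := ih
    have := hD r
    have := hD (r + 1)
    obtain ⟨F, _, _, ⟨s⟩⟩ := exists_secMod p hp (D (r + 1)) (D r)
      ((Subgroup.commutator_mono le_rfl (hDker r)).trans (hDD r)) (hDD r)
    refine ⟨E × F, inferInstance, inferInstance,
      mt_prod hE (mt_secMod W v hv hG hp s (hDker r) (hDD r)), ?_⟩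
    intro M hM i hi
    rcases Nat.lt_succ_iff_lt_or_eq.mp hi with hi | rfl
    · refine hE2 M ?_ i hi
      exact hM.map (AddMonoidHom.fst E F) Prod.fst_surjective (fun _ _ => rfl)
    · obtain ⟨k, hk⟩ := hM.map (AddMonoidHom.snd E F) Prod.snd_surjective (fun _ _ => rfl)
      exact ⟨k, s.lw_le M k hk⟩

theorem step' (hB : B1Stmt) : StepStmt := by
  intro W u v hu hv G _ _ hG D _ hD hmax hvn
  classical
  -- a maximal normal subgroup containing `D` and acting nilpotently on `D`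
  obtain ⟨U, hU1, hDU, ⟨r, hr⟩, hUmax⟩ : ∃ U : Subgroup G, U.Normal ∧ D ≤ U ∧
      (∃ k, Lw U k D = ⊥) ∧ ∀ U' : Subgroup G, U'.Normal → U ≤ U' → (∃ k, Lw U' k D = ⊥) →
        U' ≤ U := by
    obtain ⟨V, hV, hVmax⟩ := hmax.exists_max
      (fun V => V.Normal ∧ ∃ k, Lw (V.comap (QuotientGroup.mk' D)) k D = ⊥)
      (fun V hV => hV.1) ⟨⊥, inferInstance, 1, by
        rw [Lw_succ, Lw_zero]
        rw [MonoidHom.comap_bot, QuotientGroup.ker_mk', hD]⟩
    refine ⟨V.comap (QuotientGroup.mk' D), hV.1.comap _, ?_, hV.2, ?_⟩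
    · intro x hx
      rw [Subgroup.mem_comap, QuotientGroup.mk'_apply, (QuotientGroup.eq_one_iff x).2 hx]
      exact one_mem _
    · intro U' hU' hle hk
      have hDU' : D ≤ U' := le_trans (by
        intro x hx
        rw [Subgroup.mem_comap, QuotientGroup.mk'_apply, (QuotientGroup.eq_one_iff x).2 hx]
        exact one_mem _) hle
      have hc : (U'.map (QuotientGroup.mk' D)).comap (QuotientGroup.mk' D) = U' := by
        rw [Subgroup.comap_map_eq, QuotientGroup.ker_mk', sup_eq_left.2 hDU']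
      have h1 := hVmax (U'.map (QuotientGroup.mk' D))
        ⟨hU'.map _ (QuotientGroup.mk'_surjective D), by rw [hc]; exact hk⟩ (by
          rw [← Subgroup.map_comap_eq_self_of_surjective (QuotientGroup.mk'_surjective D) V]
          exact Subgroup.map_mono hle)
      rw [← h1, hc]
  have := hU1
  let p : G →* G ⧸ U := QuotientGroup.mk' U
  have hp : Function.Surjective p := QuotientGroup.mk'_surjective U
  have hker : p.ker = U := QuotientGroup.ker_mk' U
  -- the quotient `G/U` is a quotient of `G/D`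
  let q : G ⧸ D →* G ⧸ U := QuotientGroup.map D U (MonoidHom.id G) (by
    rw [Subgroup.comap_id]; exact hDU)
  have hq : Function.Surjective q := by
    intro x
    obtain ⟨g, rfl⟩ := QuotientGroup.mk_surjective x
    exact ⟨QuotientGroup.mk g, rfl⟩
  have hmaxQ : MaxN (G ⧸ U) := hmax.of_surjective q hq
  have hvnQ : VN (G ⧸ U) := hvn.of_surjective q hq
  have hGQ : InVar W (G ⧸ U) := hG.quot U
  obtain ⟨E, _, _, hE, hEN⟩ := exists_prod_mt W v hv p hp hG (fun i => Lw U i D)
    (fun i => inferInstance) (fun i => by rw [hker]; exact (Lw_le U D i).trans hDU)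
    (fun i => by rw [hker, Lw_succ]) r
  have hN : ∀ N : Subgroup (G ⧸ U), N.Normal → ActNil (N : Set (G ⧸ U)) E → N = ⊥ := by
    intro N hN1 hN2
    have h1 := hEN N hN2
    have h2 : ∀ i ≤ r, ∃ k, Lw (N.comap p) k D ≤ Lw U i D := by
      intro i
      induction i with
      | zero => intro _; exact ⟨0, le_rfl⟩
      | succ i ih =>
        intro hi
        obtain ⟨k, hk⟩ := ih (by omega)
        obtain ⟨l, hl⟩ := h1 i (by omega)
        refine ⟨l + k, ?_⟩
        rw [Lw_add]
        exact (Lw_mono le_rfl hk l).trans hl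
    obtain ⟨k, hk⟩ := h2 r le_rfl
    rw [hr, le_bot_iff] at hk
    have h3 := hUmax (N.comap p) (hN1.comap p) (by
      intro x hx
      rw [Subgroup.mem_comap]
      have : p x = 1 := (QuotientGroup.eq_one_iff x).2 hx
      rw [this]; exact one_mem _) ⟨k, hk⟩
    rw [eq_bot_iff]
    intro x hx
    obtain ⟨g, rfl⟩ := hp x
    rw [Subgroup.mem_bot]
    exact (QuotientGroup.eq_one_iff g).2 (h3 hx)
  obtain ⟨Q₁, hQ1, hQ2, m, hm⟩ := hB W u v hu (G ⧸ U) E hGQ hmaxQ hvnQ hE hN
  obtain ⟨H₁, hH1, hH2, m₀, c₀, hc₀⟩ := hvn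
  set G₂ := Q₁.comap p with hG2
  set G₀ := H₁.comap (QuotientGroup.mk' D) with hG0
  have : G₂.Normal := hQ1.comap p
  have : G₀.Normal := hH1.comap _
  have : G₂.FiniteIndex := by
    constructor
    rw [hG2, Subgroup.index_comap_of_surjective _ hp]
    exact hQ2.index_ne_zero
  have : G₀.FiniteIndex := by
    constructor
    rw [hG0, Subgroup.index_comap_of_surjective _ (QuotientGroup.mk'_surjective D)]
    exact hH2.index_ne_zero
  have e2 : Lw G₂ m G₂ ≤ U := by
    refine (Lw_comap_le p Q₁ m Q₁).trans ?_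
    rw [hm, MonoidHom.comap_bot, hker]
  have e0 : Lw (Lw G₀ m₀ G₀) c₀ (Lw G₀ m₀ G₀) ≤ D := by
    have h1 : Lw G₀ m₀ G₀ ≤ (Lw H₁ m₀ H₁).comap (QuotientGroup.mk' D) :=
      Lw_comap_le (QuotientGroup.mk' D) H₁ m₀ H₁
    refine (Lw_mono h1 h1 c₀).trans ((Lw_comap_le _ _ _ _).trans ?_)
    rw [hc₀, MonoidHom.comap_bot, QuotientGroup.ker_mk']
  refine ⟨G₀ ⊓ G₂, inferInstance, inferInstance, max m m₀, r + c₀, ?_⟩
  set N := Lw (G₀ ⊓ G₂) (max m m₀) (G₀ ⊓ G₂) with hNdef
  have n1 : N ≤ Lw G₀ m₀ G₀ :=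
    (Lw_anti _ _ (le_max_right m m₀)).trans (Lw_mono inf_le_left inf_le_left m₀)
  have n2 : N ≤ U :=
    ((Lw_anti _ _ (le_max_left m m₀)).trans (Lw_mono inf_le_right inf_le_right m)).trans e2
  rw [Lw_add, eq_bot_iff, ← hr]
  exact Lw_mono n2 ((Lw_mono n1 n1 c₀).trans e0) r

end Pool.Agent.TH986.HGStep
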