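import Pool.Agent.TH986.LK_B

set_option autoImplicit false

/-! JOB LB of the LK project (helper806): the lower bound for the twisted first moment. -/

namespace Pool.Agent.TH986.LK_LB

open Finset Filter Topology MeasureTheory
open Pool.Agent.W184.NZ
open Pool.Agent.TH806
open Pool.Agent.TH806.LK
open Pool.Agent.TH986.LK_B
open Pool.Agent.H306R2.SM (om cl Yf)
open Pool.Agent.H262R4.TM (Rng Ck)

/-- the first moment weight is integrable -/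
lemma omz_int {κ : ℕ} {T : ℝ} (hδ : 0 < (κ:ℝ) / T) :
    Integrable (fun t => ((om κ (κ / T) t : ℝ) : ℂ) * riemannZeta (cl t)) (volume.restrict (Set.Ioi 0)) := by
  have h1 : IntegrableOn (fun t => om κ (κ / T) t * Xz t) (Set.Ioi 0) :=
    om_poly_int hδ Xz_cont (C := 24) 2 fun t ht => by
      rw [abs_of_nonneg (Xz_nonneg t)]; exact Xz_le ht
  have hc1 : Continuous fun t => om κ ((κ:ℝ) / T) t := Pool.Agent.H262R4.TM.TTW.om_cont κ _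
  have hc2 : Continuous fun t : ℝ => riemannZeta (cl t) := Pool.Agent.H262R4.TM.TTW.zeta_cont
  refine Integrable.mono' h1 ((Complex.continuous_ofReal.comp hc1).mul hc2).aestronglyMeasurable ?_
  refine (ae_restrict_iff' measurableSet_Ioi).mpr (Eventually.of_forall fun t ht => ?_)
  rw [norm_mul, Complex.norm_real, Real.norm_eq_abs]
  have h0 : 0 ≤ om κ ((κ:ℝ) / T) t := by
    have : (0:ℝ) < t := ht
    unfold om
    positivity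
  rw [abs_of_nonneg h0]
  exact le_of_eq rfl

theorem t_LB (hA : P_ALG) (hL : P_LAW) (hP : P_PRD) (h1 : P_AV1) : P_LB := by
  intro n c hn hc
  have hn0 : (1:ℝ) ≤ n := by exact_mod_cast hn
  obtain ⟨P₀, C, hP144, hC1, hLaw⟩ := hL (8 * n + 8) (by linarith)
  obtain ⟨C₃, hC3, e₀, he0, R₀, hprd⟩ := hP n c C hn hc
  refine ⟨P₀, R₀, 1 / 64, min e₀ 1, 1 / 24000, by norm_num, lt_min he0 one_pos, min_le_right _ _,
    by norm_num, fun Rs hR0 hRs => ?_⟩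
  filter_upwards [h1, small (show (0:ℝ) < 1 / 2 by norm_num) (show 0 < Real.exp (-c) / 128 by positivity),
    Real.tendsto_log_atTop.eventually_gt_atTop 1, eventually_gt_atTop (3:ℝ)]
    with T hT hsm hLT hT3 κ hκ y J I hCfg hlen k hk
  have hI : ∀ i, ∀ p ∈ I i, p.Prime := fun i p hp => (hCfg.rg.pr i p hp).1
  have hIP : ∀ i, ∀ p ∈ I i, p.Prime ∧ P₀ ≤ p := fun i p hp => ⟨hI i p hp, hCfg.P i p hp⟩
  choose ν hν using fun i => (hLaw (I i) (hIP i)).2.2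
  have hT0 : 0 < T := by linarith
  have hL0 : 0 < Real.log T := by linarith
  have hk0 : (0:ℝ) < κ := by
    have := hκ.1
    nlinarith
  have hδ : 0 < (κ:ℝ) / T := by positivity
  have hV0 : 0 ≤ VV I J := VV_nonneg I J
  have hVl : VV I J ≤ Real.log (Real.log T) + c := VV_le hCfg hn (by norm_num) (by norm_num) hLT hlen
  have hlen2 : ∑ i ∈ range J, ((3 * KK n Rs i : ℕ) : ℝ) * Real.log (bb y i) ≤ 1 / 100 * Real.log T := by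
    refine (len_le (by linarith [hCfg.y1]) n Rs J).trans ?_
    linarith
  have hkn : |k| ≤ n := by linarith
  have hkn1 : |k - 1| ≤ n := by
    have := abs_sub k 1
    rw [abs_one] at this
    linarith
  set V := VV I J with hV
  -- the inner integral
  have hin : ∀ θ₁ θ₂ : ℝ, |θ₁| ≤ 1 → |θ₂| ≤ 1 →
      ‖Complex.exp (-(((θ₁ + θ₂) * (k * V) : ℝ) : ℂ) * Complex.I) *
        (∫ t in Set.Ioi (0:ℝ), ((om κ (κ / T) t : ℝ) : ℂ) *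
        (riemannZeta (cl t) * ∏ i ∈ range J, BF (KK n Rs i) (k - 1) k θ₁ θ₂ (zz I t i))) -
        ((Real.exp (k ^ 2 * V) * Real.exp (-((θ₁ + θ₂) ^ 2 / 4 * V)) : ℝ) : ℂ)‖ ≤
        1 / 4 * (Real.exp (k ^ 2 * V) * Real.exp (-((θ₁ + θ₂) ^ 2 / 4 * V))) + T ^ (-(1 / 2) : ℝ) := by
    intro θ₁ θ₂ h1 h2
    have hb := hT κ hκ c (8 * n + 8) C J I (bb y) (fun i => 3 * KK n Rs i)
      (fun i => BF (KK n Rs i) (k - 1) k θ₁ θ₂) ν hCfg.rg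
      (fun i _ => hν i) (fun i _ => by
        have hKn : n + 1 ≤ KK n Rs i := by
          unfold KK RR
          nlinarith [Nat.zero_le i, Nat.zero_le (n * i), Nat.mul_le_mul hn hRs]
        obtain ⟨q1, _, _, _, _, _⟩ := hA.2.2.2 n (KK n Rs i) 1 (k - 1) k θ₁ θ₂ hn hKn le_rfl hkn1 hkn h1 h2
        refine ⟨by omega, hA.1 _ _ _ (by positivity) ?_ q1⟩
        have : ((n + 1 : ℕ) : ℝ) ≤ KK n Rs i := by exact_mod_cast hKn
        push_cast at this ⊢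
        linarith) hlen2
    obtain ⟨ε, hε, hpr⟩ := (hprd J Rs I (bb y) ν hCfg.rg hRs).2 (fun i _ => hν i) hR0
      (hCfg.U.trans (min_le_left _ _)) k θ₁ θ₂ hk h1 h2
    rw [hpr] at hb
    set X := ∫ t in Set.Ioi (0:ℝ), ((om κ (κ / T) t : ℝ) : ℂ) *
        (riemannZeta (cl t) * ∏ i ∈ range J, BF (KK n Rs i) (k - 1) k θ₁ θ₂ (zz I t i)) with hX
    have e1 : Complex.exp (-(((θ₁ + θ₂) * (k * V) : ℝ) : ℂ) * Complex.I) *
        Complex.exp (((k:ℂ) + ((θ₁:ℂ) + θ₂) / 2 * Complex.I) ^ 2 * ((VV I J : ℝ) : ℂ)) =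
        ((Real.exp (k ^ 2 * V) * Real.exp (-((θ₁ + θ₂) ^ 2 / 4 * V)) : ℝ) : ℂ) := by
      rw [← Complex.exp_add, ← Real.exp_add, Complex.ofReal_exp]
      congr 1
      rw [← hV]
      push_cast
      ring_nf
      rw [Complex.I_sq]
      ring
    have e2 : Complex.exp (-(((θ₁ + θ₂) * (k * V) : ℝ) : ℂ) * Complex.I) * X -
        ((Real.exp (k ^ 2 * V) * Real.exp (-((θ₁ + θ₂) ^ 2 / 4 * V)) : ℝ) : ℂ) =
        Complex.exp (-(((θ₁ + θ₂) * (k * V) : ℝ) : ℂ) * Complex.I) *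
          (X - Complex.exp (((k:ℂ) + ((θ₁:ℂ) + θ₂) / 2 * Complex.I) ^ 2 * ((VV I J : ℝ) : ℂ)) * (1 + ε)) +
        ((Real.exp (k ^ 2 * V) * Real.exp (-((θ₁ + θ₂) ^ 2 / 4 * V)) : ℝ) : ℂ) * ε := by
      linear_combination (1 + ε) * e1
    rw [e2]
    refine (norm_add_le _ _).trans ?_
    rw [norm_mul, norm_e, one_mul, norm_mul, Complex.norm_real, Real.norm_eq_abs, abs_of_pos (by positivity)]
    have e3 : Real.exp (k ^ 2 * V) * Real.exp (-((θ₁ + θ₂) ^ 2 / 4 * V)) * ‖ε‖ ≤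
        Real.exp (k ^ 2 * V) * Real.exp (-((θ₁ + θ₂) ^ 2 / 4 * V)) * (1 / 4) :=
      mul_le_mul_of_nonneg_left hε (by positivity)
    linarith
  -- Fubini
  have hWc := omz_int (κ := κ) hδ
  obtain ⟨B, hB⟩ := FF_bd n Rs J hI (k - 1) k (k * V)
  have hsw := swap2 hWc (FF_cont n Rs J hI (k - 1) k (k * V)) hB
  have hAD : ∀ t, starRingEnd ℂ (AZ n Rs J k (zz I t)) * AZ n Rs J (k - 1) (zz I t) *
            ((‖DK n Rs J hh (k * V) (zz I t)‖ ^ 2 : ℝ) : ℂ) =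
      ∫ θ₁ in (-1:ℝ)..1, ∫ θ₂ in (-1:ℝ)..1, FF n Rs J I (k - 1) k (k * V) t θ₁ θ₂ := by
    intro t
    unfold FF
    rw [← DK_sq, mul_comm (starRingEnd ℂ (AZ n Rs J k (zz I t)))]
  have hmain : (∫ t in Set.Ioi (0:ℝ), ((om κ (κ / T) t : ℝ) : ℂ) * (riemannZeta (cl t) *
          (starRingEnd ℂ (AZ n Rs J k (zz I t)) * AZ n Rs J (k - 1) (zz I t) *
            ((‖DK n Rs J hh (k * V) (zz I t)‖ ^ 2 : ℝ) : ℂ)))) =
      ∫ θ₁ in (-1:ℝ)..1, ∫ θ₂ in (-1:ℝ)..1, ∫ t in Set.Ioi (0:ℝ),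
        (((om κ (κ / T) t : ℝ) : ℂ) * riemannZeta (cl t)) * FF n Rs J I (k - 1) k (k * V) t θ₁ θ₂ := by
    rw [← hsw.1]
    refine integral_congr_ae (Eventually.of_forall fun t => ?_)
    simp only
    rw [hAD]
    ring
  rw [hmain]
  set Inn : ℝ → ℝ → ℂ := fun θ₁ θ₂ => ∫ t in Set.Ioi (0:ℝ),
        (((om κ (κ / T) t : ℝ) : ℂ) * riemannZeta (cl t)) * FF n Rs J I (k - 1) k (k * V) t θ₁ θ₂ with hInn
  set Mn : ℝ → ℝ → ℝ := fun θ₁ θ₂ => hh θ₁ * hh θ₂ * Real.exp (-((θ₁ + θ₂) ^ 2 / 4 * V)) with hMn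
  set EV := Real.exp (k ^ 2 * V) with hEV
  have hEV0 : 0 < EV := Real.exp_pos _
  have hMc : Continuous fun x : ℝ × ℝ => Mn x.1 x.2 := by
    have := hh_cont
    rw [hMn]
    fun_prop
  have hMcc : Continuous fun x : ℝ × ℝ => ((EV * Mn x.1 x.2 : ℝ) : ℂ) :=
    Complex.continuous_ofReal.comp (hMc.const_mul EV)
  have hd : ∀ θ₁ ∈ Set.Icc (-1:ℝ) 1, ∀ θ₂ ∈ Set.Icc (-1:ℝ) 1,
      ‖Inn θ₁ θ₂ - ((EV * Mn θ₁ θ₂ : ℝ) : ℂ)‖ ≤ (EV / 4) * Mn θ₁ θ₂ + T ^ (-(1 / 2) : ℝ) := by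
    intro θ₁ h1 θ₂ h2
    have e1 : ∀ t : ℝ, (((om κ (κ / T) t : ℝ) : ℂ) * riemannZeta (cl t)) *
        FF n Rs J I (k - 1) k (k * V) t θ₁ θ₂ =
        (((hh θ₁ * hh θ₂ : ℝ) : ℂ) * Complex.exp (-(((θ₁ + θ₂) * (k * V) : ℝ) : ℂ) * Complex.I)) *
        (((om κ (κ / T) t : ℝ) : ℂ) *
          (riemannZeta (cl t) * ∏ i ∈ range J, BF (KK n Rs i) (k - 1) k θ₁ θ₂ (zz I t i))) := by
      intro t; unfold FF; ring
    have e2 : Inn θ₁ θ₂ - ((EV * Mn θ₁ θ₂ : ℝ) : ℂ) = ((hh θ₁ * hh θ₂ : ℝ) : ℂ) *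
        (Complex.exp (-(((θ₁ + θ₂) * (k * V) : ℝ) : ℂ) * Complex.I) *
        (∫ t in Set.Ioi (0:ℝ), ((om κ (κ / T) t : ℝ) : ℂ) *
        (riemannZeta (cl t) * ∏ i ∈ range J, BF (KK n Rs i) (k - 1) k θ₁ θ₂ (zz I t i))) -
        ((Real.exp (k ^ 2 * V) * Real.exp (-((θ₁ + θ₂) ^ 2 / 4 * V)) : ℝ) : ℂ)) := by
      rw [hInn]
      simp only
      simp_rw [e1]
      rw [integral_const_mul, mul_sub, hMn, hEV]
      push_cast
      ring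
    rw [e2, norm_mul, Complex.norm_real, Real.norm_eq_abs, abs_mul,
      abs_of_nonneg (hh_bd h1).1, abs_of_nonneg (hh_bd h2).1]
    have h3 := hin θ₁ θ₂ (abs_le.mpr h1) (abs_le.mpr h2)
    have h4 : hh θ₁ * hh θ₂ ≤ 1 := mul_le_one₀ (hh_bd h1).2 (hh_bd h2).1 (hh_bd h2).2
    have h5 : 0 ≤ hh θ₁ * hh θ₂ := mul_nonneg (hh_bd h1).1 (hh_bd h2).1
    have h6 : 0 < T ^ (-(1 / 2) : ℝ) := by positivity
    calc _ ≤ hh θ₁ * hh θ₂ * (1 / 4 * (Real.exp (k ^ 2 * V) * Real.exp (-((θ₁ + θ₂) ^ 2 / 4 * V))) +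
          T ^ (-(1 / 2) : ℝ)) := mul_le_mul_of_nonneg_left h3 h5
      _ = (EV / 4) * Mn θ₁ θ₂ + (hh θ₁ * hh θ₂) * T ^ (-(1 / 2) : ℝ) := by rw [hMn, hEV]; ring
      _ ≤ (EV / 4) * Mn θ₁ θ₂ + 1 * T ^ (-(1 / 2) : ℝ) := by gcongr
      _ = _ := by rw [one_mul]
  have hd2 := dbl_le (F := fun θ₁ θ₂ => Inn θ₁ θ₂ - ((EV * Mn θ₁ θ₂ : ℝ) : ℂ))
    (G := fun θ₁ θ₂ => (EV / 4) * Mn θ₁ θ₂ + T ^ (-(1 / 2) : ℝ))
    ((hMc.const_mul _).add continuous_const) hd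
  rw [dbl_lin hMc] at hd2
  have hsub : (∫ θ₁ in (-1:ℝ)..1, ∫ θ₂ in (-1:ℝ)..1, (Inn θ₁ θ₂ - ((EV * Mn θ₁ θ₂ : ℝ) : ℂ))) =
      (∫ θ₁ in (-1:ℝ)..1, ∫ θ₂ in (-1:ℝ)..1, Inn θ₁ θ₂) -
      ((EV * ∫ θ₁ in (-1:ℝ)..1, ∫ θ₂ in (-1:ℝ)..1, Mn θ₁ θ₂ : ℝ) : ℂ) := by
    have hcp : Continuous fun θ₁ : ℝ => ∫ θ₂ in (-1:ℝ)..1, ((EV * Mn θ₁ θ₂ : ℝ) : ℂ) :=
      intervalIntegral.continuous_parametric_intervalIntegral_of_continuous' hMcc _ _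
    have e1 : (∫ θ₁ in (-1:ℝ)..1, ∫ θ₂ in (-1:ℝ)..1, (Inn θ₁ θ₂ - ((EV * Mn θ₁ θ₂ : ℝ) : ℂ))) =
        ∫ θ₁ in (-1:ℝ)..1, ((∫ θ₂ in (-1:ℝ)..1, Inn θ₁ θ₂) - ∫ θ₂ in (-1:ℝ)..1, ((EV * Mn θ₁ θ₂ : ℝ) : ℂ)) := by
      refine intervalIntegral.integral_congr fun θ₁ h1 => ?_
      rw [Set.uIcc_of_le (by norm_num)] at h1
      exact intervalIntegral.integral_sub (hsw.2.1 θ₁ h1)
        ((hMcc.comp (by fun_prop : Continuous fun y : ℝ => (θ₁, y))).intervalIntegrable _ _)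
    rw [e1, intervalIntegral.integral_sub hsw.2.2 (hcp.intervalIntegrable _ _)]
    congr 1
    simp_rw [intervalIntegral.integral_ofReal, intervalIntegral.integral_const_mul]
  rw [hsub] at hd2
  have hre := (Complex.abs_re_le_norm _).trans hd2
  rw [Complex.sub_re, Complex.ofReal_re] at hre
  have hre2 := (abs_le.mp hre).1
  have hg : 1 / 16 * (1 + V) ^ (-(1 / 2) : ℝ) ≤ ∫ θ₁ in (-1:ℝ)..1, ∫ θ₂ in (-1:ℝ)..1, Mn θ₁ θ₂ := gauss2_low hV0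
  have hg2 := mul_le_mul_of_nonneg_left hg hEV0.le
  have hWg := WW_ge0 hV0 hL0 hVl (sq_nonneg k)
  have hWd : WW (k ^ 2) V = EV * (1 + V) ^ (-(1 / 2) : ℝ) := by unfold WW; rw [mul_comm]
  have h9 : 4 * T ^ (-(1 / 2) : ℝ) ≤ 1 / 32 * WW (k ^ 2) V := by
    have e1 : 4 * T ^ (-(1 / 2) : ℝ) ≤ 1 / 32 * (Real.exp (-c) / Real.log T) := by
      calc 4 * T ^ (-(1 / 2) : ℝ) ≤ 4 * (Real.exp (-c) / 128 / Real.log T) :=
            mul_le_mul_of_nonneg_left hsm (by norm_num)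
        _ = _ := by ring
    exact e1.trans (mul_le_mul_of_nonneg_left hWg (by norm_num))
  rw [hWd] at h9 ⊢
  set Z := ∫ θ₁ in (-1:ℝ)..1, ∫ θ₂ in (-1:ℝ)..1, Mn θ₁ θ₂ with hZ
  linarith

end Pool.Agent.TH986.LK_LB
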