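import Pool.Agent.TH986.LK_B

set_option autoImplicit false

/-! JOB U4 of the LK project (helper806): the twisted second moment. -/

namespace Pool.Agent.TH986.LK_U4

open Finset Filter Topology MeasureTheory
open Pool.Agent.W184.NZ
open Pool.Agent.TH806
open Pool.Agent.TH806.LK
open Pool.Agent.TH986.LK_B
open Pool.Agent.H306R2.SM (om cl Yf)
open Pool.Agent.H262R4.TM (Rng Ck)

theorem t_U4 (hA : P_ALG) (hL : P_LAW) (hP : P_PRD) (h2 : P_AV2) : P_U4 := by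
  intro n c hn hc
  have hn0 : (1:ℝ) ≤ n := by exact_mod_cast hn
  obtain ⟨P₀, C, hP144, hC1, hLaw⟩ := hL (8 * n + 8) (by linarith)
  obtain ⟨C₃, hC3, e₀, he0, R₀, hprd⟩ := hP n c C hn hc
  obtain ⟨η₀, hη0, hη1, hav⟩ := h2
  obtain ⟨C₂, hC2, hav⟩ := hav c (8 * n + 8) C (n + 1) hc (by linarith) (by linarith)
  refine ⟨P₀, 48 * C₂ * C₃ + 1, η₀ / 240, by positivity, by positivity, fun Rs hRs => ?_⟩
  filter_upwards [hav, small hη0 (show 0 < Real.exp (-c) * Real.exp (-c) / 4 by positivity),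
    Real.tendsto_log_atTop.eventually_gt_atTop 1, eventually_gt_atTop (3:ℝ)]
    with T hT hsm hLT hT3 κ hκ y J I hCfg hlen a u ha
  have hI : ∀ i, ∀ p ∈ I i, p.Prime := fun i p hp => (hCfg.rg.pr i p hp).1
  have hIP : ∀ i, ∀ p ∈ I i, p.Prime ∧ P₀ ≤ p := fun i p hp => ⟨hI i p hp, hCfg.P i p hp⟩
  choose ν hν using fun i => (hLaw (I i) (hIP i)).2.1
  have hT0 : 0 < T := by linarith
  have hL0 : 0 < Real.log T := by linarith
  have hk0 : (0:ℝ) < κ := by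
    have := hκ.1
    nlinarith
  have hδ : 0 < (κ:ℝ) / T := by positivity
  have hV0 : 0 ≤ VV I J := VV_nonneg I J
  have hVl : VV I J ≤ Real.log (Real.log T) + c := VV_le hCfg hn (by positivity) (by linarith) hLT hlen
  have hlen2 : ∑ i ∈ range J, ((3 * KK n Rs i : ℕ) : ℝ) * Real.log (bb y i) ≤ η₀ * Real.log T := by
    refine (len_le (by linarith [hCfg.y1]) n Rs J).trans ?_
    linarith
  have hs : -1 ≤ 2 * a + a ^ 2 := by nlinarith [sq_nonneg (a + 1)]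
  set V := VV I J with hV
  -- the inner bound
  have hin : ∀ θ₁ θ₂ : ℝ, |θ₁| ≤ 1 → |θ₂| ≤ 1 →
      ‖∫ t in Set.Ioi (0:ℝ), ((wz κ T t : ℝ) : ℂ) * ∏ i ∈ range J, BF (KK n Rs i) a a θ₁ θ₂ (zz I t i)‖ ≤
        2 * C₂ * C₃ * Real.log T * Real.exp ((2 * a + a ^ 2) * V) * Real.exp (-((θ₁ + θ₂) ^ 2 / 4 * V)) +
          T ^ (-η₀) := by
    intro θ₁ θ₂ h1 h2
    have hb := hT κ hκ J I (bb y) (fun i => 3 * KK n Rs i) (fun i => BF (KK n Rs i) a a θ₁ θ₂) ν hCfg.rg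
      (fun i _ => hν i) (fun i _ => by
        have hKn : n + 1 ≤ KK n Rs i := by
          unfold KK RR
          nlinarith [Nat.zero_le i, Nat.zero_le (n * i), Nat.mul_le_mul hn hRs]
        obtain ⟨q1, _, _, q4, _, _⟩ := hA.2.2.2 n (KK n Rs i) 1 a a θ₁ θ₂ hn hKn le_rfl ha ha h1 h2
        refine ⟨by omega, ?_, q1, q4⟩
        have : ((n + 1 : ℕ) : ℝ) ≤ KK n Rs i := by exact_mod_cast hKn
        push_cast at this ⊢
        linarith) hlen2
    have hpr := (hprd J Rs I (bb y) ν hCfg.rg hRs).1 w1 1 zero_le_one le_rfl (fun i _ => hν i) a θ₁ θ₂ ha h1 h2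
    set E := Real.exp ((2 * 1 * a + a ^ 2 - (θ₁ + θ₂) ^ 2 / 4) * VV I J) with hE
    have hE2 : E = Real.exp ((2 * a + a ^ 2) * V) * Real.exp (-((θ₁ + θ₂) ^ 2 / 4 * V)) := by
      rw [hE, ← Real.exp_add]; congr 1; ring
    have hE0 : 0 < E := Real.exp_pos _
    refine hb.trans (add_le_add_left ?_ _)
    have e1 : Real.log T * ∏ i ∈ range J, ‖∫ q, q.2 * BF (KK n Rs i) a a θ₁ θ₂ q.1 ∂(ν i)‖ ≤
        Real.log T * (C₃ * E) := mul_le_mul_of_nonneg_left hpr.1 hL0.le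
    have e2 : ∑ i ∈ range J, ((3 * KK n Rs i : ℕ) : ℝ) * Real.log (bb y i) *
          ∏ j ∈ (range J).erase i, ‖∫ q, q.2 * BF (KK n Rs j) a a θ₁ θ₂ q.1 ∂(ν j)‖ ≤
        Real.log T * (C₃ * E) := by
      calc _ ≤ ∑ i ∈ range J, ((3 * KK n Rs i : ℕ) : ℝ) * Real.log (bb y i) * (C₃ * E) := by
            refine sum_le_sum fun i hi => ?_
            rw [mem_range] at hi
            refine mul_le_mul_of_nonneg_left (hpr.2 i hi).1 ?_
            have hb1 : 0 ≤ Real.log (bb y i) := Real.log_nonneg (by linarith [hCfg.rg.b10 i hi])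
            positivity
        _ = (∑ i ∈ range J, ((3 * KK n Rs i : ℕ) : ℝ) * Real.log (bb y i)) * (C₃ * E) := by rw [sum_mul]
        _ ≤ (η₀ * Real.log T) * (C₃ * E) := mul_le_mul_of_nonneg_right hlen2 (by positivity)
        _ ≤ (1 * Real.log T) * (C₃ * E) := by
            refine mul_le_mul_of_nonneg_right (mul_le_mul_of_nonneg_right (by linarith) hL0.le) (by positivity)
        _ = _ := by ring
    calc _ ≤ C₂ * (Real.log T * (C₃ * E) + Real.log T * (C₃ * E)) :=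
          mul_le_mul_of_nonneg_left (add_le_add e1 e2) hC2.le
      _ = _ := by rw [hE2]; ring
  -- the integral
  have hWi : IntegrableOn (fun t => wz κ T t) (Set.Ioi 0) := Pool.Agent.H262R4.TM.TTW.int2 κ hδ
  have hWc : Integrable (fun t => ((wz κ T t : ℝ) : ℂ)) (volume.restrict (Set.Ioi 0)) := hWi.ofReal
  obtain ⟨B, hB⟩ := FF_bd n Rs J hI a a u
  have hsw := swap2 hWc (FF_cont n Rs J hI a a u) hB
  have hAD : ∀ t, ((AD n Rs J I a u t : ℝ) : ℂ) =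
      ∫ θ₁ in (-1:ℝ)..1, ∫ θ₂ in (-1:ℝ)..1, FF n Rs J I a a u t θ₁ θ₂ := by
    intro t
    unfold AD FF
    rw [← DK_sq, Complex.mul_conj']
    push_cast
    rfl
  have hmain : ((∫ t in Set.Ioi (0:ℝ), wz κ T t * AD n Rs J I a u t : ℝ) : ℂ) =
      ∫ θ₁ in (-1:ℝ)..1, ∫ θ₂ in (-1:ℝ)..1, ∫ t in Set.Ioi (0:ℝ), ((wz κ T t : ℝ) : ℂ) *
        FF n Rs J I a a u t θ₁ θ₂ := by
    rw [← hsw.1, ← integral_complex_ofReal]
    refine integral_congr_ae (Eventually.of_forall fun t => ?_)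
    simp only
    rw [← hAD]
    push_cast
    rfl
  have hup : (∫ t in Set.Ioi (0:ℝ), wz κ T t * AD n Rs J I a u t) ≤
      ∫ θ₁ in (-1:ℝ)..1, ∫ θ₂ in (-1:ℝ)..1,
        ((2 * C₂ * C₃ * Real.log T * Real.exp ((2 * a + a ^ 2) * V)) *
          Real.exp (-((θ₁ + θ₂) ^ 2 / 4 * V)) + T ^ (-η₀)) := by
    refine (le_abs_self _).trans ?_
    rw [← Real.norm_eq_abs, ← Complex.norm_real, hmain]
    refine dbl_le (by fun_prop) fun θ₁ h1 θ₂ h2 => ?_
    have e1 : ∀ t : ℝ, ((wz κ T t : ℝ) : ℂ) * FF n Rs J I a a u t θ₁ θ₂ =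
        (((hh θ₁ * hh θ₂ : ℝ) : ℂ) * Complex.exp (-(((θ₁ + θ₂) * u : ℝ) : ℂ) * Complex.I)) *
        (((wz κ T t : ℝ) : ℂ) * ∏ i ∈ range J, BF (KK n Rs i) a a θ₁ θ₂ (zz I t i)) := by
      intro t; unfold FF; ring
    simp_rw [e1]
    rw [integral_const_mul, norm_mul, norm_mul, norm_e, mul_one, Complex.norm_real, Real.norm_eq_abs, abs_mul,
      abs_of_nonneg (hh_bd h1).1, abs_of_nonneg (hh_bd h2).1]
    have h3 := hin θ₁ θ₂ (abs_le.mpr h1) (abs_le.mpr h2)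
    have h4 : hh θ₁ * hh θ₂ ≤ 1 := mul_le_one₀ (hh_bd h1).2 (hh_bd h2).1 (hh_bd h2).2
    calc _ ≤ 1 * ‖∫ t in Set.Ioi (0:ℝ), ((wz κ T t : ℝ) : ℂ) *
          ∏ i ∈ range J, BF (KK n Rs i) a a θ₁ θ₂ (zz I t i)‖ := mul_le_mul_of_nonneg_right h4 (norm_nonneg _)
      _ = _ := one_mul _
      _ ≤ _ := h3
  rw [dbl_lin (g := fun θ₁ θ₂ => Real.exp (-((θ₁ + θ₂) ^ 2 / 4 * V))) (by fun_prop)] at hup
  have hg := gauss2_up hV0
  have hW := WW_ge hV0 hL0 hVl hs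
  have h5 : 4 * T ^ (-η₀) ≤ Real.log T * WW (2 * a + a ^ 2) V := by
    have e1 : 4 * T ^ (-η₀) ≤ Real.exp (-c) * Real.exp (-c) / Real.log T := by
      calc 4 * T ^ (-η₀) ≤ 4 * (Real.exp (-c) * Real.exp (-c) / 4 / Real.log T) :=
            mul_le_mul_of_nonneg_left hsm (by norm_num)
        _ = _ := by ring
    have e2 : Real.exp (-c) * Real.exp (-c) / Real.log T =
        Real.log T * ((Real.exp (-c) / Real.log T) * (Real.exp (-c) / Real.log T)) := by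
      field_simp
    rw [e2] at e1
    exact e1.trans (mul_le_mul_of_nonneg_left hW hL0.le)
  have h6 : (2 * C₂ * C₃ * Real.log T * Real.exp ((2 * a + a ^ 2) * V)) *
      (∫ θ₁ in (-1:ℝ)..1, ∫ θ₂ in (-1:ℝ)..1, Real.exp (-((θ₁ + θ₂) ^ 2 / 4 * V))) ≤
      48 * C₂ * C₃ * Real.log T * WW (2 * a + a ^ 2) V := by
    calc _ ≤ (2 * C₂ * C₃ * Real.log T * Real.exp ((2 * a + a ^ 2) * V)) *
        (24 * (1 + V) ^ (-(1 / 2) : ℝ)) := mul_le_mul_of_nonneg_left hg (by positivity)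
      _ = _ := by unfold WW; ring
  calc _ ≤ _ := hup
    _ ≤ 48 * C₂ * C₃ * Real.log T * WW (2 * a + a ^ 2) V + Real.log T * WW (2 * a + a ^ 2) V :=
        add_le_add h6 h5
    _ = _ := by ring

end Pool.Agent.TH986.LK_U4
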