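import Pool.Agent.TH806.LM.Defs
import Pool.Agent.TH126.LK_PT

set_option autoImplicit false

/-!
# LM project (helper806): job DL (helper986)

The localising factor is at least `1/2` in its window.
-/

namespace Pool.Agent.TH986.LM_DL

open Finset Filter Topology MeasureTheory Complex
open Pool.Agent.W184.NZ
open Pool.Agent.TH806.LK
open Pool.Agent.TH126.LK_PT

/-- the polynomial `pf` is close to `exp (i θ Re z)` -/
theorem pf_close (n Rs i : ℕ) (hn : 1 ≤ n) (hRs : 1 ≤ Rs) (θ : ℝ) (hθ : |θ| ≤ 1) (z : ℂ)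
    (hz : ‖z‖ ≤ RR Rs i) :
    ‖pf (KK n Rs i) θ z - Complex.exp (((θ * z.re : ℝ) : ℂ) * Complex.I)‖ ≤ 3 * dl Rs i := by
  have hn1 : (1 : ℝ) ≤ n := by exact_mod_cast hn
  have hR : 1 ≤ RR Rs i := by
    unfold RR
    omega
  have hα : ‖(θ / 2 * Complex.I : ℂ)‖ ≤ n := by
    rw [norm_mul, Complex.norm_I, mul_one, norm_div, Complex.norm_real, Real.norm_eq_abs]
    norm_num
    linarith [abs_nonneg θ]
  have hz' : ‖starRingEnd ℂ z‖ ≤ RR Rs i := by
    rw [RCLike.norm_conj]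
    exact hz
  obtain ⟨α, hαd⟩ : ∃ α : ℂ, α = θ / 2 * Complex.I := ⟨_, rfl⟩
  rw [← hαd] at hα
  obtain ⟨d, hd⟩ : ∃ d : ℝ, d = dl Rs i := ⟨_, rfl⟩
  have hd0 : 0 ≤ d := hd ▸ dl_nonneg Rs i
  have hd1 : d ≤ 1 := hd ▸ dl_le_one Rs i
  have h1 : ‖NC (KK n Rs i) α z - Complex.exp (α * z)‖ ≤ d * ‖Complex.exp (α * z)‖ := by
    rw [hd]; exact NC_close n (RR Rs i) hn hR α z hα hz
  have h2 : ‖NC (KK n Rs i) α (starRingEnd ℂ z) - Complex.exp (α * starRingEnd ℂ z)‖ ≤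
      d * ‖Complex.exp (α * starRingEnd ℂ z)‖ := by
    rw [hd]; exact NC_close n (RR Rs i) hn hR α _ hα hz'
  have h3 : Complex.exp (α * z) * Complex.exp (α * starRingEnd ℂ z) =
      Complex.exp (((θ * z.re : ℝ) : ℂ) * Complex.I) := by
    rw [← Complex.exp_add, ← mul_add, Complex.add_conj, hαd]
    congr 1
    push_cast
    ring
  have h4 : ‖Complex.exp (α * z)‖ * ‖Complex.exp (α * starRingEnd ℂ z)‖ = 1 := by
    rw [← norm_mul, h3, Complex.norm_exp_ofReal_mul_I]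
  obtain ⟨A, hA⟩ : ∃ A : ℂ, A = Complex.exp (α * z) := ⟨_, rfl⟩
  obtain ⟨B, hB⟩ : ∃ B : ℂ, B = Complex.exp (α * starRingEnd ℂ z) := ⟨_, rfl⟩
  obtain ⟨a, ha⟩ : ∃ a : ℂ, a = NC (KK n Rs i) α z := ⟨_, rfl⟩
  obtain ⟨b, hb⟩ : ∃ b : ℂ, b = NC (KK n Rs i) α (starRingEnd ℂ z) := ⟨_, rfl⟩
  unfold pf
  rw [← hαd, ← ha, ← hb, ← h3, ← hA, ← hB, ← hd]
  rw [← ha, ← hA] at h1
  rw [← hb, ← hB] at h2
  rw [← hA, ← hB] at h4
  have h5 : ‖b‖ ≤ (1 + d) * ‖B‖ := by
    have := norm_add_le (b - B) B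
    rw [sub_add_cancel] at this
    linarith
  have h6 : a * b - A * B = (a - A) * b + A * (b - B) := by ring
  rw [h6]
  refine (norm_add_le _ _).trans ?_
  rw [norm_mul, norm_mul]
  have h7 : ‖a - A‖ * ‖b‖ ≤ (d * ‖A‖) * ((1 + d) * ‖B‖) :=
    mul_le_mul h1 h5 (norm_nonneg _) (by positivity)
  have h8 : ‖A‖ * ‖b - B‖ ≤ ‖A‖ * (d * ‖B‖) := mul_le_mul_of_nonneg_left h2 (norm_nonneg _)
  have h9 : (d * ‖A‖) * ((1 + d) * ‖B‖) = d * (1 + d) * (‖A‖ * ‖B‖) := by ring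
  have h10 : ‖A‖ * (d * ‖B‖) = d * (‖A‖ * ‖B‖) := by ring
  rw [h9, h4] at h7
  rw [h10, h4] at h8
  nlinarith

/-- products of numbers close to unit numbers -/
theorem prod_close (J : ℕ) (a b : ℕ → ℂ) (δ : ℕ → ℝ) (hδ : ∀ i, 0 ≤ δ i)
    (hb : ∀ i < J, ‖b i‖ = 1) (hab : ∀ i < J, ‖a i - b i‖ ≤ δ i) :
    ‖∏ i ∈ range J, a i - ∏ i ∈ range J, b i‖ ≤ ∏ i ∈ range J, (1 + δ i) - 1 := by
  induction J with
  | zero => simp
  | succ J ih =>
    rw [prod_range_succ, prod_range_succ, prod_range_succ]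
    have i1 := ih (fun i hi => hb i (by omega)) (fun i hi => hab i (by omega))
    have h1 : ‖∏ i ∈ range J, b i‖ = 1 := by
      rw [norm_prod]
      exact prod_eq_one fun i hi => hb i (by rw [mem_range] at hi; omega)
    have h2 := hab J (by omega)
    have h3 := hb J (by omega)
    have h4 : ‖a J‖ ≤ 1 + δ J := by
      have := norm_add_le (a J - b J) (b J)
      rw [sub_add_cancel] at this
      linarith
    have h5 : (∏ i ∈ range J, a i) * a J - (∏ i ∈ range J, b i) * b J =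
        (∏ i ∈ range J, a i - ∏ i ∈ range J, b i) * a J + (∏ i ∈ range J, b i) * (a J - b J) := by ring
    rw [h5]
    refine (norm_add_le _ _).trans ?_
    rw [norm_mul, norm_mul, h1, one_mul]
    have h6 : 0 ≤ ∏ i ∈ range J, (1 + δ i) - 1 := (norm_nonneg _).trans i1
    have h7 := hδ J
    have h8 : ‖∏ i ∈ range J, a i - ∏ i ∈ range J, b i‖ * ‖a J‖ ≤
        (∏ i ∈ range J, (1 + δ i) - 1) * (1 + δ J) :=
      mul_le_mul i1 h4 (norm_nonneg _) h6
    nlinarith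

theorem dl_le' (Rs i : ℕ) (hRs : 1 ≤ Rs) : dl Rs i ≤ (1 / 256) ^ (i + 1) := by
  have h1 : (2 : ℝ) * ((i : ℝ) + 1) ≤ RR Rs i := by
    have : 2 * (i + 1) ≤ RR Rs i := by
      unfold RR
      omega
    exact_mod_cast this
  have h2 : Real.exp (-8) ≤ 1 / 256 := by
    have h3 : Real.exp (-1) ≤ 1 / 2 := by
      rw [Real.exp_neg, ← one_div]
      apply one_div_le_one_div_of_le (by norm_num)
      have := Real.add_one_le_exp (1 : ℝ)
      linarith
    have h4 : Real.exp (-8) = Real.exp (-1) ^ 8 := by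
      rw [← Real.exp_nat_mul]; norm_num
    rw [h4]
    refine (pow_le_pow_left₀ (Real.exp_pos _).le h3 8).trans ?_
    norm_num
  calc dl Rs i ≤ Real.exp (((i + 1 : ℕ) : ℝ) * (-8)) := by
        apply Real.exp_le_exp.2
        push_cast
        linarith
    _ = Real.exp (-8) ^ (i + 1) := Real.exp_nat_mul _ _
    _ ≤ _ := pow_le_pow_left₀ (Real.exp_pos _).le h2 _

theorem geo' (J : ℕ) : ∑ i ∈ range J, ((1 : ℝ) / 256) ^ (i + 1) ≤ 1 / 255 := by
  have : ∑ i ∈ range J, ((1 : ℝ) / 256) ^ (i + 1) = (1 - (1 / 256) ^ J) / 255 := by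
    induction J with
    | zero => simp
    | succ J ih =>
      rw [Finset.sum_range_succ, ih, pow_succ]
      ring
  rw [this]
  have h : (0 : ℝ) ≤ (1 / 256) ^ J := by positivity
  linarith

theorem prod_small (Rs J : ℕ) (hRs : 1 ≤ Rs) : ∏ i ∈ range J, (1 + 3 * dl Rs i) - 1 ≤ 1 / 10 := by
  have h1 : ∏ i ∈ range J, (1 + 3 * dl Rs i) ≤ ∏ i ∈ range J, Real.exp (3 * dl Rs i) := by
    refine prod_le_prod (fun i _ => ?_) fun i _ => ?_
    · have := dl_nonneg Rs i; linarith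
    · have := Real.add_one_le_exp (3 * dl Rs i); linarith
  rw [← Real.exp_sum, ← mul_sum] at h1
  have h2 : ∑ i ∈ range J, dl Rs i ≤ 1 / 255 :=
    (sum_le_sum fun i _ => dl_le' Rs i hRs).trans (geo' J)
  have h3 : Real.exp (3 * ∑ i ∈ range J, dl Rs i) ≤ Real.exp (3 / 255) := by
    apply Real.exp_le_exp.2; linarith
  have h4 : Real.exp (3 / 255) ≤ 1 + 1 / 10 := by
    have h5 := Real.add_one_le_exp (-(3 / 255 : ℝ))
    rw [Real.exp_neg] at h5
    have h6 : 0 < Real.exp (3 / 255) := Real.exp_pos _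
    have h7 : (-(3 / 255) + 1) * Real.exp (3 / 255) ≤ 1 := by
      have := mul_le_mul_of_nonneg_right h5 h6.le
      rwa [inv_mul_cancel₀ h6.ne'] at this
    nlinarith
  linarith

theorem int_hh : ∫ θ in (-1:ℝ)..1, hh θ * (2 / 5) = 8 / 15 := by
  unfold hh
  rw [intervalIntegral.integral_mul_const, intervalIntegral.integral_sub (by simp) (by
    apply Continuous.intervalIntegrable; fun_prop)]
  simp
  norm_num

/-- the localising factor is not small in its window -/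
theorem t_DL : Pool.Agent.TH806.LM.P_DL := by
  refine ⟨1, fun n Rs J z u hn hRs _ hz hu => ?_⟩
  obtain ⟨x, hx⟩ : ∃ x : ℝ, x = ∑ i ∈ range J, (z i).re := ⟨_, rfl⟩
  rw [← hx] at hu
  set g : ℝ → ℂ := fun θ => (hh θ : ℂ) * (Complex.exp (-((θ * u : ℝ) : ℂ) * Complex.I) *
      ∏ i ∈ range J, pf (KK n Rs i) θ (z i)) with hg
  have hgc : Continuous g := by
    rw [hg]
    have e1 : Continuous fun θ : ℝ => ((hh θ : ℝ) : ℂ) := by unfold hh; fun_prop
    have e2 : Continuous fun θ : ℝ => Complex.exp (-((θ * u : ℝ) : ℂ) * Complex.I) := by fun_prop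
    have e3 : Continuous fun θ : ℝ => ∏ i ∈ range J, pf (KK n Rs i) θ (z i) :=
      continuous_finsetProd _ fun i _ => pf_cont (KK n Rs i) continuous_id continuous_const
    exact e1.mul (e2.mul e3)
  have h0 : DK n Rs J hh u z = ∫ θ in (-1:ℝ)..1, g θ := rfl
  have h1 : (∫ θ in (-1:ℝ)..1, g θ).re = ∫ θ in (-1:ℝ)..1, (g θ).re := by
    have := intervalIntegral.intervalIntegral_re (hgc.intervalIntegrable (-1) 1) (μ := volume)
    exact this.symm
  have h2 : ∀ θ ∈ Set.Icc (-1:ℝ) 1, hh θ * (2 / 5) ≤ (g θ).re := by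
    intro θ hθ
    have hθ1 : |θ| ≤ 1 := abs_le.2 hθ
    have hh0 : 0 ≤ hh θ := by
      unfold hh
      have : θ ^ 2 ≤ 1 := by rw [← sq_abs]; nlinarith [abs_nonneg θ]
      linarith
    rw [hg]
    simp only
    rw [Complex.re_ofReal_mul]
    refine mul_le_mul_of_nonneg_left ?_ hh0
    have h3 : ‖∏ i ∈ range J, pf (KK n Rs i) θ (z i) -
        ∏ i ∈ range J, Complex.exp (((θ * (z i).re : ℝ) : ℂ) * Complex.I)‖ ≤ 1 / 10 :=
      (prod_close J _ _ (fun i => 3 * dl Rs i) (fun i => by have := dl_nonneg Rs i; linarith)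
        (fun i _ => Complex.norm_exp_ofReal_mul_I _)
        (fun i hi => pf_close n Rs i hn hRs θ hθ1 (z i) (hz i hi))).trans (prod_small Rs J hRs)
    have h4 : ∏ i ∈ range J, Complex.exp (((θ * (z i).re : ℝ) : ℂ) * Complex.I) =
        Complex.exp (((θ * x : ℝ) : ℂ) * Complex.I) := by
      rw [← Complex.exp_sum, ← Finset.sum_mul, hx]
      congr 2
      push_cast
      rw [Finset.mul_sum]
    rw [h4] at h3
    have h5 : ‖Complex.exp (-((θ * u : ℝ) : ℂ) * Complex.I) * ∏ i ∈ range J, pf (KK n Rs i) θ (z i) -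
        Complex.exp (((θ * (x - u) : ℝ) : ℂ) * Complex.I)‖ ≤ 1 / 10 := by
      have e : Complex.exp (((θ * (x - u) : ℝ) : ℂ) * Complex.I) =
          Complex.exp (-((θ * u : ℝ) : ℂ) * Complex.I) * Complex.exp (((θ * x : ℝ) : ℂ) * Complex.I) := by
        rw [← Complex.exp_add]; congr 1; push_cast; ring
      rw [e, ← mul_sub, norm_mul, norm_cis, one_mul]
      exact h3
    have h6 := (Complex.abs_re_le_norm _).trans h5
    rw [Complex.sub_re, Complex.exp_ofReal_mul_I_re] at h6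
    have h7 : 1 - (θ * (x - u)) ^ 2 / 2 ≤ Real.cos (θ * (x - u)) := Real.one_sub_sq_div_two_le_cos
    have h8 : (θ * (x - u)) ^ 2 ≤ 1 := by
      rw [← sq_abs, abs_mul]
      have h9 : |θ| * |x - u| ≤ 1 := mul_le_one₀ hθ1 (abs_nonneg _) hu
      have h10 : 0 ≤ |θ| * |x - u| := by positivity
      nlinarith
    have h9 := (abs_le.1 h6).1
    linarith
  have h3 : ∫ θ in (-1:ℝ)..1, hh θ * (2 / 5) ≤ ∫ θ in (-1:ℝ)..1, (g θ).re := by
    refine intervalIntegral.integral_mono_on (by norm_num) ?_ ?_ h2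
    · apply Continuous.intervalIntegrable; unfold hh; fun_prop
    · exact (Complex.continuous_re.comp hgc).intervalIntegrable _ _
  rw [int_hh, ← h1, ← h0] at h3
  have h4 := Complex.re_le_norm (DK n Rs J hh u z)
  linarith

end Pool.Agent.TH986.LM_DL
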