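import Pool.Agent.TH84.UA.Plan

set_option autoImplicit false

/-!
# Sequential decoding (job 2379, helper986 for helper84, MP_75f39d_co)
-/

namespace Pool.Agent.TH986.UA_KRAFT

open Finset Filter
open scoped Classical
open Pool.Agent.TH84.UA

/-- a rank extending strict inclusion -/
noncomputable def rk {n : ℕ} (D : Finset (Fin n)) : ℕ :=
  D.card * Fintype.card (Finset (Fin n)) + (Fintype.equivFin (Finset (Fin n)) D).val

theorem rk_mono {n : ℕ} {A D : Finset (Fin n)} (h : A ⊂ D) : rk A < rk D := by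
  have h1 := Finset.card_lt_card h
  have h2 := (Fintype.equivFin (Finset (Fin n)) A).isLt
  unfold rk
  calc A.card * Fintype.card (Finset (Fin n)) + (Fintype.equivFin (Finset (Fin n)) A).val
      < A.card * Fintype.card (Finset (Fin n)) + Fintype.card (Finset (Fin n)) := by omega
    _ = (A.card + 1) * Fintype.card (Finset (Fin n)) := by ring
    _ ≤ D.card * Fintype.card (Finset (Fin n)) := Nat.mul_le_mul_right _ h1
    _ ≤ _ := Nat.le_add_right _ _

theorem rk_inj {n : ℕ} {A D : Finset (Fin n)} (h : rk A = rk D) : A = D := by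
  have h2 := (Fintype.equivFin (Finset (Fin n)) A).isLt
  have h3 := (Fintype.equivFin (Finset (Fin n)) D).isLt
  have h4 : rk A % Fintype.card (Finset (Fin n)) = (Fintype.equivFin (Finset (Fin n)) A).val := by
    unfold rk
    rw [Nat.mul_add_mod', Nat.mod_eq_of_lt h2]
  have h5 : rk D % Fintype.card (Finset (Fin n)) = (Fintype.equivFin (Finset (Fin n)) D).val := by
    unfold rk
    rw [Nat.mul_add_mod', Nat.mod_eq_of_lt h3]
  rw [h, h5] at h4
  exact (Fintype.equivFin (Finset (Fin n))).injective (Fin.ext h4.symm)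

/-- the index of an unknown set -/
noncomputable def idx {n : ℕ} (F K : Finset (Finset (Fin n))) (a b : ℕ) (D : Finset (Fin n)) : ℕ :=
  ((unk F K a b).filter (fun D' => rk D' < rk D)).card

theorem idx_lt {n : ℕ} {F K : Finset (Finset (Fin n))} {a b : ℕ} {D : Finset (Fin n)}
    (hD : D ∈ unk F K a b) : idx F K a b D < (unk F K a b).card := by
  apply Finset.card_lt_card
  rw [Finset.ssubset_iff_of_subset (Finset.filter_subset _ _)]
  exact ⟨D, hD, fun h => lt_irrefl _ (Finset.mem_filter.1 h).2⟩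

theorem idx_lt_idx {n : ℕ} {F K : Finset (Finset (Fin n))} {a b : ℕ} {D E : Finset (Fin n)}
    (hD : D ∈ unk F K a b) (h : rk D < rk E) : idx F K a b D < idx F K a b E := by
  apply Finset.card_lt_card
  have hsub : (unk F K a b).filter (fun D' => rk D' < rk D) ⊆
      (unk F K a b).filter (fun D' => rk D' < rk E) := by
    intro x hx
    rw [Finset.mem_filter] at hx ⊢
    exact ⟨hx.1, hx.2.trans h⟩
  rw [Finset.ssubset_iff_of_subset hsub]
  exact ⟨D, Finset.mem_filter.2 ⟨hD, h⟩, fun h' => lt_irrefl _ (Finset.mem_filter.1 h').2⟩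

theorem idx_inj {n : ℕ} {F K : Finset (Finset (Fin n))} {a b : ℕ} {D E : Finset (Fin n)}
    (hD : D ∈ unk F K a b) (hE : E ∈ unk F K a b) (h : idx F K a b D = idx F K a b E) : D = E := by
  apply rk_inj
  rcases lt_trichotomy (rk D) (rk E) with h1 | h1 | h1
  · exact absurd h (idx_lt_idx hD h1).ne
  · exact h1
  · exact absurd h (idx_lt_idx hE h1).ne'

/-- the code -/
noncomputable def code {n : ℕ} (K : Finset (Finset (Fin n))) (a b : ℕ)
    (F : Finset (Finset (Fin n))) : Finset ℕ :=
  (F.filter (fun D => D ∈ unk F K a b)).image (idx F K a b)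

theorem unc_congr {n : ℕ} {F F' : Finset (Finset (Fin n))} {D : Finset (Fin n)} {r : ℕ}
    (ih : ∀ D', rk D' < r → (D' ∈ F ↔ D' ∈ F')) (hr : rk D ≤ r) (y : Fin n) :
    Unc F D y ↔ Unc F' D y := by
  unfold Unc
  constructor
  · rintro ⟨h1, h2⟩
    exact ⟨h1, fun A hA hAD => h2 A ((ih A (lt_of_lt_of_le (rk_mono hAD) hr)).2 hA) hAD⟩
  · rintro ⟨h1, h2⟩
    exact ⟨h1, fun A hA hAD => h2 A ((ih A (lt_of_lt_of_le (rk_mono hAD) hr)).1 hA) hAD⟩

theorem mem_unk {n : ℕ} {F K : Finset (Finset (Fin n))} {a b : ℕ} {D : Finset (Fin n)} :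
    D ∈ unk F K a b ↔ a ≤ D.card ∧ D.card ≤ b ∧ (∃ y, Unc F D y) ∧ D ∉ K := by
  unfold unk
  rw [Finset.mem_filter]
  exact ⟨fun h => h.2, fun h => ⟨Finset.mem_univ _, h⟩⟩

theorem unk_congr {n : ℕ} {F F' K : Finset (Finset (Fin n))} {a b : ℕ} {D : Finset (Fin n)} {r : ℕ}
    (ih : ∀ D', rk D' < r → (D' ∈ F ↔ D' ∈ F')) (hr : rk D ≤ r) :
    D ∈ unk F K a b ↔ D ∈ unk F' K a b := by
  rw [mem_unk, mem_unk]
  have h1 : (∃ y, Unc F D y) ↔ ∃ y, Unc F' D y :=
    exists_congr fun y => unc_congr ih hr y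
  rw [h1]

theorem step {n : ℕ} {F F' K O : Finset (Finset (Fin n))} {a b : ℕ} (ha : 0 < a)
    (hUC' : UC F')
    (hO : F.filter (fun A => ¬ (a ≤ A.card ∧ A.card ≤ b)) = O)
    (hO' : F'.filter (fun A => ¬ (a ≤ A.card ∧ A.card ≤ b)) = O)
    (hK : ∀ A ∈ F, A ∉ K) (hB : code K a b F = code K a b F')
    (D : Finset (Fin n)) (ih : ∀ D', rk D' < rk D → (D' ∈ F ↔ D' ∈ F')) (hD : D ∈ F) : D ∈ F' := by
  by_cases hw : a ≤ D.card ∧ D.card ≤ b
  · by_cases hy : ∃ y, Unc F' D y
    · have hy2 : ∃ y, Unc F D y := by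
        obtain ⟨y, hy⟩ := hy
        exact ⟨y, (unc_congr ih le_rfl y).2 hy⟩
      have hU : D ∈ unk F K a b := mem_unk.2 ⟨hw.1, hw.2, hy2, hK D hD⟩
      have hU' : D ∈ unk F' K a b := (unk_congr ih le_rfl).1 hU
      have hidx : idx F K a b D = idx F' K a b D := by
        unfold idx
        congr 1
        ext E
        rw [Finset.mem_filter, Finset.mem_filter]
        constructor
        · rintro ⟨h1, h2⟩
          exact ⟨(unk_congr ih h2.le).1 h1, h2⟩
        · rintro ⟨h1, h2⟩
          exact ⟨(unk_congr ih h2.le).2 h1, h2⟩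
      have h1 : idx F K a b D ∈ code K a b F :=
        Finset.mem_image_of_mem _ (Finset.mem_filter.2 ⟨hD, hU⟩)
      rw [hB] at h1
      obtain ⟨E, hE, hE2⟩ := Finset.mem_image.1 h1
      rw [Finset.mem_filter] at hE
      rw [hidx] at hE2
      have h2 : E = D := idx_inj hE.2 hU' hE2
      rw [← h2]
      exact hE.1
    · -- `D` is a union of members of `F'`
      have hcov : ∀ y ∈ D, ∃ A ∈ F', A ⊂ D ∧ y ∈ A := by
        intro y hyD
        by_contra hc
        push Not at hc
        exact hy ⟨y, hyD, fun A hA hAD => hc A hA hAD⟩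
      have hDne : D.Nonempty := by
        rw [← Finset.card_pos]
        omega
      obtain ⟨y0, hy0⟩ := hDne
      obtain ⟨A0, hA0, hA0D, _⟩ := hcov y0 hy0
      have hsne : (F'.filter (fun A => A ⊂ D)).Nonempty := ⟨A0, Finset.mem_filter.2 ⟨hA0, hA0D⟩⟩
      have hmem : (F'.filter (fun A => A ⊂ D)).sup' hsne id ∈ F' := by
        apply Finset.sup'_induction hsne id (p := fun x => x ∈ F')
        · intro A hA B hB'
          exact hUC' A hA B hB'
        · intro A hA
          exact (Finset.mem_filter.1 hA).1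
      have heq : (F'.filter (fun A => A ⊂ D)).sup' hsne id = D := by
        apply le_antisymm
        · apply Finset.sup'_le
          intro A hA
          exact (Finset.mem_filter.1 hA).2.subset
        · intro y hyD
          obtain ⟨A, hA, hAD, hyA⟩ := hcov y hyD
          have h1 : A ≤ (F'.filter (fun A => A ⊂ D)).sup' hsne id :=
            Finset.le_sup' (f := id) (Finset.mem_filter.2 ⟨hA, hAD⟩)
          exact h1 hyA
      rw [heq] at hmem
      exact hmem
  · have h1 : D ∈ F.filter (fun A => ¬ (a ≤ A.card ∧ A.card ≤ b)) := Finset.mem_filter.2 ⟨hD, hw⟩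
    rw [hO, ← hO'] at h1
    exact (Finset.mem_filter.1 h1).1

theorem t_KRAFT : P_KRAFT := by
  intro n a b L K O ha
  have hcard : ((range L).powerset).card = 2 ^ L := by
    rw [Finset.card_powerset, Finset.card_range]
  rw [← hcard]
  apply Finset.card_le_card_of_injOn (code K a b)
  · intro F hF
    rw [Finset.mem_coe, Finset.mem_filter] at hF
    rw [Finset.mem_coe, Finset.mem_powerset]
    intro i hi
    obtain ⟨D, hD, rfl⟩ := Finset.mem_image.1 hi
    rw [Finset.mem_filter] at hD
    rw [Finset.mem_range]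
    exact lt_of_lt_of_le (idx_lt hD.2) hF.2.2.2.2
  · intro F hF F' hF' hB
    rw [Finset.mem_coe, Finset.mem_filter] at hF hF'
    obtain ⟨-, hUC, hO, hK, -⟩ := hF
    obtain ⟨-, hUC', hO', hK', -⟩ := hF'
    have key : ∀ r : ℕ, ∀ D : Finset (Fin n), rk D = r → (D ∈ F ↔ D ∈ F') := by
      intro r
      induction r using Nat.strong_induction_on with
      | _ r ih =>
        intro D hD
        have ih' : ∀ D', rk D' < rk D → (D' ∈ F ↔ D' ∈ F') := fun D' hD' =>
          ih (rk D') (hD ▸ hD') D' rfl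
        exact ⟨step ha hUC' hO hO' hK hB D ih',
          step ha hUC hO' hO hK' hB.symm D (fun D' hD' => (ih' D' hD').symm)⟩
    ext D
    exact key _ D rfl

end Pool.Agent.TH986.UA_KRAFT
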