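import Mathlib
import Pool.Agent.TH279.UP.Defs4

/-!
# UPS-IRRR: the equation of the dual variety is irreducible (job 3516, helper986)
-/

set_option autoImplicit false

open MvPolynomial Pool.Agent.TH279.UP

namespace Pool.Agent.TH986.J3516

noncomputable section

/-- the homogeneous components of a multiple of a form are multiples of the form -/
theorem dvd_comp {N d : ℕ} (F P : MvPolynomial (Fin N) ℂ) (hF : F.IsHomogeneous d) (h : F ∣ P)
    (j : ℕ) : F ∣ homogeneousComponent j P := by
  obtain ⟨E, rfl⟩ := h
  have h1 : F * E = ∑ s ∈ Finset.range (E.totalDegree + 1), F * homogeneousComponent s E := by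
    rw [← Finset.mul_sum, sum_homogeneousComponent]
  rw [h1, map_sum]
  apply Finset.dvd_sum
  intro s _
  have h2 : (F * homogeneousComponent s E).IsHomogeneous (d + s) :=
    hF.mul (homogeneousComponent_isHomogeneous s E)
  rw [homogeneousComponent_of_mem ((mem_homogeneousSubmodule _ _).2 h2)]
  split_ifs
  · exact dvd_mul_right _ _
  · exact dvd_zero _

theorem gr_comp {n d : ℕ} (hd : 2 ≤ d) (F : MvPolynomial (Fin (n + 1 + 1)) ℂ)
    (hF : F.IsHomogeneous d) (a : MvPolynomial (Fin (n + 1 + 1)) ℂ) (k : ℕ) :
    homogeneousComponent ((d - 1) * k) (gr n F a) = gr n F (homogeneousComponent k a) := by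
  have h0 : ∀ s : ℕ, (gr n F (homogeneousComponent s a)).IsHomogeneous ((d - 1) * s) := by
    intro s
    exact (homogeneousComponent_isHomogeneous s a).aeval _ (fun i => hF.pderiv)
  have h1 : gr n F a = ∑ s ∈ Finset.range (a.totalDegree + 1),
      gr n F (homogeneousComponent s a) := by
    rw [← map_sum, sum_homogeneousComponent]
  have h2 : ∀ s : ℕ, homogeneousComponent ((d - 1) * k) (gr n F (homogeneousComponent s a)) =
      if s = k then gr n F (homogeneousComponent s a) else 0 := by
    intro s
    rw [homogeneousComponent_of_mem ((mem_homogeneousSubmodule _ _).2 (h0 s))]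
    by_cases h3 : s = k
    · rw [if_pos h3, if_pos (by rw [h3])]
    · rw [if_neg h3, if_neg]
      intro h4
      exact h3 (Nat.eq_of_mul_eq_mul_left (by omega) h4).symm
  rw [h1, map_sum, Finset.sum_congr rfl fun s _ => h2 s, Finset.sum_ite_eq']
  by_cases h3 : k ∈ Finset.range (a.totalDegree + 1)
  · rw [if_pos h3]
  · rw [if_neg h3]
    have h4 : a.totalDegree < k := by
      rw [Finset.mem_range] at h3
      omega
    rw [homogeneousComponent_eq_zero _ _ h4, map_zero]

/-- the cofactor of a multiple is a unit -/
theorem unit_of_dvd {n d r : ℕ} {F R : MvPolynomial (Fin (n + 1 + 1)) ℂ} (h : Eqn n d r F R)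
    (a b : MvPolynomial (Fin (n + 1 + 1)) ℂ) (hR : R = a * b) (ha : F ∣ gr n F a) : IsUnit b := by
  have ha0 : a ≠ 0 := by
    rintro rfl
    exact h.ne (by rw [hR, zero_mul])
  have hb0 : b ≠ 0 := by
    rintro rfl
    exact h.ne (by rw [hR, mul_zero])
  have h1 : ∀ k < r, homogeneousComponent k a = 0 := by
    intro k hk
    apply h.min k hk _ (homogeneousComponent_isHomogeneous k a)
    rw [← gr_comp h.two_le F h.hom a k]
    exact dvd_comp F _ h.hom ha _
  have h2 : r ≤ a.totalDegree := by
    by_contra h3
    apply ha0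
    rw [← sum_homogeneousComponent a]
    apply Finset.sum_eq_zero
    intro k hk
    rw [Finset.mem_range] at hk
    exact h1 k (by omega)
  have h3 : R.totalDegree = r := h.homR.totalDegree h.ne
  have h4 : R.totalDegree = a.totalDegree + b.totalDegree := by
    rw [hR, totalDegree_mul_of_isDomain ha0 hb0]
  have h5 : b.totalDegree = 0 := by omega
  rw [totalDegree_eq_zero_iff_eq_C] at h5
  rw [h5]
  apply IsUnit.map
  rw [isUnit_iff_ne_zero]
  intro h6
  rw [h6, map_zero] at h5
  exact hb0 h5

theorem IRRR : S_IRRR := by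
  intro n d r F R h
  constructor
  · intro hu
    have h1 : IsUnit (gr n F R) := hu.map (gr n F)
    exact h.irr.not_isUnit (isUnit_of_dvd_unit h.dvd h1)
  · intro a b hR
    have h1 : F ∣ gr n F a * gr n F b := by
      rw [← map_mul, ← hR]
      exact h.dvd
    rcases h.irr.prime.dvd_or_dvd h1 with h2 | h2
    · right
      exact unit_of_dvd h a b hR h2
    · left
      exact unit_of_dvd h b a (by rw [hR, mul_comm]) h2

end

end Pool.Agent.TH986.J3516
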