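import Mathlib
import Pool.Agent.TH614.HS.Defs

/-!
# HS-L2: if `l2` vanishes on the line then both roots are multiple (job 3569, helper986)
-/

set_option autoImplicit false

namespace Pool.Agent.TH986.J3569

open Pool.Agent.TH614.HS

/-- the algebra behind both parts -/
theorem alg {L : Type} [Field L] (th p r mu eta : L) (hth : th ^ 2 = 3)
    (hp : p = 1 - th * r) (e1 : 1 + p + p ^ 2 = mu ^ 2) (e2 : 1 + r ^ 2 - th * r = eta ^ 2)
    (e3 : -th + r + 2 * p * r - th * p = 2 * mu * eta) : mu + th * eta = 0 := by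
  have h : (mu + th * eta) ^ 2 = 0 := by
    subst hp
    linear_combination -e1 - th * e3 - th ^ 2 * e2 - hth
  exact pow_eq_zero_iff (two_ne_zero) |>.1 h

theorem L2 : S_L2 := by
  intro L _ th x0 x1 x2 y0 y1 y2 s t mu eta mu2 eta2 _ hth hPL hs ht hR hR2 hl2
  obtain ⟨hx0, hx1, hx2, hy0, hy1, hy2, hpl⟩ := hPL
  obtain ⟨p, hp⟩ : ∃ p : L, p = t * x2 / (s * x0) := ⟨_, rfl⟩
  obtain ⟨r, hr⟩ : ∃ r : L, r = -(t * y1) / x0 := ⟨_, rfl⟩
  have hU : ∀ a b : L, t * ((a * x2 / s - b * y1) / x0) = a * p + b * r := by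
    intro a b
    rw [hp, hr]
    field_simp
    ring
  have hon : ∀ a b : L, OnL x0 x1 x2 y0 y1 y2 (a / s) ((a * x1 / s + b * y2) / x0)
      ((a * x2 / s - b * y1) / x0) b := by
    intro a b
    refine ⟨?_, ?_, ?_⟩
    · field_simp
      linear_combination (-b * s) * hpl
    · field_simp
      ring
    · field_simp
      ring
  have hon2 : ∀ a b : L, OnL x2 x0 x1 y2 y0 y1 ((a * x2 / s - b * y1) / x0) (a / s)
      ((a * x1 / s + b * y2) / x0) b := by
    intro a b
    obtain ⟨h1, h2, h3⟩ := hon a b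
    exact ⟨h3, h1, h2⟩
  have hP1 : ∀ a b : L, (a * x1 / s + b * y2) / x0 = s * t * (a + (a * p + b * r) - th * b) := by
    intro a b
    have h1 := hl2 _ _ _ _ (hon a b)
    unfold l2 at h1
    rw [hU] at h1
    have h2 : s * (a / s) = a := by field_simp
    rw [h2] at h1
    have h3 : (a * x1 / s + b * y2) / x0 =
        s * t * ((a * x1 / s + b * y2) / x0 / (s * t)) := by
      field_simp
    rw [h3]
    linear_combination (-(s * t)) * h1
  have k1 : ∀ a b : L, b ^ 2 - th * a * b + a ^ 2 + (a * p + b * r) *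
      (a + (a * p + b * r) - th * b) = (mu * a + eta * b) ^ 2 := by
    intro a b
    have h1 := hR _ _ _ _ (hon a b)
    unfold Dq at h1
    rw [hP1] at h1
    have h2 : s * (a / s) = a := by field_simp
    have h3 : (a * x2 / s - b * y1) / x0 = (a * p + b * r) / t := by
      rw [← hU]
      field_simp
    rw [h3] at h1
    have h4 : mu * s * (a / s) = mu * a := by field_simp
    have h5 : th * s * (a / s) * b = th * a * b := by field_simp
    have h6 : s ^ 2 * (a / s) ^ 2 = a ^ 2 := by field_simp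
    have h7 : s * t * (a + (a * p + b * r) - th * b) * ((a * p + b * r) / t) / s =
        (a * p + b * r) * (a + (a * p + b * r) - th * b) := by field_simp
    rw [h4, h5, h6, h7] at h1
    exact h1
  have k2 : ∀ a b : L, b ^ 2 - th * (a * p + b * r) * b + (a * p + b * r) ^ 2 + a *
      (a + (a * p + b * r) - th * b) = (mu2 * (a * p + b * r) + eta2 * b) ^ 2 := by
    intro a b
    have h1 := hR2 _ _ _ _ (hon2 a b)
    unfold Dq at h1
    rw [hP1] at h1
    have h3 : (a * x2 / s - b * y1) / x0 = (a * p + b * r) / t := by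
      rw [← hU]
      field_simp
    rw [h3] at h1
    have h4 : mu2 * t * ((a * p + b * r) / t) = mu2 * (a * p + b * r) := by field_simp
    have h5 : th * t * ((a * p + b * r) / t) * b = th * (a * p + b * r) * b := by field_simp
    have h6 : t ^ 2 * ((a * p + b * r) / t) ^ 2 = (a * p + b * r) ^ 2 := by field_simp
    have h7 : a / s * (s * t * (a + (a * p + b * r) - th * b)) / t =
        a * (a + (a * p + b * r) - th * b) := by field_simp
    rw [h4, h5, h6, h7] at h1
    exact h1
  have e1 : 1 + p + p ^ 2 = mu ^ 2 := by linear_combination k1 1 0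
  have e2 : 1 + r ^ 2 - th * r = eta ^ 2 := by linear_combination k1 0 1
  have e3 : -th + r + 2 * p * r - th * p = 2 * mu * eta := by
    linear_combination k1 1 1 - k1 1 0 - k1 0 1
  have f1 : 1 + p + p ^ 2 = (mu2 * p) ^ 2 := by linear_combination k2 1 0
  have f2 : 1 + r ^ 2 - th * r = (mu2 * r + eta2) ^ 2 := by linear_combination k2 0 1
  have f3 : -th + r + 2 * p * r - th * p = 2 * (mu2 * p) * (mu2 * r + eta2) := by
    linear_combination k2 1 1 - k2 1 0 - k2 0 1
  have hpr : p = 1 - th * r := by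
    have h : (1 - p - th * r) ^ 2 = 0 := by
      linear_combination 4 * (1 + r ^ 2 - th * r) * e1 + 4 * mu ^ 2 * e2 -
        (-th + r + 2 * p * r - th * p + 2 * mu * eta) * e3 + ((1 + p) ^ 2 + r ^ 2) * hth
    have h2 := (pow_eq_zero_iff (two_ne_zero)).1 h
    linear_combination -h2
  refine ⟨alg th p r mu eta hth hpr e1 e2 e3, ?_⟩
  have h3 := alg th p r (mu2 * p) (mu2 * r + eta2) hth hpr f1 f2 f3
  linear_combination h3 - mu2 * hpr

end Pool.Agent.TH986.J3569
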