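import Mathlib
import Pool.Agent.TH614.HS.Defs2

/-!
# HS-ISOM: isometry of the two Hermitian models (job 3623, helper986)

The form `hh` is Hermitian and nondegenerate on the `q ^ 8` vectors; an orthonormal family of less
than four vectors can be extended, since otherwise its orthogonal complement is zero and the
vectors are determined by their inner products with the family.
-/

set_option autoImplicit false

open Polynomial

namespace Pool.Agent.TH986.J3623

open Pool.Agent.TH614.HS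

section

variable {L : Type} [Field L] (D : HD L)

theorem add_n (n : ℕ) (x y : L) : (x + y) ^ (D.q ^ n) = x ^ (D.q ^ n) + y ^ (D.q ^ n) := by
  induction n with
  | zero => simp
  | succ n ih => rw [pow_succ, pow_mul, ih, D.add, ← pow_mul, ← pow_mul]

/-- number of the fixed points -/
theorem ncard_fix [IsAlgClosed L] (n : ℕ) (hn : n ≠ 0) :
    {x : L | x ^ (D.q ^ n) = x}.ncard = D.q ^ n := by
  classical
  obtain ⟨p, hp⟩ := CharP.exists L
  have hpq : p ∣ D.q := (CharP.cast_eq_zero_iff L p D.q).1 D.qz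
  have hq1 : 1 < D.q := by have := D.h5; omega
  have h1 : (X ^ (D.q ^ n) - X : L[X]).Separable :=
    galois_poly_separable p (D.q ^ n) (dvd_pow hpq hn)
  have hne : (X ^ (D.q ^ n) - X : L[X]) ≠ 0 := h1.ne_zero
  have h2 : Fintype.card ((X ^ (D.q ^ n) - X : L[X]).rootSet L) = D.q ^ n := by
    rw [card_rootSet_eq_natDegree h1 (IsAlgClosed.splits _),
      FiniteField.X_pow_card_pow_sub_X_natDegree_eq _ hn hq1]
  have h3 : {x : L | x ^ (D.q ^ n) = x} = (X ^ (D.q ^ n) - X : L[X]).rootSet L := by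
    ext x
    rw [Set.mem_ofPred_eq, mem_rootSet]
    simp only [map_sub, map_pow, aeval_X, sub_eq_zero]
    exact ⟨fun h => ⟨hne, h⟩, fun h => h.2⟩
  rw [h3, ← Nat.card_coe_set_eq, Nat.card_eq_fintype_card, h2]

/-- the Hermitian form -/
def hh (w v : L × L) : L := w.2 * v.2 ^ D.q + (w.1 * v.1 ^ (D.q ^ 3) +
  w.1 ^ (D.q ^ 2) * v.1 ^ (D.q ^ 5) + w.1 ^ (D.q ^ 4) * v.1 ^ D.q)

/-- the set of the vectors -/
def Vs : Set (L × L) := {w | D.Pt w.1 w.2}

theorem ncard_Vs [IsAlgClosed L] : (Vs D).ncard = D.q ^ 8 := by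
  have h1 : Vs D = {x : L | x ^ (D.q ^ 6) = x} ×ˢ {x : L | x ^ (D.q ^ 2) = x} := by
    ext w
    rfl
  rw [h1, Set.ncard_prod, ncard_fix D 6 (by norm_num), ncard_fix D 2 (by norm_num)]
  ring

/-- the form is additive in the first argument -/
def hl (v : L × L) : (L × L) →+ L := AddMonoidHom.mk' (fun w => hh D w v) (by
  intro a b
  simp only [hh, Prod.fst_add, Prod.snd_add]
  rw [add_n, add_n]
  ring)

/-- the form is additive in the second argument -/
def hr (w : L × L) : (L × L) →+ L := AddMonoidHom.mk' (fun v => hh D w v) (by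
  intro a b
  simp only [hh, Prod.fst_add, Prod.snd_add]
  rw [D.add, D.add, add_n, add_n]
  ring)

theorem hl_apply (v w : L × L) : hl D v w = hh D w v := rfl
theorem hr_apply (v w : L × L) : hr D w v = hh D w v := rfl

theorem fix4 {c : L} (hc : c ^ (D.q ^ 2) = c) : c ^ (D.q ^ 4) = c := by
  have : D.q ^ 4 = D.q ^ 2 * D.q ^ 2 := by ring
  rw [this, pow_mul, hc, hc]

theorem fix6 {c : L} (hc : c ^ (D.q ^ 2) = c) : c ^ (D.q ^ 6) = c := by
  have : D.q ^ 6 = D.q ^ 4 * D.q ^ 2 := by ring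
  rw [this, pow_mul, fix4 D hc, hc]

theorem fix3 {c : L} (hc : c ^ (D.q ^ 2) = c) : c ^ (D.q ^ 3) = c ^ D.q := by
  have : D.q ^ 3 = D.q ^ 2 * D.q := by ring
  rw [this, pow_mul, hc]

theorem fix5 {c : L} (hc : c ^ (D.q ^ 2) = c) : c ^ (D.q ^ 5) = c ^ D.q := by
  have : D.q ^ 5 = D.q ^ 4 * D.q := by ring
  rw [this, pow_mul, fix4 D hc]

theorem hh_smul_left {c : L} (hc : c ^ (D.q ^ 2) = c) (w v : L × L) :
    hh D (c • w) v = c * hh D w v := by
  simp only [hh, Prod.smul_fst, Prod.smul_snd, smul_eq_mul, mul_pow]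
  rw [hc, fix4 D hc]
  ring

theorem hh_smul_right {c : L} (hc : c ^ (D.q ^ 2) = c) (w v : L × L) :
    hh D w (c • v) = c ^ D.q * hh D w v := by
  simp only [hh, Prod.smul_fst, Prod.smul_snd, smul_eq_mul, mul_pow]
  rw [fix3 D hc, fix5 D hc]
  ring

theorem Vs_smul {c : L} (hc : c ^ (D.q ^ 2) = c) {w : L × L} (hw : w ∈ Vs D) : c • w ∈ Vs D := by
  refine ⟨?_, ?_⟩
  · rw [Prod.smul_fst, smul_eq_mul, mul_pow, fix6 D hc, hw.1]
  · rw [Prod.smul_snd, smul_eq_mul, mul_pow, hc, hw.2]

/-- the vectors as an additive subgroup -/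
def VG : AddSubgroup (L × L) where
  carrier := Vs D
  zero_mem' := by
    have hq : D.q ≠ 0 := by have := D.h5; omega
    refine ⟨?_, ?_⟩
    · exact zero_pow (pow_ne_zero _ hq)
    · exact zero_pow (pow_ne_zero _ hq)
  add_mem' := by
    intro a b ha hb
    refine ⟨?_, ?_⟩
    · show (a.1 + b.1) ^ _ = _
      rw [add_n, ha.1, hb.1]
      rfl
    · show (a.2 + b.2) ^ _ = _
      rw [add_n, ha.2, hb.2]
      rfl
  neg_mem' := by
    intro a ha
    have hm : ∀ (n : ℕ) (x : L), (-x) ^ (D.q ^ n) = -x ^ (D.q ^ n) := by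
      intro n x
      have hodd : Odd (D.q ^ n) := by
        apply Odd.pow
        have := D.h4
        rw [Nat.odd_iff]
        omega
      exact hodd.neg_pow x
    refine ⟨?_, ?_⟩
    · show (-a.1) ^ _ = _
      rw [hm, ha.1]
      rfl
    · show (-a.2) ^ _ = _
      rw [hm, ha.2]
      rfl

theorem herm {w v : L × L} (hw : w ∈ Vs D) (hv : v ∈ Vs D) : hh D w v ^ D.q = hh D v w := by
  have h1 : w.1 ^ (D.q ^ 6) = w.1 := hw.1
  have h2 : v.1 ^ (D.q ^ 6) = v.1 := hv.1
  have h3 : v.2 ^ (D.q ^ 2) = v.2 := hv.2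
  have e2 : D.q * D.q = D.q ^ 2 := by ring
  have e3 : D.q ^ 2 * D.q = D.q ^ 3 := by ring
  have e4 : D.q ^ 3 * D.q = D.q ^ 4 := by ring
  have e5 : D.q ^ 4 * D.q = D.q ^ 5 := by ring
  have e6 : D.q ^ 5 * D.q = D.q ^ 6 := by ring
  unfold hh
  rw [D.add, D.add, D.add, mul_pow, mul_pow, mul_pow, mul_pow, ← pow_mul, ← pow_mul, ← pow_mul,
    ← pow_mul, ← pow_mul, ← pow_mul, e2, e3, e4, e5, e6, h2, h3]
  ring

theorem hh_fix {w v : L × L} (hw : w ∈ Vs D) (hv : v ∈ Vs D) :
    hh D w v ^ (D.q ^ 2) = hh D w v := by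
  rw [pow_two, pow_mul, herm D hw hv, herm D hv hw]

theorem nondeg [IsAlgClosed L] {w : L × L} (_ : w ∈ Vs D)
    (h : ∀ v ∈ Vs D, hh D w v = 0) : w = 0 := by
  classical
  have hq : D.q ≠ 0 := by have := D.h5; omega
  have hq1 : 1 < D.q := by have := D.h5; omega
  have h1 := h (0, 1) ⟨zero_pow (pow_ne_zero _ hq), one_pow _⟩
  have h2 : w.2 = 0 := by
    simpa [hh, hq] using h1
  have h3 : w.1 = 0 := by
    by_contra hP
    have hT : ∀ T : L, T ^ (D.q ^ 6) = T →
        w.1 * T + w.1 ^ (D.q ^ 2) * T ^ (D.q ^ 2) + w.1 ^ (D.q ^ 4) * T ^ (D.q ^ 4) = 0 := by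
      intro T hTT
      have h4 := h (T ^ (D.q ^ 3), 0) ⟨by
        show (T ^ (D.q ^ 3)) ^ (D.q ^ 6) = T ^ (D.q ^ 3)
        rw [← pow_mul, mul_comm, pow_mul, hTT], zero_pow (pow_ne_zero _ hq)⟩
      simp only [hh] at h4
      rw [h2, ← pow_mul, ← pow_mul, ← pow_mul] at h4
      have e1 : D.q ^ 3 * D.q ^ 3 = D.q ^ 6 := by ring
      have e2 : D.q ^ 3 * D.q ^ 5 = D.q ^ 6 * D.q ^ 2 := by ring
      have e3 : D.q ^ 3 * D.q = D.q ^ 4 := by ring
      rw [e1, e2, e3, pow_mul T, hTT] at h4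
      linear_combination h4
    obtain ⟨f, hf⟩ : ∃ f : L[X], f = C w.1 * X + C (w.1 ^ (D.q ^ 2)) * X ^ (D.q ^ 2) +
      C (w.1 ^ (D.q ^ 4)) * X ^ (D.q ^ 4) := ⟨_, rfl⟩
    have hq2 : D.q ^ 2 < D.q ^ 4 := Nat.pow_lt_pow_right hq1 (by norm_num)
    have hq0 : 1 < D.q ^ 4 := Nat.one_lt_pow (by norm_num) hq1
    have hfc : f.coeff (D.q ^ 4) = w.1 ^ (D.q ^ 4) := by
      rw [hf, coeff_add, coeff_add, coeff_C_mul, coeff_C_mul, coeff_C_mul, coeff_X, coeff_X_pow,
        coeff_X_pow, if_neg (by omega), if_neg (by omega), if_pos rfl]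
      ring
    have hf0 : f ≠ 0 := by
      intro h0
      rw [h0, coeff_zero] at hfc
      exact pow_ne_zero _ hP hfc.symm
    have hdeg : f.natDegree ≤ D.q ^ 4 := by
      rw [hf]
      apply natDegree_add_le_of_degree_le
      · apply natDegree_add_le_of_degree_le
        · exact ((natDegree_C_mul_le _ _).trans natDegree_X_le).trans hq0.le
        · exact (natDegree_C_mul_X_pow_le _ _).trans hq2.le
      · exact natDegree_C_mul_X_pow_le _ _
    have hsub : {x : L | x ^ (D.q ^ 6) = x} ⊆ (f.roots.toFinset : Set L) := by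
      intro T hTT
      rw [Finset.mem_coe, Multiset.mem_toFinset, mem_roots hf0, IsRoot.def, hf]
      simpa using hT T hTT
    have hcard := Set.ncard_le_ncard hsub (Finset.finite_toSet _)
    rw [ncard_fix D 6 (by norm_num), Set.ncard_coe_finset] at hcard
    have h5 : f.roots.toFinset.card ≤ D.q ^ 4 :=
      (Multiset.toFinset_card_le _).trans ((card_roots' f).trans hdeg)
    have h6 : D.q ^ 4 < D.q ^ 6 := Nat.pow_lt_pow_right hq1 (by norm_num)
    omega
  exact Prod.ext h3 h2

/-- an orthonormal family -/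
def ON (k : ℕ) (e : Fin k → L × L) : Prop :=
  (∀ i, e i ∈ Vs D) ∧ ∀ i j, hh D (e i) (e j) = if i = j then 1 else 0

theorem ext_family [IsAlgClosed L] (k : ℕ) (hk : k < 4) (e : Fin k → L × L) (he : ON D k e) :
    ∃ e' : Fin (k + 1) → L × L, ON D (k + 1) e' := by
  classical
  by_contra hno
  have hq : D.q ≠ 0 := by have := D.h5; omega
  have hq1 : 1 < D.q := by have := D.h5; omega
  have hW : ∀ w ∈ Vs D, (∀ i, hh D w (e i) = 0) → hh D w w = 0 := by
    intro w hw hwe
    by_contra h0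
    obtain ⟨c, hc⟩ := IsAlgClosed.exists_pow_nat_eq (hh D w w)⁻¹ (n := D.q + 1) (by omega)
    have ha := herm D hw hw
    have ha1 : hh D w w ^ (D.q - 1) = 1 := by
      have h1 : hh D w w ^ (D.q - 1) * hh D w w = 1 * hh D w w := by
        rw [← pow_succ, Nat.sub_add_cancel hq1.le, ha, one_mul]
      exact mul_right_cancel₀ h0 h1
    have hc2 : c ^ (D.q ^ 2) = c := by
      have h1 : D.q ^ 2 = (D.q + 1) * (D.q - 1) + 1 := by
        obtain ⟨m, hm⟩ : ∃ m, D.q = m + 1 := ⟨D.q - 1, by omega⟩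
        rw [hm, Nat.add_sub_cancel]
        ring
      rw [h1, pow_succ, pow_mul, hc, inv_pow, ha1, inv_one, one_mul]
    apply hno
    have hwe' : ∀ i, hh D (e i) w = 0 := by
      intro i
      rw [← herm D hw (he.1 i), hwe i, zero_pow hq]
    refine ⟨Fin.snoc (α := fun _ => L × L) e (c • w), ?_, ?_⟩
    · intro i
      refine Fin.lastCases ?_ (fun i => ?_) i
      · rw [Fin.snoc_last]
        exact Vs_smul D hc2 hw
      · rw [Fin.snoc_castSucc]
        exact he.1 i
    · intro i j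
      refine Fin.lastCases ?_ (fun i => ?_) i
      · refine Fin.lastCases ?_ (fun j => ?_) j
        · rw [Fin.snoc_last, if_pos rfl, hh_smul_left D hc2, hh_smul_right D hc2, ← mul_assoc,
            ← pow_succ', hc, inv_mul_cancel₀ h0]
        · rw [Fin.snoc_last, Fin.snoc_castSucc, if_neg (Fin.castSucc_lt_last j).ne',
            hh_smul_left D hc2, hwe, mul_zero]
      · refine Fin.lastCases ?_ (fun j => ?_) j
        · rw [Fin.snoc_last, Fin.snoc_castSucc, if_neg (Fin.castSucc_lt_last i).ne,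
            hh_smul_right D hc2, hwe', mul_zero]
        · rw [Fin.snoc_castSucc, Fin.snoc_castSucc, he.2 i j]
          simp only [Fin.castSucc_inj]
  have hWW : ∀ w ∈ Vs D, (∀ i, hh D w (e i) = 0) → ∀ w' ∈ Vs D, (∀ i, hh D w' (e i) = 0) →
      hh D w w' = 0 := by
    intro w hw hwe w' hw' hwe'
    obtain ⟨c, hc2, hc1⟩ : ∃ c : L, c ^ (D.q ^ 2) = c ∧ c ^ D.q ≠ c := by
      by_contra hcon
      push Not at hcon
      have h1 : {x : L | x ^ (D.q ^ 2) = x} ⊆ {x : L | x ^ (D.q ^ 1) = x} := by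
        intro x hx
        show x ^ (D.q ^ 1) = x
        rw [pow_one]
        exact hcon x hx
      have hfin : {x : L | x ^ (D.q ^ 1) = x}.Finite := by
        apply Set.finite_of_ncard_ne_zero
        rw [ncard_fix D 1 (by norm_num)]
        exact pow_ne_zero _ hq
      have h2 := Set.ncard_le_ncard h1 hfin
      rw [ncard_fix D 2 (by norm_num), ncard_fix D 1 (by norm_num)] at h2
      have h3 : D.q ^ 1 < D.q ^ 2 := Nat.pow_lt_pow_right hq1 (by norm_num)
      omega
    have hsum : ∀ a b : L × L, a ∈ Vs D → b ∈ Vs D → (∀ i, hh D a (e i) = 0) →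
        (∀ i, hh D b (e i) = 0) → hh D a b + hh D b a = 0 := by
      intro a b ha hb hae hbe
      have h1 := hW (a + b) ((VG D).add_mem ha hb) (by
        intro i
        rw [← hl_apply, map_add, hl_apply, hl_apply, hae, hbe, add_zero])
      rw [← hl_apply, map_add, hl_apply, hl_apply, ← hr_apply, ← hr_apply, map_add, map_add,
        hr_apply, hr_apply, hr_apply, hr_apply, hW a ha hae, hW b hb hbe] at h1
      linear_combination h1
    have h1 := hsum w w' hw hw' hwe hwe'
    have h2 := hsum (c • w) w' (Vs_smul D hc2 hw) hw' (by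
      intro i
      rw [hh_smul_left D hc2, hwe, mul_zero]) hwe'
    rw [hh_smul_left D hc2, hh_smul_right D hc2] at h2
    have h3 : (c - c ^ D.q) * hh D w w' = 0 := by
      linear_combination h2 - c ^ D.q * h1
    rcases mul_eq_zero.1 h3 with h4 | h4
    · exact absurd (sub_eq_zero.1 h4).symm hc1
    · exact h4
  have hproj : ∀ v ∈ Vs D, (∑ i, hh D v (e i) • e i) ∈ Vs D ∧
      ∀ j, hh D (∑ i, hh D v (e i) • e i) (e j) = hh D v (e j) := by
    intro v hv
    constructor
    · exact (VG D).sum_mem fun i _ => Vs_smul D (hh_fix D hv (he.1 i)) (he.1 i)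
    · intro j
      rw [← hl_apply, map_sum]
      rw [Finset.sum_eq_single j]
      · rw [hl_apply, hh_smul_left D (hh_fix D hv (he.1 j)), he.2, if_pos rfl, mul_one]
      · intro i _ hij
        rw [hl_apply, hh_smul_left D (hh_fix D hv (he.1 i)), he.2, if_neg hij, mul_zero]
      · intro h
        exact absurd (Finset.mem_univ j) h
  have hW0 : ∀ w ∈ Vs D, (∀ i, hh D w (e i) = 0) → w = 0 := by
    intro w hw hwe
    apply nondeg D hw
    intro v hv
    obtain ⟨h1, h2⟩ := hproj v hv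
    have h3 : v = (v - ∑ i, hh D v (e i) • e i) + ∑ i, hh D v (e i) • e i := by abel
    rw [h3, ← hr_apply, map_add, hr_apply, hr_apply]
    have h4 : hh D w (v - ∑ i, hh D v (e i) • e i) = 0 := by
      apply hWW w hw hwe _ ((VG D).sub_mem hv h1)
      intro i
      rw [← hl_apply, map_sub, hl_apply, hl_apply, h2, sub_self]
    have h5 : hh D w (∑ i, hh D v (e i) • e i) = 0 := by
      rw [← hr_apply, map_sum]
      apply Finset.sum_eq_zero
      intro i _
      rw [hr_apply, hh_smul_right D (hh_fix D hv (he.1 i)), hwe, mul_zero]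
    rw [h4, h5, add_zero]
  -- counting
  have hfin : {x : L | x ^ (D.q ^ 2) = x}.Finite := by
    apply Set.finite_of_ncard_ne_zero
    rw [ncard_fix D 2 (by norm_num)]
    exact pow_ne_zero _ hq
  have : Finite {x : L | x ^ (D.q ^ 2) = x} := hfin
  have hinj : Function.Injective (fun v : Vs D => fun i : Fin k =>
      (⟨hh D v (e i), hh_fix D v.2 (he.1 i)⟩ : {x : L | x ^ (D.q ^ 2) = x})) := by
    intro v v' hvv
    have h1 : ∀ i, hh D v (e i) = hh D v' (e i) := fun i =>
      congrArg Subtype.val (congrFun hvv i)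
    have h2 : (v : L × L) - v' = 0 := by
      apply hW0 _ ((VG D).sub_mem v.2 v'.2)
      intro i
      rw [← hl_apply, map_sub, hl_apply, hl_apply, h1, sub_self]
    exact Subtype.ext (sub_eq_zero.1 h2)
  have hcard := Nat.card_le_card_of_injective _ hinj
  rw [Nat.card_fun, Nat.card_coe_set_eq, Nat.card_coe_set_eq, ncard_Vs,
    ncard_fix D 2 (by norm_num), Nat.card_eq_fintype_card, Fintype.card_fin, ← pow_mul] at hcard
  have h1 : D.q ^ (2 * k) < D.q ^ 8 := Nat.pow_lt_pow_right hq1 (by omega)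
  omega

theorem exists_ON [IsAlgClosed L] : ∃ e : Fin 4 → L × L, ON D 4 e := by
  have h0 : ∃ e : Fin 0 → L × L, ON D 0 e := ⟨Fin.elim0, fun i => i.elim0, fun i => i.elim0⟩
  obtain ⟨e0, h0⟩ := h0
  obtain ⟨e1, h1⟩ := ext_family D 0 (by norm_num) e0 h0
  obtain ⟨e2, h2⟩ := ext_family D 1 (by norm_num) e1 h1
  obtain ⟨e3, h3⟩ := ext_family D 2 (by norm_num) e2 h2
  exact ext_family D 3 (by norm_num) e3 h3

end

theorem ISOM : S_ISOM := by
  classical
  intro F _ _ q hF D hD
  subst hD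
  obtain ⟨e, he⟩ := exists_ON D
  obtain ⟨j, hj⟩ : ∃ j : F →+* AlgebraicClosure F, j = algebraMap F (AlgebraicClosure F) :=
    ⟨_, rfl⟩
  rw [← hj]
  have hfix : ∀ c : F, j c ^ (D.q ^ 2) = j c := by
    intro c
    rw [← map_pow, ← hF, FiniteField.pow_card]
  have hval : ∀ (v : Fin 4 → F) (u : AlgebraicClosure F × AlgebraicClosure F),
      hh D (∑ i, j (v i) • e i) u = ∑ i, j (v i) * hh D (e i) u := by
    intro v u
    rw [← hl_apply, map_sum]
    refine Finset.sum_congr rfl fun i _ => ?_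
    rw [hl_apply, hh_smul_left D (hfix _)]
  have hcoord : ∀ (v : Fin 4 → F) (i : Fin 4), hh D (∑ i, j (v i) • e i) (e i) = j (v i) := by
    intro v i
    rw [hval, Finset.sum_eq_single i]
    · rw [he.2, if_pos rfl, mul_one]
    · intro k _ hk
      rw [he.2, if_neg hk, mul_zero]
    · intro h
      exact absurd (Finset.mem_univ i) h
  have hinj : Function.Injective (fun v : Fin 4 → F => ∑ i, j (v i) • e i) := by
    intro v v' hvv
    funext i
    apply j.injective
    rw [← hcoord v i, ← hcoord v' i]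
    exact congrArg (fun u => hh D u (e i)) hvv
  have hmem : ∀ v : Fin 4 → F, (∑ i, j (v i) • e i) ∈ Vs D := fun v =>
    (VG D).sum_mem fun i _ => Vs_smul D (hfix _) (he.1 i)
  refine ⟨fun v => ∑ i, j (v i) • e i, hinj, ?_, hmem, ?_, ?_, ?_⟩
  · intro P Y hPY
    have h1 : Set.range (fun v : Fin 4 → F => ∑ i, j (v i) • e i) ⊆ Vs D := by
      rintro _ ⟨v, rfl⟩
      exact hmem v
    have hq : D.q ≠ 0 := by have := D.h5; omega
    have hfin : (Vs D).Finite := by
      apply Set.finite_of_ncard_ne_zero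
      rw [ncard_Vs]
      exact pow_ne_zero _ hq
    have h2 : Set.range (fun v : Fin 4 → F => ∑ i, j (v i) • e i) = Vs D := by
      apply Set.eq_of_subset_of_ncard_le h1 _ hfin
      rw [ncard_Vs, ← Set.image_univ, Set.ncard_image_of_injective _ hinj, Set.ncard_univ,
        Nat.card_eq_fintype_card, Fintype.card_fun, hF, Fintype.card_fin, ← pow_mul]
    have h3 : (P, Y) ∈ Vs D := hPY
    rw [← h2] at h3
    exact h3
  · intro v w
    show ∑ i, j ((v + w) i) • e i = ∑ i, j (v i) • e i + ∑ i, j (w i) • e i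
    rw [← Finset.sum_add_distrib]
    refine Finset.sum_congr rfl fun i _ => ?_
    rw [Pi.add_apply, map_add, add_smul]
  · intro c v
    have h1 : ∑ i, j ((c • v) i) • e i = j c • ∑ i, j (v i) • e i := by
      rw [Finset.smul_sum]
      refine Finset.sum_congr rfl fun i _ => ?_
      rw [Pi.smul_apply, smul_eq_mul, map_mul, mul_smul]
    show ∑ i, j ((c • v) i) • e i = _
    rw [h1]
    rfl
  · intro v w
    have h1 : hh D (∑ i, j (v i) • e i) (∑ i, j (w i) • e i) = ∑ i, j (v i) * j (w i) ^ D.q := by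
      rw [hval]
      refine Finset.sum_congr rfl fun i _ => ?_
      congr 1
      rw [← hr_apply, map_sum, Finset.sum_eq_single i]
      · rw [hr_apply, hh_smul_right D (hfix _), he.2, if_pos rfl, mul_one]
      · intro k _ hk
        rw [hr_apply, hh_smul_right D (hfix _), he.2, if_neg hk.symm, mul_zero]
      · intro h
        exact absurd (Finset.mem_univ i) h
    rw [map_sum]
    simp only [map_mul, map_pow]
    exact h1.symm

end Pool.Agent.TH986.J3623
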